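import Pool.Agent.ACP.SumView

/-!
# The advantage is bounded by correlations
-/

set_option linter.unusedVariables false

namespace Pool.Agent.ACP

theorem av_prod : ∀ (m : ℕ) (c : Fin m → Bool),
    ∏ i, (if c i = true then (-1 : ℝ) else 1) = if par m c = true then -1 else 1
  | 0, c => by simp [par]
  | m + 1, c => by
      rw [Fin.prod_univ_succ, av_prod m (fun i => c i.succ), par]
      cases c 0 <;> cases par m (fun i => c i.succ) <;> simp

theorem av_chi {k : ℕ} {V : Type} (j : V) (x : Inp k V) :
    chi j x = if par (k + 1) (fun i => x.2 i (x.1 i j)) = true then -1 else 1 := by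
  unfold chi
  exact av_prod (k + 1) (fun i => x.2 i (x.1 i j))

theorem av_false {k : ℕ} {V : Type} (j : V) (s : ℕ) : ∀ d : ℕ,
    (fun _ : Inp k V => false) ∈ AC (SDT k V j 1) s d
  | 0 => vw_const j false
  | _ + 1 => ⟨0, fun _ _ => false, Nat.zero_le _, fun i => i.elim0, Or.inl fun x => by simp⟩

theorem av_abs_if (p : Prop) [Decidable p] : |(if p then (1 : ℝ) else 0)| ≤ 1 := by
  split_ifs <;> simp

/-- One key and one choice of the labels of the unused slots. -/
theorem av_one {n k w s d : ℕ} (E : Fin (k + 1) → Fin (n + 1) → Slot w)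
    (hE : ∀ i, Function.Injective (E i)) (a : Fin (k + 1) → Slot w → Bool)
    (A : (PK k w ⊕ CT k w → Bool) → Bool) (hA : A ∈ AC (lits _) s d) (ε : ℝ)
    (hε : ∀ f ∈ AC (SDT k (Fin (n + 1)) 0 1) s d,
      |∑ x, chi (0 : Fin (n + 1)) x * (if f x = true then (1 : ℝ) else 0)| ≤
        ε * Fintype.card (Inp k (Fin (n + 1)))) :
    |(∑ x : Inp k (Fin (n + 1)), if A (view E a x
        (xor false (par (k + 1) (fun i => x.2 i (x.1 i 0))))) = true then (1 : ℝ) else 0) -
     (∑ x : Inp k (Fin (n + 1)), if A (view E a x
        (xor true (par (k + 1) (fun i => x.2 i (x.1 i 0))))) = true then (1 : ℝ) else 0)| ≤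
      2 * ε * Fintype.card (Inp k (Fin (n + 1))) := by
  have h1 : (∑ x : Inp k (Fin (n + 1)), if A (view E a x
        (xor false (par (k + 1) (fun i => x.2 i (x.1 i 0))))) = true then (1 : ℝ) else 0) -
     (∑ x : Inp k (Fin (n + 1)), if A (view E a x
        (xor true (par (k + 1) (fun i => x.2 i (x.1 i 0))))) = true then (1 : ℝ) else 0) =
      (∑ x, chi (0 : Fin (n + 1)) x * (if A (view E a x false) = true then (1 : ℝ) else 0)) -
      ∑ x, chi (0 : Fin (n + 1)) x * (if A (view E a x true) = true then (1 : ℝ) else 0) := by
    rw [← Finset.sum_sub_distrib, ← Finset.sum_sub_distrib]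
    apply Finset.sum_congr rfl
    intro x _
    rw [av_chi]
    cases par (k + 1) (fun i => x.2 i (x.1 i 0)) <;> simp <;> split_ifs <;> norm_num
  rw [h1]
  have h2 := hε _ (view_AC E hE a false A hA)
  have h3 := hε _ (view_AC E hE a true A hA)
  calc _ ≤ |∑ x, chi (0 : Fin (n + 1)) x * (if A (view E a x false) = true then (1 : ℝ) else 0)| +
        |∑ x, chi (0 : Fin (n + 1)) x * (if A (view E a x true) = true then (1 : ℝ) else 0)| :=
        abs_sub _ _
    _ ≤ ε * Fintype.card (Inp k (Fin (n + 1))) + ε * Fintype.card (Inp k (Fin (n + 1))) :=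
        add_le_add h2 h3
    _ = _ := by ring

/-- The advantage of a circuit is small if the correlations are. -/
theorem adv_bound {n k w L s d : ℕ} (dflt : Fin (n + 1) → Slot w) (hw : (n + 1) ^ 2 ≤ 2 ^ w)
    (A : (PK k w ⊕ CT k w → Bool) → Bool) (hA : A ∈ AC (lits _) s d) (ε : ℝ)
    (hε : ∀ f ∈ AC (SDT k (Fin (n + 1)) 0 1) s d,
      |∑ x, chi (0 : Fin (n + 1)) x * (if f x = true then (1 : ℝ) else 0)| ≤
        ε * Fintype.card (Inp k (Fin (n + 1)))) :
    |(∑ g : CG n k w L → Bool, ∑ r : CE k w → Bool, if A (Sum.elim (genPk dflt g) (encr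
        (Sum.elim (genPk dflt g) (Sum.elim (fun _ => false) r)))) = true then (1 : ℝ) else 0) -
     (∑ g : CG n k w L → Bool, ∑ r : CE k w → Bool, if A (Sum.elim (genPk dflt g) (encr
        (Sum.elim (genPk dflt g) (Sum.elim (fun _ => true) r)))) = true then (1 : ℝ) else 0)| ≤
      (2 * ε + (k + 1) / 2 ^ L) * (Fintype.card (CG n k w L → Bool) *
        Fintype.card (CE k w → Bool)) := by
  classical
  set cI : ℝ := ((Fintype.card (Inp k (Fin (n + 1))) : ℕ) : ℝ) with hcI
  have hcI0 : 0 < cI := by
    rw [hcI]
    exact_mod_cast Fintype.card_pos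
  have hε0 : 0 ≤ ε := by
    have := hε _ (av_false 0 s d)
    have h := (abs_nonneg _).trans this
    exact nonneg_of_mul_nonneg_left h hcI0
  set V : Bool → (CG n k w L → Bool) → (CE k w → Bool) → ℝ := fun b g r =>
    if A (Sum.elim (genPk dflt g) (encr
        (Sum.elim (genPk dflt g) (Sum.elim (fun _ => b) r)))) = true then (1 : ℝ) else 0 with hV
  have hV1 : ∀ b g r, |V b g r| ≤ 1 := fun b g r => av_abs_if _
  have hV01 : ∀ b g r, 0 ≤ V b g r ∧ V b g r ≤ 1 := by
    intro b g r
    simp only [hV]
    split_ifs <;> simp
  set S : Bool → ℝ := fun b => ∑ g : CG n k w L → Bool, ∑ r : CE k w → Bool,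
    if Fails g then 0 else V b g r with hS
  set Q : Bool → ℝ := fun b => ∑ g : CG n k w L → Bool, ∑ r : CE k w → Bool,
    if Fails g then V b g r else 0 with hQ
  have hsplit : ∀ b, (∑ g : CG n k w L → Bool, ∑ r : CE k w → Bool, V b g r) = Q b + S b := by
    intro b
    simp only [hS, hQ]
    rw [← Finset.sum_add_distrib]
    apply Finset.sum_congr rfl
    intro g _
    rw [← Finset.sum_add_distrib]
    apply Finset.sum_congr rfl
    intro r _
    by_cases hg : Fails g <;> simp [hg]
  -- the part without failures
  have hSd : |S false - S true| ≤ 2 * ε * (Fintype.card (CG n k w L → Bool) *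
        Fintype.card (CE k w → Bool)) := by
    have hcard : (Fintype.card (Fin (k + 1) → Slot w → Bool) : ℝ) =
        Fintype.card (CE k w → Bool) := by
      exact_mod_cast (Fintype.card_congr (Equiv.curry (Fin (k + 1)) (Slot w) Bool)).symm
    have h1 : ∀ b, S b * cI = ∑ g : CG n k w L → Bool, ∑ a : Fin (k + 1) → Slot w → Bool,
        if Fails g then 0 else
        ∑ x : Inp k (Fin (n + 1)), if A (view (fun i => lay dflt g i) a x
          (xor b (par (k + 1) (fun i => x.2 i (x.1 i 0))))) = true then (1 : ℝ) else 0 := by
      intro b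
      exact sum_view dflt b (fun y => if A y = true then (1 : ℝ) else 0)
    have h2 : |S false * cI - S true * cI| ≤ 2 * ε * (Fintype.card (CG n k w L → Bool) *
        Fintype.card (CE k w → Bool)) * cI := by
      rw [h1, h1, ← Finset.sum_sub_distrib]
      calc _ ≤ ∑ g : CG n k w L → Bool, |(∑ a : Fin (k + 1) → Slot w → Bool,
              if Fails g then 0 else
              ∑ x : Inp k (Fin (n + 1)), if A (view (fun i => lay dflt g i) a x
                (xor false (par (k + 1) (fun i => x.2 i (x.1 i 0))))) = true then (1 : ℝ) else 0)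
              - ∑ a : Fin (k + 1) → Slot w → Bool, if Fails g then 0 else
              ∑ x : Inp k (Fin (n + 1)), if A (view (fun i => lay dflt g i) a x
                (xor true (par (k + 1) (fun i => x.2 i (x.1 i 0))))) = true then (1 : ℝ) else 0| :=
            Finset.abs_sum_le_sum_abs _ _
        _ ≤ ∑ _g : CG n k w L → Bool, (2 * ε * cI * Fintype.card (CE k w → Bool)) := by
            apply Finset.sum_le_sum
            intro g _
            rw [← Finset.sum_sub_distrib]
            calc _ ≤ ∑ _a : Fin (k + 1) → Slot w → Bool, 2 * ε * cI := by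
                  refine (Finset.abs_sum_le_sum_abs _ _).trans (Finset.sum_le_sum ?_)
                  intro a _
                  by_cases hg : Fails g
                  · simp only [hg, if_true, sub_zero, abs_zero]
                    positivity
                  · simp only [hg, if_false]
                    exact av_one _ (SV.lay_injective dflt g hg) a A hA ε hε
              _ = 2 * ε * cI * Fintype.card (CE k w → Bool) := by
                  rw [Finset.sum_const, Finset.card_univ, nsmul_eq_mul, hcard]
                  ring
        _ = _ := by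
            rw [Finset.sum_const, Finset.card_univ, nsmul_eq_mul]
            ring
    rw [← sub_mul, abs_mul, abs_of_pos hcI0] at h2
    exact le_of_mul_le_mul_right h2 hcI0
  -- the failures
  have hQd : |Q false - Q true| ≤ ((k + 1) / 2 ^ L) * (Fintype.card (CG n k w L → Bool) *
        Fintype.card (CE k w → Bool)) := by
    have hf : ((Finset.univ.filter (fun g : CG n k w L → Bool => Fails g)).card : ℝ) ≤
        (k + 1) / 2 ^ L * Fintype.card (CG n k w L → Bool) := by
      have := fails_card (n := n) (k := k) (w := w) (L := L) hw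
      have h2 : (((Finset.univ.filter (fun g : CG n k w L → Bool => Fails g)).card : ℝ)) * 2 ^ L ≤
          (k + 1) * Fintype.card (CG n k w L → Bool) := by exact_mod_cast this
      have h3 : (0 : ℝ) < 2 ^ L := by positivity
      rw [div_mul_eq_mul_div, le_div_iff₀ h3]
      exact h2
    calc |Q false - Q true| ≤ ∑ g : CG n k w L → Bool,
          (if Fails g then (Fintype.card (CE k w → Bool) : ℝ) else 0) := by
          simp only [hQ]
          rw [← Finset.sum_sub_distrib]
          refine (Finset.abs_sum_le_sum_abs _ _).trans (Finset.sum_le_sum ?_)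
          intro g _
          rw [← Finset.sum_sub_distrib]
          by_cases hg : Fails g
          · simp only [hg, if_true]
            calc _ ≤ ∑ _r : CE k w → Bool, (1 : ℝ) := by
                  refine (Finset.abs_sum_le_sum_abs _ _).trans (Finset.sum_le_sum ?_)
                  intro r _
                  have h1 := hV01 false g r
                  have h2 := hV01 true g r
                  rw [abs_le]
                  constructor <;> linarith
              _ = _ := by simp
          · simp [hg]
      _ = (Finset.univ.filter (fun g : CG n k w L → Bool => Fails g)).card *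
            Fintype.card (CE k w → Bool) := by
          rw [← Finset.sum_filter, Finset.sum_const, nsmul_eq_mul]
      _ ≤ (k + 1) / 2 ^ L * Fintype.card (CG n k w L → Bool) * Fintype.card (CE k w → Bool) :=
          mul_le_mul_of_nonneg_right hf (Nat.cast_nonneg _)
      _ = _ := by ring
  have e1 : (∑ g : CG n k w L → Bool, ∑ r : CE k w → Bool, if A (Sum.elim (genPk dflt g) (encr
        (Sum.elim (genPk dflt g) (Sum.elim (fun _ => false) r)))) = true then (1 : ℝ) else 0) =
      Q false + S false := hsplit false
  have e2 : (∑ g : CG n k w L → Bool, ∑ r : CE k w → Bool, if A (Sum.elim (genPk dflt g) (encr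
        (Sum.elim (genPk dflt g) (Sum.elim (fun _ => true) r)))) = true then (1 : ℝ) else 0) =
      Q true + S true := hsplit true
  rw [e1, e2]
  calc |Q false + S false - (Q true + S true)| = |(Q false - Q true) + (S false - S true)| := by
        congr 1
        ring
    _ ≤ |Q false - Q true| + |S false - S true| := abs_add_le _ _
    _ ≤ _ := by
        refine (add_le_add hQd hSd).trans (le_of_eq ?_)
        ring

end Pool.Agent.ACP
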