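import Pool.Agent.ACP.Defs

/-!
# Decision trees: closure properties, restriction, conversion to DNF
-/

set_option linter.unusedVariables false
set_option linter.unusedSectionVars false

namespace Pool.Agent.ACP

variable {k : ℕ} {V W U : Type}

theorem DT_mono {T T' : ℕ} (h : T ≤ T') {f : Inp k V → Bool} (hf : f ∈ DT k V T) :
    f ∈ DT k V T' := by
  induction h with
  | refl => exact hf
  | step _ ih => exact Or.inl ih

theorem DT_not {T : ℕ} {f : Inp k V → Bool} (hf : f ∈ DT k V T) :
    (fun x => !f x) ∈ DT k V T := by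
  induction T generalizing f with
  | zero =>
    obtain ⟨b, hb⟩ := hf
    exact ⟨!b, fun x => by simp only [hb x]⟩
  | succ T ih =>
    rcases hf with hf | ⟨q, g, hg, hf⟩
    · exact Or.inl (ih hf)
    · exact Or.inr ⟨q, fun a x => !g a x, fun a => ih (hg a), fun x => by simp only [hf x]⟩

/-- Decision trees restrict along maps under which every answer is constant or an answer. -/
theorem DT_comp (Ψ : Inp k W → Inp k V)
    (hq : ∀ q, (∃ a, ∀ x, ans (Ψ x) q = a) ∨
      ∃ (q' : Qry k W) (τ : W ⊕ Bool → V ⊕ Bool), ∀ x, ans (Ψ x) q = τ (ans x q'))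
    {T : ℕ} {f : Inp k V → Bool} (hf : f ∈ DT k V T) :
    (fun x => f (Ψ x)) ∈ DT k W T := by
  induction T generalizing f with
  | zero =>
    obtain ⟨b, hb⟩ := hf
    exact ⟨b, fun x => hb (Ψ x)⟩
  | succ T ih =>
    rcases hf with hf | ⟨q, g, hg, hf⟩
    · exact Or.inl (ih hf)
    · rcases hq q with ⟨a, ha⟩ | ⟨q', τ, hτ⟩
      · have h : (fun x => f (Ψ x)) = fun x => g a (Ψ x) := by
          funext x
          rw [hf, ha]
        rw [h]
        exact Or.inl (ih (hg a))
      · exact Or.inr ⟨q', fun a' x => g (τ a') (Ψ x), fun a' => ih (hg (τ a')), fun x => by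
          simp only [hf, hτ]⟩

/-- A table lookup on the answers to the queries `qs`, then decision trees of depth `D`. -/
theorem DT_table (Ψ : Inp k W → Inp k V)
    (hq : ∀ q, (∃ a, ∀ x, ans (Ψ x) q = a) ∨
      ∃ (q' : Qry k W) (τ : W ⊕ Bool → V ⊕ Bool), ∀ x, ans (Ψ x) q = τ (ans x q'))
    {D : ℕ} (qs : List (Qry k V)) (G : List (V ⊕ Bool) → Inp k W → Bool)
    (hG : ∀ α : List (V ⊕ Bool), α.length = qs.length → G α ∈ DT k W D) :
    (fun x => G (qs.map (ans (Ψ x))) x) ∈ DT k W (qs.length + D) := by
  induction qs generalizing G with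
  | nil =>
    rw [List.length_nil, Nat.zero_add]
    exact hG [] rfl
  | cons q qs ih =>
    have h1 : ∀ a, (fun x => G (a :: qs.map (ans (Ψ x))) x) ∈ DT k W (qs.length + D) := fun a =>
      ih (fun α x => G (a :: α) x) fun α hα => hG (a :: α) (by simp [hα])
    have h2 : (q :: qs).length + D = (qs.length + D) + 1 := by
      rw [List.length_cons]
      omega
    rw [h2]
    rcases hq q with ⟨a, ha⟩ | ⟨q', τ, hτ⟩
    · have h3 : (fun x => G ((q :: qs).map (ans (Ψ x))) x) =
          fun x => G (a :: qs.map (ans (Ψ x))) x := by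
        funext x
        rw [List.map_cons, ha]
      rw [h3]
      exact Or.inl (h1 a)
    · exact Or.inr ⟨q', fun a' x => G (τ a' :: qs.map (ans (Ψ x))) x, fun a' => h1 (τ a'),
        fun x => by simp only [List.map_cons, hτ]⟩

/-- the fact saying that the answer is `a` -/
private def basicFct : Qry k V → V ⊕ Bool → Option (Fct k V)
  | Qry.lab i u, Sum.inr b => some (Fct.lab i u b)
  | Qry.lab _ _, Sum.inl _ => none
  | Qry.out i u, Sum.inl v => some (Fct.edge i u v)
  | Qry.out _ _, Sum.inr _ => none
  | Qry.inn i v, Sum.inl u => some (Fct.edge i u v)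
  | Qry.inn _ _, Sum.inr _ => none

private theorem basicFct_holds (x : Inp k V) (q : Qry k V) (a : V ⊕ Bool) :
    ans x q = a ↔ ∃ φ, basicFct q a = some φ ∧ φ.holds x := by
  cases q with
  | lab i u =>
    cases a with
    | inl w => simp [ans, basicFct]
    | inr b => simp [ans, basicFct, Fct.holds]
  | out i u =>
    cases a with
    | inl w =>
      simp only [ans, basicFct, Option.some.injEq, exists_eq_left', Fct.holds, Sum.inl.injEq]
      rw [Equiv.eq_symm_apply]
    | inr b => simp [ans, basicFct]
  | inn i v =>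
    cases a with
    | inl w =>
      simp only [ans, basicFct, Option.some.injEq, exists_eq_left', Fct.holds, Sum.inl.injEq]
      rw [eq_comm (a := (x.1 i.castSucc).symm w), Equiv.eq_symm_apply]
    | inr b => simp [ans, basicFct]

/-- A decision tree of depth `T` is a DNF with terms of at most `T` facts. -/
theorem DT_dnf [Fintype V] [DecidableEq V] {T : ℕ} {f : Inp k V → Bool} (hf : f ∈ DT k V T) :
    ∃ F : List (Finset (Fct k V)), (∀ t ∈ F, t.card ≤ T) ∧ ∀ x, f x = true ↔ dnf F x := by
  induction T generalizing f with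
  | zero =>
    obtain ⟨b, hb⟩ := hf
    cases b with
    | false =>
      refine ⟨[], by simp, fun x => ?_⟩
      simp [hb x, dnf]
    | true =>
      refine ⟨[∅], by simp, fun x => ?_⟩
      simp [hb x, dnf, holdsT]
  | succ T ih =>
    rcases hf with hf | ⟨q, g, hg, hf⟩
    · obtain ⟨F, h1, h2⟩ := ih hf
      exact ⟨F, fun t ht => (h1 t ht).trans (Nat.le_succ T), h2⟩
    · choose F hF1 hF2 using fun a => ih (hg a)
      refine ⟨(Finset.univ : Finset (V ⊕ Bool)).toList.flatMap fun a =>
        (basicFct q a).elim [] fun φ => (F a).map (insert φ), ?_, ?_⟩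
      · intro t ht
        rw [List.mem_flatMap] at ht
        obtain ⟨a, -, ht⟩ := ht
        cases hφ : basicFct q a with
        | none => rw [hφ] at ht; simp at ht
        | some φ =>
          rw [hφ] at ht
          simp only [Option.elim, List.mem_map] at ht
          obtain ⟨s, hs, rfl⟩ := ht
          exact (Finset.card_insert_le _ _).trans (Nat.succ_le_succ (hF1 a s hs))
      · intro x
        rw [hf x, hF2]
        constructor
        · rintro ⟨t, ht, htx⟩
          obtain ⟨φ, hφ, hφx⟩ := (basicFct_holds x q (ans x q)).1 rfl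
          refine ⟨insert φ t, ?_, ?_⟩
          · rw [List.mem_flatMap]
            refine ⟨ans x q, Finset.mem_toList.2 (Finset.mem_univ _), ?_⟩
            rw [hφ]
            exact List.mem_map.2 ⟨t, ht, rfl⟩
          · intro ψ hψ
            rcases Finset.mem_insert.1 hψ with rfl | hψ
            · exact hφx
            · exact htx ψ hψ
        · rintro ⟨t, ht, htx⟩
          rw [List.mem_flatMap] at ht
          obtain ⟨a, -, ht⟩ := ht
          cases hφ : basicFct q a with
          | none => rw [hφ] at ht; simp at ht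
          | some φ =>
            rw [hφ] at ht
            simp only [Option.elim, List.mem_map] at ht
            obtain ⟨s, hs, rfl⟩ := ht
            have h1 : ans x q = a :=
              (basicFct_holds x q a).2 ⟨φ, hφ, htx φ (Finset.mem_insert_self _ _)⟩
            rw [h1]
            exact ⟨s, hs, fun ψ hψ => htx ψ (Finset.mem_insert_of_mem hψ)⟩

end Pool.Agent.ACP
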