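import Pool.Agent.ACP.Pub

/-!
# Closure properties of constant-depth circuits
-/

set_option linter.unusedVariables false

namespace Pool.Agent.ACP

variable {X Y : Type} {B : Set (X → Bool)} {s d : ℕ}

theorem AC_mono_s {s' : ℕ} (h : s ≤ s') {f : X → Bool} (hf : f ∈ AC B s d) : f ∈ AC B s' d := by
  induction d generalizing f with
  | zero => exact hf
  | succ d ih =>
    obtain ⟨t, g, ht, hg, hfg⟩ := hf
    exact ⟨t, g, ht.trans h, fun i => ih (hg i), hfg⟩

private theorem AC_succ (hs : 1 ≤ s) {f : X → Bool} (hf : f ∈ AC B s d) : f ∈ AC B s (d + 1) :=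
  ⟨1, fun _ => f, hs, fun _ => hf, Or.inl fun x => by simp⟩

theorem AC_mono_d (hs : 1 ≤ s) {d' : ℕ} (h : d ≤ d') {f : X → Bool} (hf : f ∈ AC B s d) :
    f ∈ AC B s d' := by
  induction h with
  | refl => exact hf
  | step _ ih => exact AC_succ hs ih

theorem AC_not (hB : ∀ f ∈ B, (fun x => !f x) ∈ B) {f : X → Bool} (hf : f ∈ AC B s d) :
    (fun x => !f x) ∈ AC B s d := by
  induction d generalizing f with
  | zero => exact hB f hf
  | succ d ih =>
    obtain ⟨t, g, ht, hg, hfg⟩ := hf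
    refine ⟨t, fun i x => !g i x, ht, fun i => ih (hg i), ?_⟩
    rcases hfg with h | h
    · right
      intro x
      simp only [Bool.not_eq_true']
      rw [← Bool.not_eq_true, h x]
      simp
    · left
      intro x
      simp only [Bool.not_eq_true']
      rw [← Bool.not_eq_true, h x]
      simp

theorem Circ_or_iff {ι : Type} [Fintype ι] (h : Fintype.card ι ≤ s) (g : ι → X → Bool)
    (hg : ∀ i, g i ∈ AC B s d) {f : X → Bool} (hf : ∀ x, f x = true ↔ ∃ i, g i x = true) :
    f ∈ AC B s (d + 1) := by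
  refine ⟨Fintype.card ι, fun i => g ((Fintype.equivFin ι).symm i), h, fun i => hg _,
    Or.inl fun x => ?_⟩
  rw [hf]
  constructor
  · rintro ⟨i, hi⟩
    exact ⟨Fintype.equivFin ι i, by simpa using hi⟩
  · rintro ⟨i, hi⟩
    exact ⟨_, hi⟩

theorem Circ_and_iff {ι : Type} [Fintype ι] (h : Fintype.card ι ≤ s) (g : ι → X → Bool)
    (hg : ∀ i, g i ∈ AC B s d) {f : X → Bool} (hf : ∀ x, f x = true ↔ ∀ i, g i x = true) :
    f ∈ AC B s (d + 1) := by
  refine ⟨Fintype.card ι, fun i => g ((Fintype.equivFin ι).symm i), h, fun i => hg _,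
    Or.inr fun x => ?_⟩
  rw [hf]
  constructor
  · intro h1 i
    exact h1 _
  · intro h1 i
    have h2 := h1 (Fintype.equivFin ι i)
    simpa using h2

open Classical in
theorem AC_or {ι : Type} [Fintype ι] (h : Fintype.card ι ≤ s) (g : ι → X → Bool)
    (hg : ∀ i, g i ∈ AC B s d) : (fun x => decide (∃ i, g i x = true)) ∈ AC B s (d + 1) :=
  Circ_or_iff h g hg fun x => decide_eq_true_iff

open Classical in
theorem AC_and {ι : Type} [Fintype ι] (h : Fintype.card ι ≤ s) (g : ι → X → Bool)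
    (hg : ∀ i, g i ∈ AC B s d) : (fun x => decide (∀ i, g i x = true)) ∈ AC B s (d + 1) :=
  Circ_and_iff h g hg fun x => decide_eq_true_iff

theorem AC_or2 (hs : 2 ≤ s) {f g : X → Bool} (hf : f ∈ AC B s d) (hg : g ∈ AC B s d) :
    (fun x => f x || g x) ∈ AC B s (d + 1) := by
  refine ⟨2, ![f, g], hs, fun i => ?_, Or.inl fun x => ?_⟩
  · fin_cases i
    · exact hf
    · exact hg
  · rw [Bool.or_eq_true, Fin.exists_fin_two]
    rfl

theorem AC_and2 (hs : 2 ≤ s) {f g : X → Bool} (hf : f ∈ AC B s d) (hg : g ∈ AC B s d) :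
    (fun x => f x && g x) ∈ AC B s (d + 1) := by
  refine ⟨2, ![f, g], hs, fun i => ?_, Or.inr fun x => ?_⟩
  · fin_cases i
    · exact hf
    · exact hg
  · rw [Bool.and_eq_true, Fin.forall_fin_two]
    rfl

theorem AC_xor (hB : ∀ f ∈ B, (fun x => !f x) ∈ B) (hs : 2 ≤ s) {f g : X → Bool}
    (hf : f ∈ AC B s d) (hg : g ∈ AC B s d) : (fun x => xor (f x) (g x)) ∈ AC B s (d + 2) := by
  have h1 := AC_or2 hs (AC_and2 hs hf (AC_not hB hg)) (AC_and2 hs (AC_not hB hf) hg)
  have h2 : (fun x => xor (f x) (g x)) = fun x => (f x && !g x) || (!f x && g x) := by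
    funext x
    cases f x <;> cases g x <;> rfl
  rw [h2]
  exact h1

/-- The parity of a string of bits. -/
def par : (m : ℕ) → (Fin m → Bool) → Bool
  | 0, _ => false
  | m + 1, f => xor (f 0) (par m (fun i => f i.succ))

theorem AC_par (hB : ∀ f ∈ B, (fun x => !f x) ∈ B) (m : ℕ) (h1 : m ≤ s) (h2 : 2 ^ m ≤ s)
    (g : Fin m → X → Bool) (hg : ∀ i, g i ∈ AC B s d) :
    (fun x => par m (fun i => g i x)) ∈ AC B s (d + 2) := by
  classical
  have h3 : Fintype.card {v : Fin m → Bool // par m v = true} ≤ s := by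
    refine (Fintype.card_subtype_le _).trans (le_trans (le_of_eq ?_) h2)
    simp
  have key : ∀ (x : X) (v : Fin m → Bool),
      (∀ i : Fin m, (if v i then g i x else !g i x) = true) ↔ v = fun i => g i x := by
    intro x v
    rw [funext_iff]
    refine forall_congr' fun i => ?_
    cases v i <;> cases g i x <;> simp
  refine Circ_or_iff h3
    (fun v x => decide (∀ i : Fin m, (if v.1 i then g i x else !g i x) = true))
    (fun v => Circ_and_iff (ι := Fin m) (by simpa using h1)
      (fun i x => if v.1 i then g i x else !g i x) (fun i => ?_)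
      (fun x => decide_eq_true_iff)) (fun x => ?_)
  · cases hv : v.1 i
    · simpa using AC_not hB (hg i)
    · simpa using hg i
  · simp only [decide_eq_true_iff, key]
    constructor
    · intro h
      exact ⟨⟨_, h⟩, rfl⟩
    · rintro ⟨⟨v, hv⟩, hvx⟩
      rw [← show v = fun i => g i x from hvx]
      exact hv

/-- Substitution of circuits for the basic functions. -/
theorem AC_subst {B' : Set (Y → Bool)} (φ : Y → X) {d' : ℕ}
    (hB : ∀ f ∈ B, (fun y => f (φ y)) ∈ AC B' s d') {f : X → Bool} (hf : f ∈ AC B s d) :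
    (fun y => f (φ y)) ∈ AC B' s (d' + d) := by
  induction d generalizing f with
  | zero => exact hB f hf
  | succ d ih =>
    obtain ⟨t, g, ht, hg, hfg⟩ := hf
    refine ⟨t, fun i y => g i (φ y), ht, fun i => ih (hg i), ?_⟩
    exact hfg.imp (fun h y => h _) (fun h y => h _)

theorem lits_not {ι : Type} : ∀ f ∈ lits ι, (fun x => !f x) ∈ lits ι := by
  rintro f (⟨i, rfl⟩ | ⟨i, rfl⟩ | ⟨b, rfl⟩)
  · exact Or.inr (Or.inl ⟨i, rfl⟩)
  · exact Or.inl ⟨i, by funext x; simp⟩
  · exact Or.inr (Or.inr ⟨!b, rfl⟩)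

end Pool.Agent.ACP
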