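import Pool.Agent.ACP.Count

/-!
# Counting: few alive sets decode
-/

set_option linter.unusedVariables false

namespace Pool.Agent.ACP

variable {k : ℕ} {V : Type} [DecidableEq V]

private theorem choose_step (n l c : ℕ) (hc : c ≤ l) (hl : l ≤ n) :
    n.choose (l - c) * (n - l) ^ c ≤ l ^ c * n.choose l := by
  induction c with
  | zero => simp
  | succ c ih =>
    have ih' := ih (by omega)
    have h1 : n.choose (l - (c + 1)) * (n - l) ≤ n.choose (l - c) * l := by
      have h2 := Nat.choose_succ_right_eq n (l - (c + 1))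
      have h3 : l - (c + 1) + 1 = l - c := by omega
      rw [h3] at h2
      calc n.choose (l - (c + 1)) * (n - l)
          ≤ n.choose (l - (c + 1)) * (n - (l - (c + 1))) :=
            Nat.mul_le_mul_left _ (by omega)
        _ = n.choose (l - c) * (l - c) := h2.symm
        _ ≤ n.choose (l - c) * l := Nat.mul_le_mul_left _ (by omega)
    calc n.choose (l - (c + 1)) * (n - l) ^ (c + 1)
        = (n.choose (l - (c + 1)) * (n - l)) * (n - l) ^ c := by ring
      _ ≤ (n.choose (l - c) * l) * (n - l) ^ c := Nat.mul_le_mul_right _ h1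
      _ = (n.choose (l - c) * (n - l) ^ c) * l := by ring
      _ ≤ (l ^ c * n.choose l) * l := Nat.mul_le_mul_right _ ih'
      _ = l ^ (c + 1) * n.choose l := by ring

private theorem choose_bound (n l c M : ℕ) (hM : M ≤ c) (hc : c ≤ l) (hl : 2 * l ≤ n) :
    n.choose (l - c) * (n - l) ^ M ≤ l ^ M * n.choose l := by
  rcases Nat.eq_zero_or_pos l with h0 | h0
  · subst h0
    have : c = 0 := by omega
    subst this
    have : M = 0 := by omega
    subst this
    simp
  · have h1 := choose_step n l c hc (by omega)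
    have h2 : 0 < (n - l) ^ (c - M) := pow_pos (by omega) _
    have h3 : (n - l) ^ c = (n - l) ^ M * (n - l) ^ (c - M) := by
      rw [← pow_add]; congr 1; omega
    have h4 : l ^ c = l ^ M * l ^ (c - M) := by
      rw [← pow_add]; congr 1; omega
    have h5 : l ^ (c - M) ≤ (n - l) ^ (c - M) := Nat.pow_le_pow_left (by omega) _
    apply Nat.le_of_mul_le_mul_right _ h2
    calc n.choose (l - c) * (n - l) ^ M * (n - l) ^ (c - M)
        = n.choose (l - c) * (n - l) ^ c := by rw [h3]; ring
      _ ≤ l ^ c * n.choose l := h1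
      _ = l ^ M * n.choose l * l ^ (c - M) := by rw [h4]; ring
      _ ≤ l ^ M * n.choose l * (n - l) ^ (c - M) := Nat.mul_le_mul_left _ h5

/-- For every input, few `l`-subsets of the names decode. -/
theorem few_sets [Fintype V] (x : Inp k V) (T M l : ℕ)
    (F : List (Finset (Fct k V))) (hF : ∀ t ∈ F, t.card ≤ T) (hl : 2 * l ≤ Fintype.card V) :
    ((Finset.univ.filter (fun A : Finset V => A.card = l ∧
        ∃ I ⊆ A, I ∈ dec x F (A \ I) M)).card) * (Fintype.card V - l) ^ M ≤
      (2 * T * M + 1) * 4 ^ (T * M) * l ^ M * (Fintype.card V).choose l := by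
  classical
  have hcov : (Finset.univ.filter (fun A : Finset V => A.card = l ∧
        ∃ I ⊆ A, I ∈ dec x F (A \ I) M)) ⊆
      ((Finset.range (2 * T * M + 1)).filter (fun c => M ≤ c ∧ c ≤ l)).biUnion
        (fun c => (Finset.powersetCard (l - c) (Finset.univ : Finset V)).biUnion
          (fun A' => (dec x F A' M).image (fun I => A' ∪ I))) := by
    intro A hA
    rw [Finset.mem_filter] at hA
    obtain ⟨_, hAl, I, hIA, hI⟩ := hA
    obtain ⟨h1, h2, h3⟩ := dec_prop x T F hF _ M I hI
    have h4 := Finset.card_le_card hIA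
    have h5 : (A \ I).card = l - I.card := by
      rw [Finset.card_sdiff_of_subset hIA, hAl]
    rw [Finset.mem_biUnion]
    refine ⟨I.card, ?_, ?_⟩
    · rw [Finset.mem_filter, Finset.mem_range]
      omega
    · rw [Finset.mem_biUnion]
      refine ⟨A \ I, ?_, ?_⟩
      · rw [Finset.mem_powersetCard]
        exact ⟨Finset.subset_univ _, h5⟩
      · rw [Finset.mem_image]
        exact ⟨I, hI, Finset.sdiff_union_of_subset hIA⟩
  have hcard : ∀ c, ((Finset.powersetCard (l - c) (Finset.univ : Finset V)).biUnion
          (fun A' => (dec x F A' M).image (fun I => A' ∪ I))).card ≤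
      (Fintype.card V).choose (l - c) * 4 ^ (T * M) := by
    intro c
    calc _ ≤ ∑ A' ∈ Finset.powersetCard (l - c) (Finset.univ : Finset V),
          ((dec x F A' M).image (fun I => A' ∪ I)).card := Finset.card_biUnion_le
      _ ≤ ∑ A' ∈ Finset.powersetCard (l - c) (Finset.univ : Finset V), 4 ^ (T * M) :=
          Finset.sum_le_sum fun A' _ => Finset.card_image_le.trans (dec_card x T F hF A' M)
      _ = (Fintype.card V).choose (l - c) * 4 ^ (T * M) := by
          rw [Finset.sum_const, smul_eq_mul, Finset.card_powersetCard, Finset.card_univ]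
  calc _ ≤ (((Finset.range (2 * T * M + 1)).filter (fun c => M ≤ c ∧ c ≤ l)).biUnion
        (fun c => (Finset.powersetCard (l - c) (Finset.univ : Finset V)).biUnion
          (fun A' => (dec x F A' M).image (fun I => A' ∪ I)))).card *
            (Fintype.card V - l) ^ M := Nat.mul_le_mul_right _ (Finset.card_le_card hcov)
    _ ≤ (∑ c ∈ (Finset.range (2 * T * M + 1)).filter (fun c => M ≤ c ∧ c ≤ l),
          (Fintype.card V).choose (l - c) * 4 ^ (T * M)) * (Fintype.card V - l) ^ M := by
        apply Nat.mul_le_mul_right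
        exact Finset.card_biUnion_le.trans (Finset.sum_le_sum fun c _ => hcard c)
    _ = ∑ c ∈ (Finset.range (2 * T * M + 1)).filter (fun c => M ≤ c ∧ c ≤ l),
          4 ^ (T * M) * ((Fintype.card V).choose (l - c) * (Fintype.card V - l) ^ M) := by
        rw [Finset.sum_mul]
        apply Finset.sum_congr rfl
        intro c _
        ring
    _ ≤ ∑ c ∈ (Finset.range (2 * T * M + 1)).filter (fun c => M ≤ c ∧ c ≤ l),
          4 ^ (T * M) * (l ^ M * (Fintype.card V).choose l) := by
        apply Finset.sum_le_sum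
        intro c hc
        rw [Finset.mem_filter] at hc
        exact Nat.mul_le_mul_left _ (choose_bound _ l c M hc.2.1 hc.2.2 hl)
    _ ≤ ∑ c ∈ Finset.range (2 * T * M + 1),
          4 ^ (T * M) * (l ^ M * (Fintype.card V).choose l) :=
        Finset.sum_le_sum_of_subset (Finset.filter_subset _ _)
    _ = (2 * T * M + 1) * 4 ^ (T * M) * l ^ M * (Fintype.card V).choose l := by
        rw [Finset.sum_const, smul_eq_mul, Finset.card_range]
        ring

/-- the renaming of an input -/
private def ren (π : Equiv.Perm V) (x : Inp k V) : Inp k V := (fun i => π.trans (x.1 i), x.2)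

private theorem ren_symm (π : Equiv.Perm V) (x : Inp k V) : ren π.symm (ren π x) = x := by
  unfold ren
  apply Prod.ext
  · funext i
    ext j
    simp
  · rfl

private theorem good_ren (x : Inp k V) (π : Equiv.Perm V) (F : List (Finset (Fct k V)))
    (A : Finset V) (M : ℕ) :
    (∃ I ⊆ A, I ∈ dec (ren π x) F (A \ I) M) ↔
      ∃ I ⊆ A.map π.toEmbedding, I ∈ dec x F (A.map π.toEmbedding \ I) M := by
  constructor
  · rintro ⟨I, hIA, hI⟩
    refine ⟨I.map π.toEmbedding, Finset.map_subset_map.2 hIA, ?_⟩
    have h1 := (dec_rename x π F (A \ I) M I).1 hI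
    rwa [Finset.map_sdiff] at h1
  · rintro ⟨I, hIA, hI⟩
    have h0 : (I.map π.symm.toEmbedding).map π.toEmbedding = I := by
      ext a
      simp
    refine ⟨I.map π.symm.toEmbedding, ?_, ?_⟩
    · rw [← Finset.map_subset_map (f := π.toEmbedding), h0]
      exact hIA
    · apply (dec_rename x π F _ M _).2
      rw [Finset.map_sdiff, h0]
      exact hI

private theorem exists_perm_map [Fintype V] (A A' : Finset V) (h : A.card = A'.card) :
    ∃ π : Equiv.Perm V, A.map π.toEmbedding = A' := by
  have e : {x // x ∈ A} ≃ {x // x ∈ A'} := Finset.equivOfCardEq h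
  refine ⟨e.extendSubtype, ?_⟩
  apply Finset.eq_of_subset_of_card_le
  · intro a ha
    rw [Finset.mem_map] at ha
    obtain ⟨b, hb, rfl⟩ := ha
    exact e.extendSubtype_mem b hb
  · rw [Finset.card_map, h]

open Classical in
/-- Few inputs decode from a fixed set of alive names. -/
private theorem good_bound_aux [Fintype V] (T M : ℕ) (A : Finset V)
    (F : List (Finset (Fct k V))) (hF : ∀ t ∈ F, t.card ≤ T) (hl : 2 * A.card ≤ Fintype.card V) :
    ((Finset.univ.filter (fun x : Inp k V => ∃ I ⊆ A, I ∈ dec x F (A \ I) M)).card) *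
        (Fintype.card V - A.card) ^ M ≤
      (2 * T * M + 1) * 4 ^ (T * M) * A.card ^ M * Fintype.card (Inp k V) := by
  obtain ⟨l, hAl⟩ : ∃ l, l = A.card := ⟨_, rfl⟩
  obtain ⟨n, hn⟩ : ∃ n, n = Fintype.card V := ⟨_, rfl⟩
  -- the number of good inputs does not depend on the set
  have hsame : ∀ A' ∈ Finset.powersetCard l (Finset.univ : Finset V),
      (Finset.univ.filter (fun x : Inp k V => ∃ I ⊆ A', I ∈ dec x F (A' \ I) M)).card =
      (Finset.univ.filter (fun x : Inp k V => ∃ I ⊆ A, I ∈ dec x F (A \ I) M)).card := by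
    intro A' hA'
    rw [Finset.mem_powersetCard] at hA'
    obtain ⟨π, hπ⟩ := exists_perm_map A A' (by rw [hA'.2, hAl])
    apply Finset.card_nbij' (ren π) (ren π.symm)
    · intro x hx
      rw [Finset.mem_coe, Finset.mem_filter] at hx ⊢
      refine ⟨Finset.mem_univ _, ?_⟩
      rw [good_ren, hπ]
      exact hx.2
    · intro x hx
      rw [Finset.mem_coe, Finset.mem_filter] at hx ⊢
      refine ⟨Finset.mem_univ _, ?_⟩
      have h1 : ren π (ren π.symm x) = x := ren_symm π.symm x
      rw [← hπ, ← good_ren, h1]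
      exact hx.2
    · intro x _
      exact ren_symm π x
    · intro x _
      exact ren_symm π.symm x
  -- double counting
  have hdc : (n.choose l) *
      (Finset.univ.filter (fun x : Inp k V => ∃ I ⊆ A, I ∈ dec x F (A \ I) M)).card =
      ∑ x : Inp k V, (Finset.univ.filter (fun A : Finset V => A.card = l ∧
        ∃ I ⊆ A, I ∈ dec x F (A \ I) M)).card := by
    have h1 : ∑ A' ∈ Finset.powersetCard l (Finset.univ : Finset V),
        (Finset.univ.filter (fun x : Inp k V => ∃ I ⊆ A', I ∈ dec x F (A' \ I) M)).card =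
        (n.choose l) *
      (Finset.univ.filter (fun x : Inp k V => ∃ I ⊆ A, I ∈ dec x F (A \ I) M)).card := by
      rw [Finset.sum_congr rfl hsame, Finset.sum_const, smul_eq_mul, Finset.card_powersetCard,
        Finset.card_univ, hn]
    rw [← h1]
    have h2 : ∀ A' : Finset V,
        (Finset.univ.filter (fun x : Inp k V => ∃ I ⊆ A', I ∈ dec x F (A' \ I) M)).card =
        ∑ x : Inp k V, if (∃ I ⊆ A', I ∈ dec x F (A' \ I) M) then 1 else 0 := by
      intro A'
      rw [Finset.card_filter]
    rw [Finset.sum_congr rfl fun A' _ => h2 A', Finset.sum_comm]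
    apply Finset.sum_congr rfl
    intro x _
    rw [← Finset.card_filter]
    congr 1
    ext A'
    simp only [Finset.mem_filter, Finset.mem_powersetCard, Finset.subset_univ, true_and,
      Finset.mem_univ]
  have hpos : 0 < n.choose l := Nat.choose_pos (by omega)
  apply Nat.le_of_mul_le_mul_left _ hpos
  rw [← hAl] at hl ⊢
  rw [← hn] at hl ⊢
  obtain ⟨G, hG⟩ : ∃ G, G = (Finset.univ.filter
    (fun x : Inp k V => ∃ I ⊆ A, I ∈ dec x F (A \ I) M)).card := ⟨_, rfl⟩
  rw [← hG] at hdc ⊢
  calc n.choose l * (G * (n - l) ^ M)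
      = (n.choose l * G) * (n - l) ^ M := by ring
    _ = (∑ x : Inp k V, (Finset.univ.filter (fun A : Finset V => A.card = l ∧
        ∃ I ⊆ A, I ∈ dec x F (A \ I) M)).card) * (n - l) ^ M := by rw [hdc]
    _ = ∑ x : Inp k V, (Finset.univ.filter (fun A : Finset V => A.card = l ∧
        ∃ I ⊆ A, I ∈ dec x F (A \ I) M)).card * (n - l) ^ M := by rw [Finset.sum_mul]
    _ ≤ ∑ x : Inp k V, (2 * T * M + 1) * 4 ^ (T * M) * l ^ M * n.choose l := by
        apply Finset.sum_le_sum
        intro x _
        have := few_sets x T M l F hF (by rw [← hn]; exact hl)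
        rw [← hn] at this
        convert this using 3
    _ = n.choose l * ((2 * T * M + 1) * 4 ^ (T * M) * l ^ M * Fintype.card (Inp k V)) := by
        rw [Finset.sum_const, smul_eq_mul, Finset.card_univ]
        ring

/-- Few inputs decode from a fixed set of alive names. -/
theorem good_bound [Fintype V] (T M : ℕ) (A : Finset V)
    (F : List (Finset (Fct k V))) (hF : ∀ t ∈ F, t.card ≤ T) (hl : 2 * A.card ≤ Fintype.card V) :
    ((Finset.univ.filter (fun x : Inp k V => ∃ I ⊆ A, I ∈ dec x F (A \ I) M)).card) *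
        (Fintype.card V - A.card) ^ M ≤
      (2 * T * M + 1) * 4 ^ (T * M) * A.card ^ M * Fintype.card (Inp k V) := by
  convert good_bound_aux T M A F hF hl using 3

end Pool.Agent.ACP
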