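import Pool.Agent.ACP.Core
import Pool.Agent.ACP.Few

/-!
# The one-stage claim: bad restrictions are rare
-/

set_option linter.unusedVariables false

namespace Pool.Agent.ACP

variable {k : ℕ} {V W Z : Type} [DecidableEq V] [DecidableEq W]
  [DecidableEq Z]

open Classical in
private theorem claim_sum [Fintype V] [Fintype W] [Fintype Z] (e : W ⊕ Z ≃ V)
    (D : Inp k V → Prop) :
    (∑ ρ : Rho k V Z, (Finset.univ.filter (fun x : Inp k W => D (Phi e ρ x))).card) *
        Fintype.card (Inp k V) =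
      Fintype.card (Rho k V Z) * Fintype.card (Inp k W) *
        (Finset.univ.filter (fun x : Inp k V => D x)).card := by
  have h := phi_unif (k := k) e (fun x => if D x then (1 : ℝ) else 0)
  have h1 : ∀ ρ : Rho k V Z, (∑ x : Inp k W, (if D (Phi e ρ x) then (1 : ℝ) else 0)) =
      ((Finset.univ.filter (fun x : Inp k W => D (Phi e ρ x))).card : ℝ) := by
    intro ρ
    rw [Finset.sum_boole]
  have h2 : (∑ x : Inp k V, (if D x then (1 : ℝ) else 0)) =
      ((Finset.univ.filter (fun x : Inp k V => D x)).card : ℝ) := by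
    rw [Finset.sum_boole]
  rw [h2, Finset.sum_congr rfl (fun ρ _ => h1 ρ)] at h
  exact_mod_cast h

open Classical in
theorem claim [Fintype V] [Fintype W] [Fintype Z] (e : W ⊕ Z ≃ V) (T M : ℕ)
    (F : List (Finset (Fct k V))) (hF : ∀ t ∈ F, t.card ≤ T)
    (hW : 2 * T * M ≤ Fintype.card W) (hWV : 2 * Fintype.card W ≤ Fintype.card V) :
    (Finset.univ.filter (fun ρ : Rho k V Z => Bad e ρ F ∅ M)).card *
        (Fintype.card V - Fintype.card W) ^ M ≤
      (2 * Fintype.card W) ^ (2 * T * M) * ((2 * T * M + 1) * 4 ^ (T * M) *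
        Fintype.card W ^ M * Fintype.card (Rho k V Z)) := by
  set A : Finset V := Finset.univ.image (fun w => e (Sum.inl w)) with hA
  have hAc : A.card = Fintype.card W := by
    rw [hA, Finset.card_image_of_injective _ (fun a b h => Sum.inl.inj (e.injective h)),
      Finset.card_univ]
  let D : Inp k V → Prop := fun x => ∃ I ⊆ A, I ∈ dec x F (A \ I) M
  set B := Finset.univ.filter (fun ρ : Rho k V Z => Bad e ρ F ∅ M) with hB
  set S := ∑ ρ : Rho k V Z, (Finset.univ.filter (fun x : Inp k W => D (Phi e ρ x))).card with hS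
  set G := (Finset.univ.filter (fun x : Inp k V => D x)).card with hG
  have hs : S * Fintype.card (Inp k V) =
      Fintype.card (Rho k V Z) * Fintype.card (Inp k W) * G := by
    have h := claim_sum (k := k) e D
    rw [hS, hG]
    convert h
  have h1 : B.card * Fintype.card (Inp k W) ≤ (2 * Fintype.card W) ^ (2 * T * M) * S := by
    rw [hS, Finset.mul_sum, ← smul_eq_mul (B.card), ← Finset.sum_const]
    refine le_trans (Finset.sum_le_sum (fun ρ hρ => ?_))
      (Finset.sum_le_sum_of_subset (Finset.subset_univ B))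
    have hb : Bad e ρ F ∅ M := by
      rw [hB, Finset.mem_filter] at hρ
      exact hρ.2
    exact core e ρ T M F hF hW hb
  have h2 : G * (Fintype.card V - Fintype.card W) ^ M ≤
      (2 * T * M + 1) * 4 ^ (T * M) * Fintype.card W ^ M * Fintype.card (Inp k V) := by
    have h := good_bound (k := k) T M A F hF (by rw [hAc]; exact hWV)
    rw [hAc] at h
    exact h
  have hpV : 0 < Fintype.card (Inp k V) :=
    Fintype.card_pos_iff.2 ⟨(fun _ => Equiv.refl V, fun _ _ => false)⟩
  have hpW : 0 < Fintype.card (Inp k W) :=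
    Fintype.card_pos_iff.2 ⟨(fun _ => Equiv.refl W, fun _ _ => false)⟩
  have hp : 0 < Fintype.card (Inp k W) * Fintype.card (Inp k V) := Nat.mul_pos hpW hpV
  refine Nat.le_of_mul_le_mul_right ?_ hp
  calc B.card * (Fintype.card V - Fintype.card W) ^ M *
        (Fintype.card (Inp k W) * Fintype.card (Inp k V))
      = (B.card * Fintype.card (Inp k W)) *
          (Fintype.card (Inp k V) * (Fintype.card V - Fintype.card W) ^ M) := by ring
    _ ≤ ((2 * Fintype.card W) ^ (2 * T * M) * S) *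
          (Fintype.card (Inp k V) * (Fintype.card V - Fintype.card W) ^ M) :=
        Nat.mul_le_mul_right _ h1
    _ = (2 * Fintype.card W) ^ (2 * T * M) * (S * Fintype.card (Inp k V)) *
          (Fintype.card V - Fintype.card W) ^ M := by ring
    _ = (2 * Fintype.card W) ^ (2 * T * M) *
          (Fintype.card (Rho k V Z) * Fintype.card (Inp k W)) *
          (G * (Fintype.card V - Fintype.card W) ^ M) := by rw [hs]; ring
    _ ≤ (2 * Fintype.card W) ^ (2 * T * M) *
          (Fintype.card (Rho k V Z) * Fintype.card (Inp k W)) *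
          ((2 * T * M + 1) * 4 ^ (T * M) * Fintype.card W ^ M * Fintype.card (Inp k V)) :=
        Nat.mul_le_mul_left _ h2
    _ = (2 * Fintype.card W) ^ (2 * T * M) * ((2 * T * M + 1) * 4 ^ (T * M) *
        Fintype.card W ^ M * Fintype.card (Rho k V Z)) *
        (Fintype.card (Inp k W) * Fintype.card (Inp k V)) := by ring

private theorem claim_num (T M l n : ℕ) (hM : 1 ≤ M) (hl : 4 * 2 ^ (8 * T) * (4 * T * M + 1) ≤ l)
    (hn : l ^ (4 * T + 4) ≤ n) (h2 : n ≤ 2 * (n - l)) :
    (2 * l) ^ (2 * T * (2 * M)) * ((2 * T * (2 * M) + 1) * 4 ^ (T * (2 * M)) * l ^ (2 * M)) *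
      n ^ M ≤ (n - l) ^ (2 * M) := by
  have hl1 : 1 ≤ l := by
    refine le_trans ?_ hl
    have : 0 < 4 * 2 ^ (8 * T) * (4 * T * M + 1) := by positivity
    exact this
  have h3 : n ^ (2 * M) ≤ 4 ^ M * (n - l) ^ (2 * M) := by
    calc n ^ (2 * M) ≤ (2 * (n - l)) ^ (2 * M) := Nat.pow_le_pow_left h2 _
      _ = 4 ^ M * (n - l) ^ (2 * M) := by
          rw [mul_pow, pow_mul 2 2 M]; norm_num
  have h4 : 4 ^ M * (2 ^ (8 * T)) ^ M * (4 * T * M + 1) ≤ l ^ (2 * M) := by
    calc 4 ^ M * (2 ^ (8 * T)) ^ M * (4 * T * M + 1)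
        ≤ 4 ^ M * (2 ^ (8 * T)) ^ M * (4 * T * M + 1) ^ M :=
          Nat.mul_le_mul_left _ (Nat.le_self_pow (by omega) _)
      _ = (4 * 2 ^ (8 * T) * (4 * T * M + 1)) ^ M := by rw [mul_pow, mul_pow]
      _ ≤ l ^ M := Nat.pow_le_pow_left hl _
      _ ≤ l ^ (2 * M) := Nat.pow_le_pow_right hl1 (by omega)
  have h5 : l ^ ((4 * T + 4) * M) ≤ n ^ M := by
    rw [pow_mul]
    exact Nat.pow_le_pow_left hn _
  have h6 : 4 ^ M * ((2 * l) ^ (2 * T * (2 * M)) *
      ((2 * T * (2 * M) + 1) * 4 ^ (T * (2 * M)) * l ^ (2 * M))) ≤ n ^ M := by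
    refine le_trans ?_ h5
    calc 4 ^ M * ((2 * l) ^ (2 * T * (2 * M)) *
          ((2 * T * (2 * M) + 1) * 4 ^ (T * (2 * M)) * l ^ (2 * M)))
        = (4 ^ M * (2 ^ (8 * T)) ^ M * (4 * T * M + 1)) * l ^ (4 * T * M + 2 * M) := by
          have e1 : (2 : ℕ) ^ (2 * T * (2 * M)) * 4 ^ (T * (2 * M)) = (2 ^ (8 * T)) ^ M := by
            rw [show (4 : ℕ) = 2 ^ 2 by norm_num, ← pow_mul, ← pow_add, ← pow_mul]
            congr 1
            ring
          have e2 : l ^ (2 * T * (2 * M)) * l ^ (2 * M) = l ^ (4 * T * M + 2 * M) := by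
            rw [← pow_add]
            congr 1
            ring
          rw [← e1, ← e2, mul_pow]
          ring
      _ ≤ l ^ (2 * M) * l ^ (4 * T * M + 2 * M) := Nat.mul_le_mul_right _ h4
      _ = l ^ ((4 * T + 4) * M) := by
          rw [← pow_add]
          congr 1
          ring
  have h7 : 4 ^ M * ((2 * l) ^ (2 * T * (2 * M)) *
      ((2 * T * (2 * M) + 1) * 4 ^ (T * (2 * M)) * l ^ (2 * M)) * n ^ M) ≤
      4 ^ M * (n - l) ^ (2 * M) := by
    refine le_trans ?_ h3
    calc 4 ^ M * ((2 * l) ^ (2 * T * (2 * M)) *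
          ((2 * T * (2 * M) + 1) * 4 ^ (T * (2 * M)) * l ^ (2 * M)) * n ^ M)
        = 4 ^ M * ((2 * l) ^ (2 * T * (2 * M)) *
          ((2 * T * (2 * M) + 1) * 4 ^ (T * (2 * M)) * l ^ (2 * M))) * n ^ M := by ring
      _ ≤ n ^ M * n ^ M := Nat.mul_le_mul_right _ h6
      _ = n ^ (2 * M) := by rw [← pow_add]; congr 1; ring
  exact Nat.le_of_mul_le_mul_left h7 (by positivity)

open Classical in
theorem claim_pow (T M : ℕ) : ∃ l₀ : ℕ, ∀ (k : ℕ) (V W Z : Type) [Fintype V] [Fintype W]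
    [Fintype Z] [DecidableEq V] [DecidableEq W] [DecidableEq Z] (e : W ⊕ Z ≃ V), l₀ ≤ Fintype.card W →
    Fintype.card W ^ (4 * T + 4) ≤ Fintype.card V →
    ∀ F : List (Finset (Fct k V)), (∀ t ∈ F, t.card ≤ T) →
    (Finset.univ.filter (fun ρ : Rho k V Z => Bad e ρ F ∅ (2 * M))).card *
      Fintype.card V ^ M ≤ Fintype.card (Rho k V Z) := by
  refine ⟨4 * 2 ^ (8 * T) * (4 * T * M + 1), ?_⟩
  intro k V W Z _ _ _ _ _ _ e hl hn F hF
  rcases Nat.eq_zero_or_pos M with hM | hM
  · subst hM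
    rw [pow_zero, mul_one]
    exact Finset.card_filter_le _ _
  set l := Fintype.card W with hldef
  set n := Fintype.card V with hndef
  have h2T : 1 ≤ 2 ^ (8 * T) := Nat.one_le_two_pow
  have hl4 : 4 * (4 * T * M + 1) ≤ l := by
    refine le_trans ?_ hl
    calc 4 * (4 * T * M + 1) = 4 * 1 * (4 * T * M + 1) := by ring
      _ ≤ 4 * 2 ^ (8 * T) * (4 * T * M + 1) :=
        Nat.mul_le_mul_right _ (Nat.mul_le_mul_left _ h2T)
  have hlT : 2 * T * (2 * M) ≤ l := by
    have : 2 * T * (2 * M) = 4 * T * M := by ring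
    rw [this]
    omega
  have hl2 : 4 ≤ l := by
    have : 1 ≤ 4 * T * M + 1 := Nat.le_add_left _ _
    omega
  have hll : l * l ≤ n := by
    refine le_trans ?_ hn
    calc l * l = l ^ 2 := by ring
      _ ≤ l ^ (4 * T + 4) := Nat.pow_le_pow_right (by omega) (by omega)
  have h2l : 2 * l ≤ n := by
    refine le_trans ?_ hll
    exact Nat.mul_le_mul_right _ (by omega)
  have hc := claim (k := k) e T (2 * M) F hF hlT h2l
  rw [← hldef, ← hndef] at hc
  have hnum := claim_num T M l n hM hl hn (by omega)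
  set b := (Finset.univ.filter (fun ρ : Rho k V Z => Bad e ρ F ∅ (2 * M))).card with hb
  have hpos : 0 < (n - l) ^ (2 * M) := by
    have : 0 < n - l := by omega
    positivity
  refine Nat.le_of_mul_le_mul_right ?_ hpos
  calc b * n ^ M * (n - l) ^ (2 * M) = (b * (n - l) ^ (2 * M)) * n ^ M := by ring
    _ ≤ ((2 * l) ^ (2 * T * (2 * M)) * ((2 * T * (2 * M) + 1) * 4 ^ (T * (2 * M)) *
        l ^ (2 * M) * Fintype.card (Rho k V Z))) * n ^ M := Nat.mul_le_mul_right _ hc
    _ = Fintype.card (Rho k V Z) * ((2 * l) ^ (2 * T * (2 * M)) *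
        ((2 * T * (2 * M) + 1) * 4 ^ (T * (2 * M)) * l ^ (2 * M)) * n ^ M) := by ring
    _ ≤ Fintype.card (Rho k V Z) * (n - l) ^ (2 * M) := Nat.mul_le_mul_left _ hnum

end Pool.Agent.ACP
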