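import Pool.Agent.ACP.Restr

/-!
# A restriction that is not bad makes the DNF a table of DNFs with shorter terms
-/

set_option linter.unusedVariables false

namespace Pool.Agent.ACP

variable {k : ℕ} {V W Z : Type}

private theorem tb_slots_card [DecidableEq V] (t : Finset (Fct k V)) :
    (slots t).card ≤ 2 * t.card := by
  unfold slots
  rw [mul_comm]
  refine Finset.card_biUnion_le_card_mul _ _ _ (fun φ _ => ?_)
  cases φ with
  | edge i u v => exact Finset.card_le_two
  | lab i u b => simp [Fct.slots]

private theorem tb_alv [DecidableEq V] (e : W ⊕ Z ≃ V) (ρ : Rho k V Z) (t : Finset (Fct k V))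
    (p : Fin (k + 1) × V) : p ∈ alv e ρ t ↔
      p ∈ slots t ∧ ∃ w, (ρ.1 p.1).symm p.2 = e (Sum.inl w) := by
  classical
  unfold alv
  rw [Finset.mem_filter]

/-- A list that is not bad has a constantly true term or a small hitting set of alive slots. -/
private theorem tb_hit [DecidableEq V] (e : W ⊕ Z ≃ V) (ρ : Rho k V Z) (T : ℕ) :
    ∀ (F : List (Finset (Fct k V))) (H : Finset (Fin (k + 1) × V)) (M : ℕ),
    (∀ t ∈ F, t.card ≤ T + 1) → ¬ Bad e ρ F H M →
    (∃ t ∈ F, Poss e ρ t ∧ alv e ρ t = ∅) ∨
    ∃ H' : Finset (Fin (k + 1) × V), H ⊆ H' ∧ H'.card ≤ H.card + 2 * (T + 1) * M ∧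
      ∀ t ∈ F, Poss e ρ t → ¬ Disjoint (alv e ρ t) H' := by
  classical
  intro F
  induction F with
  | nil =>
    intro H M _ hb
    cases M with
    | zero => exact absurd (by simp [Bad]) hb
    | succ M => exact Or.inr ⟨H, subset_rfl, by omega, by simp⟩
  | cons t F ih =>
    intro H M hF hb
    cases M with
    | zero => exact absurd (by simp [Bad]) hb
    | succ M =>
      have hF' : ∀ t' ∈ F, t'.card ≤ T + 1 := fun t' h => hF t' (List.mem_cons_of_mem _ h)
      by_cases hP : Poss e ρ t
      · by_cases ha : alv e ρ t = ∅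
        · exact Or.inl ⟨t, List.mem_cons_self, hP, ha⟩
        · by_cases hd : Disjoint (alv e ρ t) H
          · have hb' : ¬ Bad e ρ F (H ∪ alv e ρ t) M := by
              intro h
              exact hb (by simp only [Bad, if_pos hP, if_neg ha, if_pos hd]; exact h)
            rcases ih (H ∪ alv e ρ t) M hF' hb' with ⟨t', ht', h⟩ | ⟨H', h1, h2, h3⟩
            · exact Or.inl ⟨t', List.mem_cons_of_mem _ ht', h⟩
            · right
              refine ⟨H', Finset.union_subset_left h1, ?_, ?_⟩
              · have c1 : (H ∪ alv e ρ t).card ≤ H.card + (alv e ρ t).card :=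
                  Finset.card_union_le _ _
                have c2 : (alv e ρ t).card ≤ (slots t).card := Finset.card_filter_le _ _
                have c3 := tb_slots_card t
                have c4 := hF t List.mem_cons_self
                have : 2 * (T + 1) * (M + 1) = 2 * (T + 1) * M + 2 * (T + 1) := by ring
                omega
              · intro t' ht' hP'
                rcases List.mem_cons.1 ht' with rfl | ht'
                · intro hdd
                  have : alv e ρ t' ⊆ H' := Finset.union_subset_right h1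
                  exact ha (Finset.disjoint_self_iff_empty _ |>.1
                    (Finset.disjoint_of_subset_right this hdd))
                · exact h3 t' ht' hP'
          · have hb' : ¬ Bad e ρ F H (M + 1) := by
              intro h
              exact hb (by simp only [Bad, if_pos hP, if_neg ha, if_neg hd]; exact h)
            rcases ih H (M + 1) hF' hb' with ⟨t', ht', h⟩ | ⟨H', h1, h2, h3⟩
            · exact Or.inl ⟨t', List.mem_cons_of_mem _ ht', h⟩
            · right
              refine ⟨H', h1, h2, ?_⟩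
              intro t' ht' hP'
              rcases List.mem_cons.1 ht' with rfl | ht'
              · intro hdd
                exact hd (Finset.disjoint_of_subset_right h1 hdd)
              · exact h3 t' ht' hP'
      · have hb' : ¬ Bad e ρ F H (M + 1) := by
          intro h
          exact hb (by simp only [Bad, if_neg hP]; exact h)
        rcases ih H (M + 1) hF' hb' with ⟨t', ht', h⟩ | ⟨H', h1, h2, h3⟩
        · exact Or.inl ⟨t', List.mem_cons_of_mem _ ht', h⟩
        · right
          refine ⟨H', h1, h2, ?_⟩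
          intro t' ht' hP'
          rcases List.mem_cons.1 ht' with rfl | ht'
          · exact absurd hP' hP
          · exact h3 t' ht' hP'

/-- The queries at one alive slot. -/
private def tbQ (p : Fin (k + 1) × W) : List (Qry k W) :=
  [Qry.lab p.1 p.2] ++ ((if h : p.1.val < k then [Qry.out ⟨p.1.val, h⟩ p.2] else []) ++
    (if h : 0 < p.1.val then [Qry.inn ⟨p.1.val - 1, by omega⟩ p.2] else []))

private theorem tbQ_len (p : Fin (k + 1) × W) : (tbQ p).length ≤ 3 := by
  unfold tbQ
  split_ifs <;> simp

private theorem tbQ_lab (i : Fin (k + 1)) (w : W) : Qry.lab i w ∈ tbQ (i, w) := by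
  simp [tbQ]

private theorem tbQ_out (i : Fin k) (w : W) : Qry.out i w ∈ tbQ (i.castSucc, w) := by
  simp [tbQ]

private theorem tbQ_inn (i : Fin k) (w : W) : Qry.inn i w ∈ tbQ (i.succ, w) := by
  simp [tbQ]

open Classical in
/-- The residual fact of a fact between alive slots outside `Hw`. -/
private noncomputable def resF (e : W ⊕ Z ≃ V) (ρ : Rho k V Z) (Hw : Finset (Fin (k + 1) × W)) :
    Fct k V → Option (Fct k W)
  | Fct.edge i u v =>
    match e.symm ((ρ.1 i.castSucc).symm u), e.symm ((ρ.1 i.succ).symm v) with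
    | Sum.inl w, Sum.inl w' =>
      if (i.castSucc, w) ∈ Hw ∨ (i.succ, w') ∈ Hw then none else some (Fct.edge i w w')
    | Sum.inl _, Sum.inr _ => none
    | Sum.inr _, Sum.inl _ => none
    | Sum.inr _, Sum.inr _ => none
  | Fct.lab i u b =>
    match e.symm ((ρ.1 i).symm u) with
    | Sum.inl w => if (i, w) ∈ Hw then none else some (Fct.lab i w b)
    | Sum.inr _ => none

private theorem tb_inl {e : W ⊕ Z ≃ V} {v : V} {w : W} (h : e.symm v = Sum.inl w) :
    v = e (Sum.inl w) := by rw [← h]; simp

private theorem tb_inr {e : W ⊕ Z ≃ V} {v : V} {z : Z} (h : e.symm v = Sum.inr z) :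
    v = e (Sum.inr z) := by rw [← h]; simp

/-- A fact with a residual fact is equivalent to it. -/
private theorem resF_some (e : W ⊕ Z ≃ V) (ρ : Rho k V Z) (Hw : Finset (Fin (k + 1) × W))
    (φ : Fct k V) (ψ : Fct k W) (h : resF e ρ Hw φ = some ψ) (x : Inp k W) :
    φ.holds (Phi e ρ x) ↔ ψ.holds x := by
  classical
  cases φ with
  | edge i u v =>
    simp only [resF] at h
    rcases h1 : e.symm ((ρ.1 i.castSucc).symm u) with w | z
    · rcases h2 : e.symm ((ρ.1 i.succ).symm v) with w' | z'
      · rw [h1, h2] at h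
        simp only at h
        split_ifs at h
        simp only [Option.some.injEq] at h
        subst h
        simp only [Fct.holds]
        rw [phi_symm_inl e ρ x _ u w (tb_inl h1), phi_symm_inl e ρ x _ v w' (tb_inl h2)]
        simp
      · rw [h1, h2] at h
        simp at h
    · rcases h2 : e.symm ((ρ.1 i.succ).symm v) with w' | z'
      · rw [h1, h2] at h
        simp at h
      · rw [h1, h2] at h
        simp at h
  | lab i u b =>
    simp only [resF] at h
    rcases h1 : e.symm ((ρ.1 i).symm u) with w | z
    · rw [h1] at h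
      simp only at h
      split_ifs at h
      simp only [Option.some.injEq] at h
      subst h
      simp only [Fct.holds]
      rw [phi_lab_inl e ρ x _ u w (tb_inl h1)]
    · rw [h1] at h
      simp at h

/-- A fact without a residual fact is decided by the answers to the queries at `Hw`. -/
private theorem resF_none (e : W ⊕ Z ≃ V) (ρ : Rho k V Z) (Hw : Finset (Fin (k + 1) × W))
    (φ : Fct k V) (h : resF e ρ Hw φ = none) (x y : Inp k W)
    (hxy : ∀ p ∈ Hw, ∀ q ∈ tbQ p, ans x q = ans y q) :
    φ.holds (Phi e ρ x) ↔ φ.holds (Phi e ρ y) := by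
  classical
  cases φ with
  | edge i u v =>
    simp only [resF] at h
    simp only [Fct.holds]
    rcases h1 : e.symm ((ρ.1 i.castSucc).symm u) with w | z
    · rcases h2 : e.symm ((ρ.1 i.succ).symm v) with w' | z'
      · rw [h1, h2] at h
        simp only at h
        rw [phi_symm_inl e ρ x _ u w (tb_inl h1), phi_symm_inl e ρ x _ v w' (tb_inl h2),
          phi_symm_inl e ρ y _ u w (tb_inl h1), phi_symm_inl e ρ y _ v w' (tb_inl h2)]
        simp only [EmbeddingLike.apply_eq_iff_eq, Sum.inl.injEq]
        have hH : (i.castSucc, w) ∈ Hw ∨ (i.succ, w') ∈ Hw := by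
          by_contra hc
          rw [if_neg hc] at h
          exact absurd h (by simp)
        rcases hH with hH | hH
        · have := hxy _ hH _ (tbQ_out i w)
          simp only [ans, Sum.inl.injEq] at this
          rw [Equiv.eq_symm_apply, Equiv.eq_symm_apply, this]
        · have := hxy _ hH _ (tbQ_inn i w')
          simp only [ans, Sum.inl.injEq] at this
          rw [Equiv.symm_apply_eq, Equiv.symm_apply_eq, this]
      · rw [phi_symm_inl e ρ x _ u w (tb_inl h1), phi_symm_inr e ρ x _ v z' (tb_inr h2),
          phi_symm_inl e ρ y _ u w (tb_inl h1), phi_symm_inr e ρ y _ v z' (tb_inr h2)]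
        simp
    · rcases h2 : e.symm ((ρ.1 i.succ).symm v) with w' | z'
      · rw [phi_symm_inr e ρ x _ u z (tb_inr h1), phi_symm_inl e ρ x _ v w' (tb_inl h2),
          phi_symm_inr e ρ y _ u z (tb_inr h1), phi_symm_inl e ρ y _ v w' (tb_inl h2)]
        simp
      · rw [phi_symm_inr e ρ x _ u z (tb_inr h1), phi_symm_inr e ρ x _ v z' (tb_inr h2),
          phi_symm_inr e ρ y _ u z (tb_inr h1), phi_symm_inr e ρ y _ v z' (tb_inr h2)]
  | lab i u b =>
    simp only [resF] at h
    simp only [Fct.holds]
    rcases h1 : e.symm ((ρ.1 i).symm u) with w | z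
    · rw [h1] at h
      simp only at h
      have hH : (i, w) ∈ Hw := by
        by_contra hc
        rw [if_neg hc] at h
        exact absurd h (by simp)
      have := hxy _ hH _ (tbQ_lab i w)
      simp only [ans, Sum.inr.injEq] at this
      rw [phi_lab_inl e ρ x _ u w (tb_inl h1), phi_lab_inl e ρ y _ u w (tb_inl h1), this]
    · rw [phi_lab_inr e ρ x _ u z (tb_inr h1), phi_lab_inr e ρ y _ u z (tb_inr h1)]

/-- A fact that touches an alive slot in `Hw`, or a dead slot, has no residual fact. -/
private theorem resF_touch [DecidableEq V] (e : W ⊕ Z ≃ V) (ρ : Rho k V Z)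
    (Hw : Finset (Fin (k + 1) × W))
    (φ : Fct k V) (p : Fin (k + 1) × V) (hp : p ∈ φ.slots)
    (h : ∀ w, (ρ.1 p.1).symm p.2 = e (Sum.inl w) → (p.1, w) ∈ Hw) :
    resF e ρ Hw φ = none := by
  classical
  cases φ with
  | edge i u v =>
    simp only [Fct.slots, Finset.mem_insert, Finset.mem_singleton] at hp
    simp only [resF]
    rcases h1 : e.symm ((ρ.1 i.castSucc).symm u) with w | z
    · rcases h2 : e.symm ((ρ.1 i.succ).symm v) with w' | z'
      · rcases hp with rfl | rfl
        · simp [h w (tb_inl h1)]
        · simp [h w' (tb_inl h2)]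
      · rfl
    · rcases h2 : e.symm ((ρ.1 i.succ).symm v) with w' | z' <;> rfl
  | lab i u b =>
    simp only [Fct.slots, Finset.mem_singleton] at hp
    simp only [resF]
    rcases h1 : e.symm ((ρ.1 i).symm u) with w | z
    · subst hp
      simp [h w (tb_inl h1)]
    · rfl

theorem table_of_not_bad [Fintype V] [DecidableEq V] [Fintype W] [DecidableEq W] [Fintype Z]
    [DecidableEq Z] (e : W ⊕ Z ≃ V) (ρ : Rho k V Z) (T M : ℕ) (F : List (Finset (Fct k V)))
    (hF : ∀ t ∈ F, t.card ≤ T + 1) (hb : ¬ Bad e ρ F ∅ M) :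
    ∃ (qs : List (Qry k W)) (G : List (W ⊕ Bool) → List (Finset (Fct k W))),
      qs.length ≤ 6 * (T + 1) * M ∧ (∀ α, ∀ t ∈ G α, t.card ≤ T) ∧
      ∀ x : Inp k W, dnf F (Phi e ρ x) ↔ dnf (G (qs.map (ans x))) x := by
  classical
  rcases tb_hit e ρ T F ∅ M hF hb with ⟨t, ht, ⟨y, hy⟩, ha⟩ | ⟨H, -, hcard, hit⟩
  · refine ⟨[], fun _ => [∅], by simp, ?_, ?_⟩
    · intro α t ht
      simp only [List.mem_singleton] at ht
      subst ht
      simp
    · intro x
      have h1 : dnf [∅] x := ⟨∅, by simp, by intro φ hφ; simp at hφ⟩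
      have h2 : dnf F (Phi e ρ x) := by
        refine ⟨t, ht, fun φ hφ => ?_⟩
        have hne : ∃ p, p ∈ φ.slots := by
          cases φ with
          | edge i u v => exact ⟨(i.castSucc, u), by simp [Fct.slots]⟩
          | lab i u b => exact ⟨(i, u), by simp [Fct.slots]⟩
        obtain ⟨p, hp⟩ := hne
        have hdead : ∀ w, (ρ.1 p.1).symm p.2 = e (Sum.inl w) → (p.1, w) ∈
            (∅ : Finset (Fin (k + 1) × W)) := by
          intro w hw
          exfalso
          have : p ∈ alv e ρ t := by
            rw [tb_alv]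
            exact ⟨Finset.mem_biUnion.2 ⟨φ, hφ, hp⟩, w, hw⟩
          rw [ha] at this
          simp at this
        have hn := resF_touch e ρ ∅ φ p hp hdead
        exact (resF_none e ρ ∅ φ hn x y (by simp)).2 (hy φ hφ)
      exact ⟨fun _ => h1, fun _ => h2⟩
  · set Hw : Finset (Fin (k + 1) × W) :=
      Finset.univ.filter (fun p => (p.1, ρ.1 p.1 (e (Sum.inl p.2))) ∈ H) with hHw
    have hHwc : Hw.card ≤ H.card := by
      refine Finset.card_le_card_of_injOn (fun p => (p.1, ρ.1 p.1 (e (Sum.inl p.2)))) ?_ ?_
      · intro p hp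
        have := (Finset.mem_filter.1 hp).2
        exact this
      · rintro ⟨i, w⟩ _ ⟨i', w'⟩ _ h
        simp only [Prod.mk.injEq] at h
        obtain ⟨rfl, h2⟩ := h
        simp only [EmbeddingLike.apply_eq_iff_eq, Sum.inl.injEq] at h2
        rw [h2]
    have hmem : ∀ p ∈ H, ∀ w, (ρ.1 p.1).symm p.2 = e (Sum.inl w) → (p.1, w) ∈ Hw := by
      intro p hp w hw
      rw [hHw, Finset.mem_filter]
      refine ⟨Finset.mem_univ _, ?_⟩
      show (p.1, ρ.1 p.1 (e (Sum.inl w))) ∈ H
      rw [← hw]
      simpa using hp
    set qs : List (Qry k W) := Hw.toList.flatMap tbQ with hqs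
    set res : Finset (Fct k V) → Finset (Fct k W) :=
      fun t => t.biUnion (fun φ => (resF e ρ Hw φ).toFinset) with hres
    refine ⟨qs, fun α => (F.filter (fun t => decide (∃ y : Inp k W, qs.map (ans y) = α ∧
      holdsT t (Phi e ρ y)))).map res, ?_, ?_, ?_⟩
    · have : qs.length ≤ Hw.toList.length * 3 := by
        rw [hqs, List.length_flatMap]
        have : (Hw.toList.map (fun a => (tbQ a).length)).sum ≤
            (Hw.toList.map (fun a => (tbQ a).length)).length • 3 := by
          apply List.sum_le_card_nsmul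
          intro n hn
          obtain ⟨p, _, rfl⟩ := List.mem_map.1 hn
          exact tbQ_len p
        simpa using this
      rw [Finset.length_toList] at this
      simp only [Finset.card_empty, zero_add] at hcard
      have h6 : 6 * (T + 1) * M = 2 * (T + 1) * M * 3 := by ring
      omega
    · intro α t ht
      obtain ⟨t0, ht0, rfl⟩ := List.mem_map.1 ht
      rw [List.mem_filter, decide_eq_true_eq] at ht0
      obtain ⟨htF, y, -, hy⟩ := ht0
      have hnd := hit t0 htF ⟨y, hy⟩
      rw [Finset.not_disjoint_iff] at hnd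
      obtain ⟨p, hpa, hpH⟩ := hnd
      have hps : p ∈ slots t0 := ((tb_alv e ρ t0 p).1 hpa).1
      obtain ⟨φ, hφ, hpφ⟩ := Finset.mem_biUnion.1 hps
      have hn := resF_touch e ρ Hw φ p hpφ (hmem p hpH)
      have hsub : res t0 ⊆ (t0.erase φ).biUnion (fun φ => (resF e ρ Hw φ).toFinset) := by
        intro ψ hψ
        obtain ⟨φ', hφ', hψ'⟩ := Finset.mem_biUnion.1 hψ
        refine Finset.mem_biUnion.2 ⟨φ', Finset.mem_erase.2 ⟨?_, hφ'⟩, hψ'⟩
        rintro rfl
        rw [hn] at hψ'
        simp at hψ'
      calc (res t0).card ≤ _ := Finset.card_le_card hsub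
        _ ≤ (t0.erase φ).card * 1 := by
          refine Finset.card_biUnion_le_card_mul _ _ _ (fun φ' _ => ?_)
          cases h : resF e ρ Hw φ' <;> simp
        _ ≤ T := by
          rw [mul_one, Finset.card_erase_of_mem hφ]
          have := hF t0 htF
          omega
    · intro x
      have hq : ∀ y : Inp k W, qs.map (ans y) = qs.map (ans x) →
          ∀ p ∈ Hw, ∀ q ∈ tbQ p, ans x q = ans y q := by
        intro y h p hp q hq
        have hmq : q ∈ qs := by
          rw [hqs, List.mem_flatMap]
          exact ⟨p, Finset.mem_toList.2 hp, hq⟩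
        exact ((List.map_inj_left.1 h) q hmq).symm
      constructor
      · rintro ⟨t, htF, ht⟩
        refine ⟨res t, List.mem_map.2 ⟨t, List.mem_filter.2 ⟨htF, ?_⟩, rfl⟩, ?_⟩
        · rw [decide_eq_true_eq]
          exact ⟨x, rfl, ht⟩
        · intro ψ hψ
          obtain ⟨φ, hφ, hψ'⟩ := Finset.mem_biUnion.1 hψ
          rw [Option.mem_toFinset] at hψ'
          exact (resF_some e ρ Hw φ ψ hψ' x).1 (ht φ hφ)
      · rintro ⟨t', ht', hx⟩
        obtain ⟨t, ht, rfl⟩ := List.mem_map.1 ht'
        rw [List.mem_filter, decide_eq_true_eq] at ht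
        obtain ⟨htF, y, hya, hy⟩ := ht
        refine ⟨t, htF, fun φ hφ => ?_⟩
        cases h : resF e ρ Hw φ with
        | none => exact (resF_none e ρ Hw φ h x y (hq y hya)).2 (hy φ hφ)
        | some ψ =>
          refine (resF_some e ρ Hw φ ψ h x).2 (hx ψ (Finset.mem_biUnion.2 ⟨φ, hφ, ?_⟩))
          rw [Option.mem_toFinset]
          exact h

end Pool.Agent.ACP
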