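import Pool.Agent.ACP.Basic
import Pool.Agent.ACP.Claim
import Pool.Agent.ACP.Table

/-!
# DNFs with short terms collapse to shallow decision trees
-/

set_option linter.unusedVariables false

namespace Pool.Agent.ACP

private theorem cl_root (p : ℕ) (hp : 0 < p) (n : ℕ) : ∃ m, m ^ p ≤ n ∧ n < (m + 1) ^ p := by
  classical
  have h0 : (0 : ℕ) ^ p ≤ n := by simp [hp.ne']
  refine ⟨Nat.findGreatest (fun m => m ^ p ≤ n) n,
    Nat.findGreatest_spec (P := fun m => m ^ p ≤ n) (Nat.zero_le n) h0, ?_⟩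
  by_contra h
  push Not at h
  have h1 : Nat.findGreatest (fun m => m ^ p ≤ n) n + 1 ≤ n :=
    le_trans (Nat.le_self_pow hp.ne' _) h
  exact Nat.findGreatest_is_greatest (P := fun m => m ^ p ≤ n) (Nat.lt_succ_self _) h1 h

private theorem cl_m (p X : ℕ) (hp : 0 < p) : ∃ n₀, ∀ n ≥ n₀, ∃ m, X ≤ m ∧ m ^ p ≤ n ∧
    n ≤ m ^ (p + 1) := by
  refine ⟨(max X (2 ^ p)) ^ p, fun n hn => ?_⟩
  obtain ⟨m, hm, hm'⟩ := cl_root p hp n
  have h1 : max X (2 ^ p) ≤ m := by
    by_contra h
    push Not at h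
    have : (m + 1) ^ p ≤ (max X (2 ^ p)) ^ p := Nat.pow_le_pow_left h p
    omega
  have h2 : X ≤ m := le_trans (le_max_left _ _) h1
  have h3 : 2 ^ p ≤ m := le_trans (le_max_right _ _) h1
  have h4 : 1 ≤ m := le_trans Nat.one_le_two_pow h3
  refine ⟨m, h2, hm, ?_⟩
  calc n ≤ (m + 1) ^ p := hm'.le
    _ ≤ (2 * m) ^ p := Nat.pow_le_pow_left (by omega) p
    _ = 2 ^ p * m ^ p := by rw [mul_pow]
    _ ≤ m * m ^ p := Nat.mul_le_mul_right _ h3
    _ = m ^ (p + 1) := by rw [pow_succ]; ring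

private theorem cl_equiv (n m : ℕ) (hmn : m ≤ n) (j : Fin n) (j1 : Fin m) :
    ∃ e : Fin m ⊕ Fin (n - m) ≃ Fin n, e (Sum.inl j1) = j := by
  classical
  have hn : m + (n - m) = n := by omega
  set e0 : Fin m ⊕ Fin (n - m) ≃ Fin n := finSumFinEquiv.trans (finCongr hn)
  exact ⟨e0.trans (Equiv.swap (e0 (Sum.inl j1)) j), by simp⟩

open Classical in
/-- The stage for a restriction that is not bad. -/
private theorem cl_stage {k n m l T D' M e' : ℕ} {Z : Type} [Fintype Z] [DecidableEq Z]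
    (e : Fin m ⊕ Z ≃ Fin n) (ρ : Rho k (Fin n) Z) (F : List (Finset (Fct k (Fin n))))
    (hF : ∀ t ∈ F, t.card ≤ T + 1) (hb : ¬ Bad e ρ F ∅ M) (j1 : Fin m) (j' : Fin l)
    (S : Sch k (Fin m) (Fin l) j1 j')
    (hS : ∀ F : List (Finset (Fct k (Fin m))), (∀ t ∈ F, t.card ≤ T) →
        (Finset.univ.filter (fun ω : S.Ω =>
          (fun x => decide (dnf F (S.Φ ω x))) ∉ DT k (Fin l) D')).card * m ^ e' ≤
            Fintype.card S.Ω) :
    (Finset.univ.filter (fun ω : S.Ω =>
      (fun x => decide (dnf F (Phi e ρ (S.Φ ω x)))) ∉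
        DT k (Fin l) (6 * (T + 1) * M + D'))).card * m ^ e' ≤
      (m + 2) ^ (6 * (T + 1) * M) * Fintype.card S.Ω := by
  obtain ⟨qs, G, hlen, hG, hx⟩ := table_of_not_bad e ρ T M F hF hb
  set N : (Fin qs.length → Fin m ⊕ Bool) → Finset S.Ω := fun α => Finset.univ.filter
    (fun ω : S.Ω => (fun x => decide (dnf (G (List.ofFn α)) (S.Φ ω x))) ∉ DT k (Fin l) D')
    with hN
  have hsub : Finset.univ.filter (fun ω : S.Ω =>
      (fun x => decide (dnf F (Phi e ρ (S.Φ ω x)))) ∉
        DT k (Fin l) (6 * (T + 1) * M + D')) ⊆ Finset.univ.biUnion N := by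
    intro ω hω
    by_contra hc
    refine (Finset.mem_filter.1 hω).2 ?_
    have h1 : ∀ α : List (Fin m ⊕ Bool), α.length = qs.length →
        (fun x => decide (dnf (G α) (S.Φ ω x))) ∈ DT k (Fin l) D' := by
      intro α hα
      by_contra hcc
      refine hc (Finset.mem_biUnion.2 ⟨fun i => α.get (i.cast hα.symm), Finset.mem_univ _, ?_⟩)
      rw [hN, Finset.mem_filter]
      refine ⟨Finset.mem_univ _, ?_⟩
      have : List.ofFn (fun i : Fin qs.length => α.get (i.cast hα.symm)) = α := by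
        apply List.ext_get
        · simp [hα]
        · intro i h1 h2
          simp
      rw [this]
      exact hcc
    have h2 := DT_table (S.Φ ω) (S.qry ω) qs (fun α x => decide (dnf (G α) (S.Φ ω x))) h1
    have h3 : (fun x => decide (dnf F (Phi e ρ (S.Φ ω x)))) =
        (fun x => decide (dnf (G (qs.map (ans (S.Φ ω x)))) (S.Φ ω x))) := by
      funext x
      exact decide_eq_decide.2 (hx _)
    rw [h3]
    exact DT_mono (by omega) h2
  have hcard := (Finset.card_le_card hsub).trans Finset.card_biUnion_le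
  calc _ ≤ (∑ α, (N α).card) * m ^ e' := Nat.mul_le_mul_right _ hcard
    _ = ∑ α, (N α).card * m ^ e' := by rw [Finset.sum_mul]
    _ ≤ ∑ α : Fin qs.length → Fin m ⊕ Bool, Fintype.card S.Ω :=
      Finset.sum_le_sum (fun α _ => hS _ (hG _))
    _ = (m + 2) ^ qs.length * Fintype.card S.Ω := by
      rw [Finset.sum_const, Finset.card_univ, Fintype.card_fun, Fintype.card_sum]
      simp
    _ ≤ _ := Nat.mul_le_mul_right _ (Nat.pow_le_pow_right (by omega) hlen)

open Classical in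
theorem collapse (T : ℕ) : ∃ K : ℕ, ∀ e : ℕ, ∃ D n₀ : ℕ, ∀ n ≥ n₀, ∀ (k : ℕ) (j : Fin n),
    ∃ (l : ℕ) (j' : Fin l), n ≤ l ^ K ∧ ∃ S : Sch k (Fin n) (Fin l) j j',
      ∀ F : List (Finset (Fct k (Fin n))), (∀ t ∈ F, t.card ≤ T) →
        (Finset.univ.filter (fun ω : S.Ω =>
          (fun x => decide (dnf F (S.Φ ω x))) ∉ DT k (Fin l) D)).card * n ^ e ≤
            Fintype.card S.Ω := by
  induction T with
  | zero =>
    refine ⟨1, fun e => ⟨0, 0, fun n _ k j => ⟨n, j, by simp, Sch.triv k j, fun F hF => ?_⟩⟩⟩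
    have : (Finset.univ.filter (fun ω : (Sch.triv k j).Ω =>
          (fun x => decide (dnf F ((Sch.triv k j).Φ ω x))) ∉ DT k (Fin n) 0)) = ∅ := by
      rw [Finset.filter_eq_empty_iff]
      intro ω _ h
      apply h
      show ∃ b : Bool, ∀ x, decide (dnf F ((Sch.triv k j).Φ ω x)) = b
      cases F with
      | nil =>
        refine ⟨false, fun x => ?_⟩
        simp [dnf]
      | cons t F =>
        refine ⟨true, fun x => ?_⟩
        rw [decide_eq_true_eq]
        have ht : t = ∅ := by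
          have := hF t List.mem_cons_self
          rw [← Finset.card_eq_zero]
          omega
        refine ⟨t, List.mem_cons_self, ?_⟩
        rw [ht]
        intro φ hφ
        simp at hφ
    rw [this]
    simp
  | succ T ih =>
    obtain ⟨K, hK⟩ := ih
    set p := 4 * (T + 1) + 4 with hp
    refine ⟨(p + 1) * K, fun e => ?_⟩
    set r := 6 * (T + 1) * (2 * (e + 1)) with hr
    obtain ⟨D', n₁, hD'⟩ := hK (2 * r + (p + 1) * e + 1)
    obtain ⟨l₀, hl₀⟩ := claim_pow (T + 1) (e + 1)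
    obtain ⟨n₂, hn₂⟩ := cl_m p (max n₁ (max l₀ 2)) (by omega)
    refine ⟨r + D', n₂, fun n hn k j => ?_⟩
    obtain ⟨m, hm, hmn, hnm⟩ := hn₂ n hn
    have hm1 : n₁ ≤ m := le_trans (le_max_left _ _) hm
    have hm2 : l₀ ≤ m := le_trans (le_trans (le_max_left _ _) (le_max_right _ _)) hm
    have hm3 : 2 ≤ m := le_trans (le_trans (le_max_right _ _) (le_max_right _ _)) hm
    have hmn' : m ≤ n := le_trans (Nat.le_self_pow (by omega) m) hmn
    obtain ⟨l, j', hml, S2, hS2⟩ := hD' m hm1 k ⟨0, by omega⟩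
    obtain ⟨ee, hee⟩ := cl_equiv n m hmn' j ⟨0, by omega⟩
    refine ⟨l, j', ?_, (Sch.one k ee j ⟨0, by omega⟩ hee).comp S2, fun F hF => ?_⟩
    · calc n ≤ m ^ (p + 1) := hnm
        _ ≤ (l ^ K) ^ (p + 1) := Nat.pow_le_pow_left hml _
        _ = l ^ ((p + 1) * K) := by rw [← pow_mul]; ring_nf
    · have hbad := hl₀ k (Fin n) (Fin m) (Fin (n - m)) ee (by simpa using hm2)
        (by simpa using hmn) F hF
      simp only [Fintype.card_fin] at hbad
      set BF : Finset (Rho k (Fin n) (Fin (n - m))) :=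
        Finset.univ.filter (fun ρ => Bad ee ρ F ∅ (2 * (e + 1))) with hBF
      set B : Rho k (Fin n) (Fin (n - m)) → Finset S2.Ω := fun ρ =>
        Finset.univ.filter (fun ω : S2.Ω =>
          (fun x => decide (dnf F (Phi ee ρ (S2.Φ ω x)))) ∉ DT k (Fin l) (r + D')) with hB
      have hcount : (Finset.univ.filter (fun ω : ((Sch.one k ee j ⟨0, by omega⟩ hee).comp S2).Ω =>
          (fun x => decide (dnf F (((Sch.one k ee j ⟨0, by omega⟩ hee).comp S2).Φ ω x))) ∉
            DT k (Fin l) (r + D'))).card = ∑ ρ, (B ρ).card := by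
        show (Finset.univ.filter (fun ω : Rho k (Fin n) (Fin (n - m)) × S2.Ω =>
          (fun x => decide (dnf F (Phi ee ω.1 (S2.Φ ω.2 x)))) ∉
            DT k (Fin l) (r + D'))).card = _
        rw [Finset.card_filter, Fintype.sum_prod_type]
        refine Finset.sum_congr rfl (fun ρ _ => ?_)
        rw [hB, Finset.card_filter]
      rw [hcount]
      have hcΩ : Fintype.card ((Sch.one k ee j ⟨0, by omega⟩ hee).comp S2).Ω =
          Fintype.card (Rho k (Fin n) (Fin (n - m))) * Fintype.card S2.Ω :=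
        Fintype.card_prod _ _
      rw [hcΩ]
      -- the two parts
      have hgood : ∀ ρ, ρ ∉ BF → 2 * n ^ e * (B ρ).card ≤ Fintype.card S2.Ω := by
        intro ρ hρ
        have hnb : ¬ Bad ee ρ F ∅ (2 * (e + 1)) := by
          intro h
          exact hρ (by rw [hBF, Finset.mem_filter]; exact ⟨Finset.mem_univ _, h⟩)
        have h1 := cl_stage (D' := D') (e' := 2 * r + (p + 1) * e + 1) ee ρ F hF hnb
          ⟨0, by omega⟩ j' S2 hS2
        rw [← hr] at h1
        have h2 : 2 * n ^ e * (m + 2) ^ r ≤ m ^ (2 * r + (p + 1) * e + 1) := by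
          have a1 : n ^ e ≤ m ^ ((p + 1) * e) := by
            rw [pow_mul]
            exact Nat.pow_le_pow_left hnm e
          have a2 : (m + 2) ^ r ≤ m ^ (2 * r) := by
            rw [pow_mul m 2 r]
            exact Nat.pow_le_pow_left (by nlinarith) r
          calc 2 * n ^ e * (m + 2) ^ r ≤ m * m ^ ((p + 1) * e) * m ^ (2 * r) :=
                Nat.mul_le_mul (Nat.mul_le_mul hm3 a1) a2
            _ = m ^ (2 * r + (p + 1) * e + 1) := by ring
        have h3 : (0 : ℕ) < (m + 2) ^ r := by positivity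
        apply Nat.le_of_mul_le_mul_right _ h3
        calc 2 * n ^ e * (B ρ).card * (m + 2) ^ r = (B ρ).card * (2 * n ^ e * (m + 2) ^ r) := by
              ring
          _ ≤ (B ρ).card * m ^ (2 * r + (p + 1) * e + 1) := Nat.mul_le_mul_left _ h2
          _ ≤ (m + 2) ^ r * Fintype.card S2.Ω := h1
          _ = _ := by ring
      have hsplit : ∑ ρ, (B ρ).card = ∑ ρ ∈ BF, (B ρ).card + ∑ ρ ∈ BFᶜ, (B ρ).card :=
        (Finset.sum_add_sum_compl BF _).symm
      have hA : ∑ ρ ∈ BF, (B ρ).card ≤ BF.card * Fintype.card S2.Ω := by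
        rw [← smul_eq_mul, ← Finset.sum_const]
        exact Finset.sum_le_sum (fun ρ _ => Finset.card_le_univ _)
      have hA' : 2 * n ^ e * (∑ ρ ∈ BF, (B ρ).card) ≤
          Fintype.card (Rho k (Fin n) (Fin (n - m))) * Fintype.card S2.Ω := by
        calc 2 * n ^ e * (∑ ρ ∈ BF, (B ρ).card) ≤ n * n ^ e * (BF.card * Fintype.card S2.Ω) :=
              Nat.mul_le_mul (Nat.mul_le_mul_right _ (by omega)) hA
          _ = (BF.card * n ^ (e + 1)) * Fintype.card S2.Ω := by ring
          _ ≤ _ := Nat.mul_le_mul_right _ hbad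
      have hC : 2 * n ^ e * (∑ ρ ∈ BFᶜ, (B ρ).card) ≤
          Fintype.card (Rho k (Fin n) (Fin (n - m))) * Fintype.card S2.Ω := by
        rw [Finset.mul_sum]
        calc _ ≤ ∑ ρ ∈ BFᶜ, Fintype.card S2.Ω :=
              Finset.sum_le_sum (fun ρ hρ => hgood ρ (Finset.mem_compl.1 hρ))
          _ = BFᶜ.card * Fintype.card S2.Ω := by rw [Finset.sum_const, smul_eq_mul]
          _ ≤ _ := Nat.mul_le_mul_right _ (Finset.card_le_univ _)
      have hfin : 2 * ((∑ ρ, (B ρ).card) * n ^ e) ≤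
          2 * (Fintype.card (Rho k (Fin n) (Fin (n - m))) * Fintype.card S2.Ω) := by
        rw [hsplit]
        calc _ = 2 * n ^ e * (∑ ρ ∈ BF, (B ρ).card) + 2 * n ^ e * (∑ ρ ∈ BFᶜ, (B ρ).card) := by
              ring
          _ ≤ _ := by omega
      omega

end Pool.Agent.ACP
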