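import Pool.Agent.ACP.Restr

/-!
# A bad restriction has many decodable completions
-/

set_option linter.unusedVariables false
set_option linter.unusedSectionVars false

namespace Pool.Agent.ACP

variable {k : ℕ} {V W Z : Type} [DecidableEq V] [DecidableEq W]

section Core

theorem core_dec_zero (x : Inp k V) (F : List (Finset (Fct k V))) (B : Finset V) :
    dec x F B 0 = {∅} := by
  cases F <;> simp [dec]

theorem core_slots_card (t : Finset (Fct k V)) : (slots t).card ≤ 2 * t.card := by
  unfold slots
  refine (Finset.card_biUnion_le).trans ?_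
  rw [mul_comm, ← smul_eq_mul]
  refine Finset.sum_le_card_nsmul _ _ _ fun φ _ => ?_
  cases φ with
  | edge i u v => exact Finset.card_le_two
  | lab i u b => simp [Fct.slots]

/-- Adding one prescribed name and one prescribed label costs a factor `2 * card W`. -/
theorem core_step [Fintype W] (Q : Finset (Fin (k + 1) × W)) (N : Fin (k + 1) × W → W)
    (β : Fin (k + 1) × W → Bool) (p : Fin (k + 1) × W) (hp : p ∉ Q)
    (hN : ∀ q ∈ Q, q.1 = p.1 → N q ≠ N p) :
    (Finset.univ.filter (fun x : Inp k W =>
        ∀ q ∈ Q, (x.1 q.1).symm q.2 = N q ∧ x.2 q.1 q.2 = β q)).card ≤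
      (2 * Fintype.card W) * (Finset.univ.filter (fun x : Inp k W =>
        ∀ q ∈ insert p Q, (x.1 q.1).symm q.2 = N q ∧ x.2 q.1 q.2 = β q)).card := by
  classical
  have hcard : (2 * Fintype.card W) * (Finset.univ.filter (fun x : Inp k W =>
        ∀ q ∈ insert p Q, (x.1 q.1).symm q.2 = N q ∧ x.2 q.1 q.2 = β q)).card =
      ((Finset.univ : Finset (Bool × W)) ×ˢ (Finset.univ.filter (fun x : Inp k W =>
        ∀ q ∈ insert p Q, (x.1 q.1).symm q.2 = N q ∧ x.2 q.1 q.2 = β q))).card := by
    rw [Finset.card_product, Finset.card_univ, Fintype.card_prod, Fintype.card_bool]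
  rw [hcard]
  refine Finset.card_le_card_of_injOn
    (fun x => ((x.2 p.1 p.2, (x.1 p.1).symm p.2),
      (Function.update x.1 p.1 ((Equiv.swap (N p) ((x.1 p.1).symm p.2)).trans (x.1 p.1)),
        Function.update x.2 p.1 (Function.update (x.2 p.1) p.2 (β p))))) ?_ ?_
  · intro x hx
    simp only [Finset.coe_filter, Finset.mem_univ, true_and, Set.mem_ofPred_eq] at hx
    simp only [Finset.coe_product, Set.mem_prod, Finset.mem_coe, Finset.mem_univ, true_and,
      Finset.mem_filter]
    intro q hq
    rcases Finset.mem_insert.mp hq with rfl | hq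
    · simp
    · have hqp : q ≠ p := fun h => hp (h ▸ hq)
      by_cases h1 : q.1 = p.1
      · have h2 : q.2 ≠ p.2 := fun h => hqp (Prod.ext h1 h)
        have h3 := hx q hq
        have h4 := hN q hq h1
        rw [h1] at h3
        refine ⟨?_, ?_⟩
        · rw [h1]
          simp only [Function.update_self, Equiv.symm_trans_apply, Equiv.symm_swap]
          rw [h3.1]
          rw [Equiv.swap_apply_of_ne_of_ne h4]
          intro h5
          rw [← h3.1] at h5
          exact h2 ((x.1 p.1).symm.injective h5)
        · rw [h1]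
          simp only [Function.update_self]
          rw [Function.update_of_ne h2]
          exact h3.2
      · simp only [ne_eq, h1, not_false_eq_true, Function.update_of_ne]
        exact hx q hq
  · intro x hx y hy hxy
    simp only [Prod.mk.injEq] at hxy
    obtain ⟨⟨h1, h2⟩, h3, h4⟩ := hxy
    refine Prod.ext ?_ ?_
    · funext i
      by_cases hi : i = p.1
      · subst hi
        have := congrFun h3 p.1
        simp only [Function.update_self] at this
        rw [h2] at this
        have h5 := congrArg (fun f => (Equiv.swap (N p) ((y.1 p.1).symm p.2)).trans f) this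
        simp only [← Equiv.trans_assoc] at h5
        simpa [Equiv.swap_swap] using h5
      · have := congrFun h3 i
        simpa [hi] using this
    · funext i u
      by_cases hi : i = p.1
      · subst hi
        by_cases hu : u = p.2
        · rw [hu]; exact h1
        · have := congrFun (congrFun h4 p.1) u
          simpa [hu] using this
      · have := congrFun (congrFun h4 i) u
        simpa [hi] using this

theorem core_count [Fintype W] (N : Fin (k + 1) × W → W) (β : Fin (k + 1) × W → Bool)
    (Q : Finset (Fin (k + 1) × W)) :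
    (∀ q ∈ Q, ∀ q' ∈ Q, q.1 = q'.1 → N q = N q' → q = q') →
    Fintype.card (Inp k W) ≤ (2 * Fintype.card W) ^ Q.card *
      (Finset.univ.filter (fun x : Inp k W =>
        ∀ q ∈ Q, (x.1 q.1).symm q.2 = N q ∧ x.2 q.1 q.2 = β q)).card := by
  classical
  induction Q using Finset.induction_on with
  | empty => intro _; simp
  | insert p Q hp ih =>
    intro h
    have h1 := ih (fun q hq q' hq' => h q (Finset.mem_insert_of_mem hq) q'
      (Finset.mem_insert_of_mem hq'))
    have h2 := core_step Q N β p hp (by
      intro q hq h3 h4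
      exact hp ((h q (Finset.mem_insert_of_mem hq) p (Finset.mem_insert_self _ _) h3 h4) ▸ hq))
    rw [Finset.card_insert_of_notMem hp, pow_succ, mul_assoc]
    exact h1.trans (Nat.mul_le_mul_left _ h2)

/-- The name of a slot. -/
def core_nam (e : W ⊕ Z ≃ V) (ρ : Rho k V Z) (x : Inp k W) (p : Fin (k + 1) × V) : V :=
  ((Phi e ρ x).1 p.1).symm p.2

theorem core_mem_alv (e : W ⊕ Z ≃ V) (ρ : Rho k V Z) (t : Finset (Fct k V))
    (p : Fin (k + 1) × V) :
    p ∈ alv e ρ t ↔ p ∈ slots t ∧ ∃ w, (ρ.1 p.1).symm p.2 = e (Sum.inl w) := by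
  simp [alv]

theorem core_nm (e : W ⊕ Z ≃ V) (ρ : Rho k V Z) (x : Inp k W) (t : Finset (Fct k V)) :
    nm (Phi e ρ x) t = (slots t).image (core_nam e ρ x) := rfl

open Classical in
/-- Unfolding `Bad`: the chosen terms, and the decoding property. -/
theorem core_decode [Fintype W] (e : W ⊕ Z ≃ V) (ρ : Rho k V Z) :
    ∀ (F : List (Finset (Fct k V))) (H : Finset (Fin (k + 1) × V)) (M : ℕ), Bad e ρ F H M →
    ∃ τ : Fin M → Finset (Fct k V), (∀ m, τ m ∈ F) ∧ (∀ m, Poss e ρ (τ m)) ∧
      (∀ m, Disjoint (alv e ρ (τ m)) H) ∧
      (∀ m m', m ≠ m' → Disjoint (alv e ρ (τ m)) (alv e ρ (τ m'))) ∧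
      ∀ (x : Inp k W) (B : Finset V), (∀ m, holdsT (τ m) (Phi e ρ x)) →
        (∀ m m', m ≠ m' → Disjoint ((alv e ρ (τ m)).image (core_nam e ρ x))
          ((alv e ρ (τ m')).image (core_nam e ρ x))) →
        (∀ m, Disjoint ((alv e ρ (τ m)).image (core_nam e ρ x)) B) →
        H.image (core_nam e ρ x) ⊆ B →
        B ⊆ Finset.univ.image (fun w => e (Sum.inl w)) →
        Finset.univ.biUnion (fun m => (alv e ρ (τ m)).image (core_nam e ρ x)) ∈
          dec (Phi e ρ x) F B M := by
  intro F
  induction F with
  | nil =>
    intro H M hb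
    cases M with
    | zero =>
      refine ⟨fun i => i.elim0, fun i => i.elim0, fun i => i.elim0, fun i => i.elim0,
        fun i => i.elim0, ?_⟩
      intro x B _ _ _ _ _
      simp [dec]
    | succ M => simp [Bad] at hb
  | cons t F ih =>
    intro H M hb
    cases M with
    | zero =>
      refine ⟨fun i => i.elim0, fun i => i.elim0, fun i => i.elim0, fun i => i.elim0,
        fun i => i.elim0, ?_⟩
      intro x B _ _ _ _ _
      simp [dec]
    | succ M =>
      rw [Bad] at hb
      by_cases h1 : Poss e ρ t
      · rw [if_pos h1] at hb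
        by_cases h2 : alv e ρ t = ∅
        · rw [if_pos h2] at hb; exact hb.elim
        · rw [if_neg h2] at hb
          by_cases h3 : Disjoint (alv e ρ t) H
          · rw [if_pos h3] at hb
            obtain ⟨τ, ha, hb', hc, hd, hdec⟩ := ih _ _ hb
            have hc1 : ∀ m, Disjoint (alv e ρ (τ m)) H := fun m =>
              (hc m).mono_right Finset.subset_union_left
            have hc2 : ∀ m, Disjoint (alv e ρ (τ m)) (alv e ρ t) := fun m =>
              (hc m).mono_right Finset.subset_union_right
            refine ⟨Fin.cons t τ, ?_, ?_, ?_, ?_, ?_⟩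
            · intro m
              refine Fin.cases ?_ ?_ m
              · simp
              · intro i; simp [ha i]
            · intro m
              refine Fin.cases ?_ ?_ m
              · simpa using h1
              · intro i; simpa using hb' i
            · intro m
              refine Fin.cases ?_ ?_ m
              · simpa using h3
              · intro i; simpa using hc1 i
            · intro m m' hm
              induction m using Fin.cases with
              | zero =>
                induction m' using Fin.cases with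
                | zero => exact absurd rfl hm
                | succ j => simpa using (hc2 j).symm
              | succ i =>
                induction m' using Fin.cases with
                | zero => simpa using hc2 i
                | succ j =>
                  simpa using hd i j (fun h => hm (by rw [h]))
            · intro x B hx hI hIB hHB hBA
              have hJB := hIB 0
              simp only [Fin.cons_zero] at hJB
              have hsub : (alv e ρ t).image (core_nam e ρ x) ⊆ nm (Phi e ρ x) t := by
                rw [core_nm]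
                apply Finset.image_subset_image
                intro p hp
                exact ((core_mem_alv e ρ t p).mp hp).1
              have hcond : holdsT t (Phi e ρ x) ∧ Disjoint (nm (Phi e ρ x) t) B := by
                refine ⟨by simpa using hx 0, ?_⟩
                rw [core_nm, Finset.disjoint_left]
                intro v hv hvB
                obtain ⟨p, hp, rfl⟩ := Finset.mem_image.mp hv
                by_cases hal : ∃ w, (ρ.1 p.1).symm p.2 = e (Sum.inl w)
                · exact Finset.disjoint_left.mp hJB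
                    (Finset.mem_image_of_mem _ ((core_mem_alv e ρ t p).mpr ⟨hp, hal⟩)) hvB
                · obtain ⟨w, _, hw⟩ := Finset.mem_image.mp (hBA hvB)
                  have h5 : ∃ z, (ρ.1 p.1).symm p.2 = e (Sum.inr z) := by
                    rcases h6 : e.symm ((ρ.1 p.1).symm p.2) with w' | z
                    · exact absurd ⟨w', by rw [← h6, Equiv.apply_symm_apply]⟩ hal
                    · exact ⟨z, by rw [← h6, Equiv.apply_symm_apply]⟩
                  obtain ⟨z, hz⟩ := h5
                  have h7 := phi_symm_inr e ρ x p.1 p.2 z hz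
                  rw [core_nam, h7] at hw
                  have := e.injective hw
                  simp at this
              rw [dec, if_pos hcond, Finset.mem_biUnion]
              refine ⟨(alv e ρ t).image (core_nam e ρ x), ?_, ?_⟩
              · rw [Finset.mem_filter, Finset.mem_powerset]
                exact ⟨hsub, (Finset.nonempty_iff_ne_empty.mpr h2).image _⟩
              · rw [Finset.mem_image]
                refine ⟨Finset.univ.biUnion (fun m => (alv e ρ (τ m)).image (core_nam e ρ x)),
                  ?_, ?_⟩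
                · apply hdec x
                  · intro m; simpa using hx m.succ
                  · intro m m' hm
                    simpa using hI m.succ m'.succ (fun h => hm (Fin.succ_injective _ h))
                  · intro m
                    rw [Finset.disjoint_union_right]
                    refine ⟨by simpa using hIB m.succ, ?_⟩
                    simpa using hI m.succ 0 (Fin.succ_ne_zero m)
                  · rw [Finset.image_union]
                    exact Finset.union_subset_union hHB (Finset.Subset.refl _)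
                  · apply Finset.union_subset hBA
                    intro v hv
                    obtain ⟨p, hp, rfl⟩ := Finset.mem_image.mp hv
                    obtain ⟨w, hw⟩ := ((core_mem_alv e ρ t p).mp hp).2
                    rw [core_nam, phi_symm_inl e ρ x p.1 p.2 w hw]
                    exact Finset.mem_image_of_mem _ (Finset.mem_univ _)
                · ext v
                  simp only [Finset.mem_union, Finset.mem_biUnion, Finset.mem_univ, true_and]
                  constructor
                  · rintro (h | ⟨m, hm⟩)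
                    · exact ⟨0, by simpa using h⟩
                    · exact ⟨m.succ, by simpa using hm⟩
                  · rintro ⟨m, hm⟩
                    induction m using Fin.cases with
                    | zero => left; simpa using hm
                    | succ i => right; exact ⟨i, by simpa using hm⟩
          · rw [if_neg h3] at hb
            obtain ⟨τ, ha, hb', hc, hd, hdec⟩ := ih _ _ hb
            refine ⟨τ, fun m => List.mem_cons_of_mem _ (ha m), hb', hc, hd, ?_⟩
            intro x B hx hI hIB hHB hBA
            have hcond : ¬ (holdsT t (Phi e ρ x) ∧ Disjoint (nm (Phi e ρ x) t) B) := by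
              rintro ⟨_, h5⟩
              obtain ⟨p, hp, hpH⟩ := Finset.not_disjoint_iff.mp h3
              have h6 : core_nam e ρ x p ∈ nm (Phi e ρ x) t := by
                rw [core_nm]
                exact Finset.mem_image_of_mem _ ((core_mem_alv e ρ t p).mp hp).1
              exact Finset.disjoint_left.mp h5 h6 (hHB (Finset.mem_image_of_mem _ hpH))
            rw [dec, if_neg hcond]
            exact hdec x B hx hI hIB hHB hBA
      · rw [if_neg h1] at hb
        obtain ⟨τ, ha, hb', hc, hd, hdec⟩ := ih _ _ hb
        refine ⟨τ, fun m => List.mem_cons_of_mem _ (ha m), hb', hc, hd, ?_⟩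
        intro x B hx hI hIB hHB hBA
        have hcond : ¬ (holdsT t (Phi e ρ x) ∧ Disjoint (nm (Phi e ρ x) t) B) :=
          fun h => h1 ⟨x, h.1⟩
        rw [dec, if_neg hcond]
        exact hdec x B hx hI hIB hHB hBA

open Classical in
theorem core_emb [Fintype W] {M : ℕ} (P : Finset (Fin M × W)) (h : P.card ≤ Fintype.card W) :
    ∃ f : Fin M × W → W, ∀ a ∈ P, ∀ b ∈ P, f a = f b → a = b := by
  have h1 : Fintype.card {a // a ∈ P} ≤ Fintype.card W := by
    rw [Fintype.card_coe]; exact h
  obtain ⟨g⟩ := Function.Embedding.nonempty_of_card_le h1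
  refine ⟨fun a => if h : a ∈ P then g ⟨a, h⟩ else a.2, ?_⟩
  intro a ha b hb hab
  simp only [ha, hb, dif_pos] at hab
  have := g.injective hab
  exact congrArg Subtype.val this

end Core

open Classical in
theorem core [Fintype V] [Fintype W] [Fintype Z] (e : W ⊕ Z ≃ V) (ρ : Rho k V Z) (T M : ℕ)
    (F : List (Finset (Fct k V))) (hF : ∀ t ∈ F, t.card ≤ T)
    (hW : 2 * T * M ≤ Fintype.card W) (hb : Bad e ρ F ∅ M) :
    Fintype.card (Inp k W) ≤ (2 * Fintype.card W) ^ (2 * T * M) *
      (Finset.univ.filter (fun x : Inp k W =>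
        ∃ I ⊆ Finset.univ.image (fun w => e (Sum.inl w)),
          I ∈ dec (Phi e ρ x) F ((Finset.univ.image (fun w => e (Sum.inl w))) \ I) M)).card := by
  obtain ⟨τ, ha, hposs, -, hdis, hdec⟩ := core_decode e ρ F ∅ M hb
  choose X hX using hposs
  -- the alive slots, in coordinates of `W`
  set Q : Fin M → Finset (Fin (k + 1) × W) := fun m =>
    Finset.univ.filter (fun p => (p.1, ρ.1 p.1 (e (Sum.inl p.2))) ∈ slots (τ m)) with hQ
  have hQmem : ∀ m p, p ∈ Q m ↔ (p.1, ρ.1 p.1 (e (Sum.inl p.2))) ∈ slots (τ m) := by
    intro m p; simp [hQ]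
  have hQcard : ∀ m, (Q m).card ≤ 2 * T := by
    intro m
    have h1 : (Q m).card ≤ (slots (τ m)).card := by
      refine Finset.card_le_card_of_injOn (fun p => (p.1, ρ.1 p.1 (e (Sum.inl p.2)))) ?_ ?_
      · intro p hp
        exact (hQmem m p).mp hp
      · rintro ⟨i, w⟩ _ ⟨i', w'⟩ _ h
        simp only [Prod.mk.injEq] at h
        obtain ⟨rfl, h⟩ := h
        have := e.injective ((ρ.1 i).injective h)
        simpa using this
    exact h1.trans ((core_slots_card _).trans (Nat.mul_le_mul_left 2 (hF _ (ha m))))
  have hQdis : ∀ m m' p, p ∈ Q m → p ∈ Q m' → m = m' := by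
    intro m m' p h1 h2
    by_contra hne
    have h3 : (p.1, ρ.1 p.1 (e (Sum.inl p.2))) ∈ alv e ρ (τ m) :=
      (core_mem_alv e ρ _ _).mpr ⟨(hQmem m p).mp h1, p.2, by simp⟩
    have h4 : (p.1, ρ.1 p.1 (e (Sum.inl p.2))) ∈ alv e ρ (τ m') :=
      (core_mem_alv e ρ _ _).mpr ⟨(hQmem m' p).mp h2, p.2, by simp⟩
    exact Finset.disjoint_left.mp (hdis m m' hne) h3 h4
  -- the names
  set P : Finset (Fin M × W) := Finset.univ.biUnion (fun m =>
    (Q m).image (fun p => (m, ((X m).1 p.1).symm p.2))) with hP
  have hPcard : P.card ≤ Fintype.card W := by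
    refine le_trans ?_ hW
    refine (Finset.card_biUnion_le).trans ?_
    refine (Finset.sum_le_card_nsmul _ _ (2 * T) (fun m _ =>
      (Finset.card_image_le).trans (hQcard m))).trans ?_
    simp [mul_comm]
  obtain ⟨f, hf⟩ := core_emb P hPcard
  have hPmem : ∀ m p, p ∈ Q m → (m, ((X m).1 p.1).symm p.2) ∈ P := by
    intro m p hp
    rw [hP, Finset.mem_biUnion]
    exact ⟨m, Finset.mem_univ _, Finset.mem_image_of_mem _ hp⟩
  set QQ : Finset (Fin (k + 1) × W) := Finset.univ.biUnion Q with hQQ
  have hQQcard : QQ.card ≤ 2 * T * M := by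
    refine (Finset.card_biUnion_le).trans ?_
    refine (Finset.sum_le_card_nsmul _ _ (2 * T) (fun m _ => hQcard m)).trans ?_
    simp [mul_comm]
  -- the targets
  set N : Fin (k + 1) × W → W := fun p => if h : ∃ m, p ∈ Q m then
    f (h.choose, ((X h.choose).1 p.1).symm p.2) else p.2 with hN
  set β : Fin (k + 1) × W → Bool := fun p => if h : ∃ m, p ∈ Q m then
    (X h.choose).2 p.1 p.2 else false with hβ
  have hNm : ∀ m p, p ∈ Q m → N p = f (m, ((X m).1 p.1).symm p.2) := by
    intro m p hp
    have h : ∃ m, p ∈ Q m := ⟨m, hp⟩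
    have h1 : h.choose = m := hQdis _ _ p h.choose_spec hp
    simp only [hN, dif_pos h]
    rw [h1]
  have hβm : ∀ m p, p ∈ Q m → β p = (X m).2 p.1 p.2 := by
    intro m p hp
    have h : ∃ m, p ∈ Q m := ⟨m, hp⟩
    have h1 : h.choose = m := hQdis _ _ p h.choose_spec hp
    simp only [hβ, dif_pos h]
    rw [h1]
  have hcount := core_count (k := k) N β QQ (by
    intro q hq q' hq' h1 h2
    obtain ⟨m, _, hm⟩ := Finset.mem_biUnion.mp hq
    obtain ⟨m', _, hm'⟩ := Finset.mem_biUnion.mp hq'
    rw [hNm m q hm, hNm m' q' hm'] at h2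
    have h3 := hf _ (hPmem m q hm) _ (hPmem m' q' hm') h2
    simp only [Prod.mk.injEq] at h3
    obtain ⟨rfl, h4⟩ := h3
    rw [h1] at h4
    exact Prod.ext h1 (((X m).1 q'.1).symm.injective h4))
  have hpow : (2 * Fintype.card W) ^ QQ.card ≤ (2 * Fintype.card W) ^ (2 * T * M) := by
    rcases Nat.eq_zero_or_pos (Fintype.card W) with h0 | h0
    · have h1 : 2 * T * M = 0 := by omega
      have h2 : QQ.card = 0 := by omega
      rw [h1, h2]
    · exact Nat.pow_le_pow_right (by omega) hQQcard
  refine hcount.trans (Nat.mul_le_mul hpow (Finset.card_le_card ?_))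
  intro x hx
  rw [Finset.mem_filter] at hx ⊢
  refine ⟨Finset.mem_univ _, ?_⟩
  have hx2 : ∀ m p, p ∈ Q m → (x.1 p.1).symm p.2 = f (m, ((X m).1 p.1).symm p.2) ∧
      x.2 p.1 p.2 = (X m).2 p.1 p.2 := by
    intro m p hp
    have := hx.2 p (Finset.mem_biUnion.mpr ⟨m, Finset.mem_univ _, hp⟩)
    rw [hNm m p hp, hβm m p hp] at this
    exact this
  -- alive or dead
  have hcase : ∀ (i : Fin (k + 1)) (u : V), (∃ w, (ρ.1 i).symm u = e (Sum.inl w)) ∨
      ∃ z, (ρ.1 i).symm u = e (Sum.inr z) := by
    intro i u
    rcases h6 : e.symm ((ρ.1 i).symm u) with w' | z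
    · exact Or.inl ⟨w', by rw [← h6, Equiv.apply_symm_apply]⟩
    · exact Or.inr ⟨z, by rw [← h6, Equiv.apply_symm_apply]⟩
  have hQ2 : ∀ m i u w, (i, u) ∈ slots (τ m) → (ρ.1 i).symm u = e (Sum.inl w) →
      (i, w) ∈ Q m := by
    intro m i u w h1 h2
    rw [hQmem]
    have : ρ.1 i (e (Sum.inl w)) = u := by rw [← h2]; simp
    simpa [this] using h1
  have hholds : ∀ m, holdsT (τ m) (Phi e ρ x) := by
    intro m φ hφ
    have hφX := hX m φ hφ
    have hsl : ∀ p ∈ Fct.slots φ, p ∈ slots (τ m) := fun p hp =>
      Finset.mem_biUnion.mpr ⟨φ, hφ, hp⟩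
    cases φ with
    | edge i u v =>
      have hu := hsl (i.castSucc, u) (by simp [Fct.slots])
      have hv := hsl (i.succ, v) (by simp [Fct.slots])
      simp only [Fct.holds] at hφX ⊢
      rcases hcase i.castSucc u with ⟨w, hw⟩ | ⟨z, hz⟩ <;>
        rcases hcase i.succ v with ⟨w', hw'⟩ | ⟨z', hz'⟩
      · rw [phi_symm_inl e ρ _ _ _ w hw, phi_symm_inl e ρ _ _ _ w' hw'] at hφX ⊢
        have h1 := e.injective hφX
        simp only [Sum.inl.injEq] at h1
        rw [(hx2 m _ (hQ2 m _ _ _ hu hw)).1, (hx2 m _ (hQ2 m _ _ _ hv hw')).1]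
        simp only [h1]
      · rw [phi_symm_inl e ρ _ _ _ w hw, phi_symm_inr e ρ _ _ _ z' hz'] at hφX
        have h1 := e.injective hφX
        simp at h1
      · rw [phi_symm_inr e ρ _ _ _ z hz, phi_symm_inl e ρ _ _ _ w' hw'] at hφX
        have h1 := e.injective hφX
        simp at h1
      · rw [phi_symm_inr e ρ _ _ _ z hz, phi_symm_inr e ρ _ _ _ z' hz'] at hφX ⊢
        exact hφX
    | lab i u b =>
      have hu := hsl (i, u) (by simp [Fct.slots])
      simp only [Fct.holds] at hφX ⊢
      rcases hcase i u with ⟨w, hw⟩ | ⟨z, hz⟩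
      · rw [phi_lab_inl e ρ _ _ _ w hw] at hφX ⊢
        rw [(hx2 m _ (hQ2 m _ _ _ hu hw)).2]
        exact hφX
      · rw [phi_lab_inr e ρ _ _ _ z hz] at hφX ⊢
        exact hφX
  have hname : ∀ m, ∀ v ∈ (alv e ρ (τ m)).image (core_nam e ρ x), ∃ p ∈ Q m,
      v = e (Sum.inl (f (m, ((X m).1 p.1).symm p.2))) := by
    intro m v hv
    obtain ⟨p, hp, rfl⟩ := Finset.mem_image.mp hv
    obtain ⟨h1, w, hw⟩ := (core_mem_alv e ρ _ p).mp hp
    have h2 := hQ2 m p.1 p.2 w h1 hw
    refine ⟨(p.1, w), h2, ?_⟩
    rw [core_nam, phi_symm_inl e ρ x p.1 p.2 w hw, (hx2 m _ h2).1]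
  refine ⟨Finset.univ.biUnion (fun m => (alv e ρ (τ m)).image (core_nam e ρ x)), ?_, ?_⟩
  · intro v hv
    obtain ⟨m, _, hv⟩ := Finset.mem_biUnion.mp hv
    obtain ⟨p, _, rfl⟩ := hname m v hv
    exact Finset.mem_image_of_mem _ (Finset.mem_univ _)
  · apply hdec x _ hholds
    · intro m m' hne
      rw [Finset.disjoint_left]
      intro v hv hv'
      obtain ⟨p, hp, h1⟩ := hname m v hv
      obtain ⟨p', hp', h2⟩ := hname m' v hv'
      rw [h1] at h2
      have h3 := e.injective h2
      simp only [Sum.inl.injEq] at h3
      have h4 := hf _ (hPmem m p hp) _ (hPmem m' p' hp') h3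
      simp only [Prod.mk.injEq] at h4
      exact hne h4.1
    · intro m
      rw [Finset.disjoint_right]
      intro v hv hv'
      exact (Finset.mem_sdiff.mp hv).2 (Finset.mem_biUnion.mpr ⟨m, Finset.mem_univ _, hv'⟩)
    · simp
    · exact Finset.sdiff_subset

end Pool.Agent.ACP
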