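import Pool.Agent.ACP.Defs

/-!
# Counting: few alive sets decode
-/

set_option linter.unusedVariables false

namespace Pool.Agent.ACP

variable {k : ℕ} {V : Type} [DecidableEq V]

private theorem count_slots_fct (φ : Fct k V) : (φ.slots).card ≤ 2 := by
  cases φ with
  | edge i u v => exact Finset.card_le_two
  | lab i u b => simp [Fct.slots]

private theorem count_slots (t : Finset (Fct k V)) : (slots t).card ≤ 2 * t.card := by
  unfold slots
  calc (t.biUnion Fct.slots).card ≤ ∑ φ ∈ t, (φ.slots).card := Finset.card_biUnion_le
    _ ≤ ∑ φ ∈ t, 2 := Finset.sum_le_sum fun φ _ => count_slots_fct φ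
    _ = 2 * t.card := by rw [Finset.sum_const, smul_eq_mul, mul_comm]

private theorem count_nm (x : Inp k V) (t : Finset (Fct k V)) : (nm x t).card ≤ 2 * t.card :=
  Finset.card_image_le.trans (count_slots t)

private theorem dec_zero (x : Inp k V) (F : List (Finset (Fct k V))) (B : Finset V) :
    dec x F B 0 = {∅} := by
  cases F <;> simp [dec]

private theorem dec_nil (x : Inp k V) (B : Finset V) (M : ℕ) :
    dec x [] B (M + 1) = ∅ := by
  simp [dec]

private theorem dec_cons_pos (x : Inp k V) (t : Finset (Fct k V)) (F : List (Finset (Fct k V)))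
    (B : Finset V) (M : ℕ) (h : holdsT t x ∧ Disjoint (nm x t) B) (I : Finset V) :
    I ∈ dec x (t :: F) B (M + 1) ↔ ∃ J : Finset V, J ⊆ nm x t ∧ J.Nonempty ∧
      ∃ I' ∈ dec x F (B ∪ J) M, J ∪ I' = I := by
  classical
  rw [dec, if_pos h]
  simp only [Finset.mem_biUnion, Finset.mem_filter, Finset.mem_powerset, Finset.mem_image,
    and_assoc]

private theorem dec_cons_neg (x : Inp k V) (t : Finset (Fct k V)) (F : List (Finset (Fct k V)))
    (B : Finset V) (M : ℕ) (h : ¬ (holdsT t x ∧ Disjoint (nm x t) B)) :
    dec x (t :: F) B (M + 1) = dec x F B (M + 1) := by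
  rw [dec, if_neg h]

/-- The decoder has at most `4 ^ (T * M)` outputs. -/
theorem dec_card (x : Inp k V) (T : ℕ) (F : List (Finset (Fct k V))) (hF : ∀ t ∈ F, t.card ≤ T)
    (B : Finset V) (M : ℕ) : (dec x F B M).card ≤ 4 ^ (T * M) := by
  induction F generalizing B M with
  | nil =>
    cases M with
    | zero => rw [dec_zero]; simp
    | succ M => rw [dec_nil]; simp
  | cons t F ih =>
    have hF' : ∀ t ∈ F, t.card ≤ T := fun s hs => hF s (List.mem_cons_of_mem _ hs)
    cases M with
    | zero => rw [dec_zero]; simp
    | succ M =>
      by_cases h : holdsT t x ∧ Disjoint (nm x t) B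
      · rw [dec, if_pos h]
        have h1 : (((nm x t).powerset.filter (fun J => J.Nonempty))).card ≤ 4 ^ T := by
          calc (((nm x t).powerset.filter (fun J => J.Nonempty))).card
              ≤ ((nm x t).powerset).card := Finset.card_filter_le _ _
            _ = 2 ^ (nm x t).card := Finset.card_powerset _
            _ ≤ 2 ^ (2 * T) := by
                apply Nat.pow_le_pow_right (by norm_num)
                have h2 := hF t List.mem_cons_self
                have h3 := count_nm x t
                omega
            _ = 4 ^ T := by rw [pow_mul]; norm_num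
        calc _ ≤ ∑ J ∈ (nm x t).powerset.filter (fun J => J.Nonempty),
              ((dec x F (B ∪ J) M).image (fun I => J ∪ I)).card := Finset.card_biUnion_le
          _ ≤ ∑ J ∈ (nm x t).powerset.filter (fun J => J.Nonempty), 4 ^ (T * M) :=
              Finset.sum_le_sum fun J _ => Finset.card_image_le.trans (ih hF' (B ∪ J) M)
          _ = (((nm x t).powerset.filter (fun J => J.Nonempty))).card * 4 ^ (T * M) := by
              rw [Finset.sum_const, smul_eq_mul]
          _ ≤ 4 ^ T * 4 ^ (T * M) := Nat.mul_le_mul_right _ h1
          _ = 4 ^ (T * (M + 1)) := by rw [← pow_add]; congr 1; ring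
      · rw [dec_cons_neg x t F B M h]
        exact ih hF' B (M + 1)

theorem dec_prop (x : Inp k V) (T : ℕ) (F : List (Finset (Fct k V))) (hF : ∀ t ∈ F, t.card ≤ T)
    (B : Finset V) (M : ℕ) (I : Finset V) (hI : I ∈ dec x F B M) :
    Disjoint I B ∧ M ≤ I.card ∧ I.card ≤ 2 * T * M := by
  induction F generalizing B M I with
  | nil =>
    cases M with
    | zero =>
      rw [dec_zero, Finset.mem_singleton] at hI
      subst hI
      simp
    | succ M => rw [dec_nil] at hI; simp at hI
  | cons t F ih =>
    have hF' : ∀ t ∈ F, t.card ≤ T := fun s hs => hF s (List.mem_cons_of_mem _ hs)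
    cases M with
    | zero =>
      rw [dec_zero, Finset.mem_singleton] at hI
      subst hI
      simp
    | succ M =>
      by_cases h : holdsT t x ∧ Disjoint (nm x t) B
      · rw [dec_cons_pos x t F B M h] at hI
        obtain ⟨J, hJ, hJne, I', hI', rfl⟩ := hI
        obtain ⟨h1, h2, h3⟩ := ih hF' (B ∪ J) M I' hI'
        rw [Finset.disjoint_union_right] at h1
        have h4 : Disjoint J B := Finset.disjoint_of_subset_left hJ h.2
        have h5 : (J ∪ I').card = J.card + I'.card :=
          Finset.card_union_of_disjoint h1.2.symm
        have h6 : 0 < J.card := Finset.card_pos.mpr hJne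
        have h7 : J.card ≤ 2 * T := by
          have a1 := Finset.card_le_card hJ
          have a2 := count_nm x t
          have a3 := hF t List.mem_cons_self
          omega
        refine ⟨?_, ?_, ?_⟩
        · rw [Finset.disjoint_union_left]
          exact ⟨h4, h1.1⟩
        · omega
        · rw [h5]
          have : 2 * T * (M + 1) = 2 * T * M + 2 * T := by ring
          omega
      · rw [dec_cons_neg x t F B M h] at hI
        exact ih hF' B (M + 1) I hI

private theorem nm_rename (x : Inp k V) (π : Equiv.Perm V) (t : Finset (Fct k V)) :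
    (nm (fun i => π.trans (x.1 i), x.2) t).map π.toEmbedding = nm x t := by
  unfold nm
  rw [Finset.map_eq_image, Finset.image_image]
  apply Finset.image_congr
  intro p _
  simp

private theorem holds_rename (x : Inp k V) (π : Equiv.Perm V) (φ : Fct k V) :
    φ.holds ((fun i => π.trans (x.1 i), x.2) : Inp k V) ↔ φ.holds x := by
  cases φ with
  | edge i u v =>
    simp [Fct.holds]
  | lab i u b =>
    simp [Fct.holds]

private theorem holdsT_rename (x : Inp k V) (π : Equiv.Perm V) (t : Finset (Fct k V)) :
    holdsT t ((fun i => π.trans (x.1 i), x.2) : Inp k V) ↔ holdsT t x := by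
  unfold holdsT
  constructor
  · intro h φ hφ
    exact (holds_rename x π φ).1 (h φ hφ)
  · intro h φ hφ
    exact (holds_rename x π φ).2 (h φ hφ)

private theorem map_map_symm (π : Equiv.Perm V) (J : Finset V) :
    (J.map π.symm.toEmbedding).map π.toEmbedding = J := by
  ext a
  simp

/-- Diagonal symmetry: the decoder commutes with renaming. -/
theorem dec_rename (x : Inp k V) (π : Equiv.Perm V) (F : List (Finset (Fct k V)))
    (B : Finset V) (M : ℕ) (I : Finset V) :
    I ∈ dec (fun i => π.trans (x.1 i), x.2) F B M ↔
      I.map π.toEmbedding ∈ dec x F (B.map π.toEmbedding) M := by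
  induction F generalizing B M I with
  | nil =>
    cases M with
    | zero => rw [dec_zero, dec_zero]; simp
    | succ M => rw [dec_nil, dec_nil]; simp
  | cons t F ih =>
    cases M with
    | zero => rw [dec_zero, dec_zero]; simp
    | succ M =>
      have hdis : Disjoint (nm (fun i => π.trans (x.1 i), x.2) t) B ↔
          Disjoint (nm x t) (B.map π.toEmbedding) := by
        rw [← nm_rename x π t, Finset.disjoint_map]
      by_cases h : holdsT t x ∧ Disjoint (nm x t) (B.map π.toEmbedding)
      · have h' : holdsT t ((fun i => π.trans (x.1 i), x.2) : Inp k V) ∧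
            Disjoint (nm (fun i => π.trans (x.1 i), x.2) t) B :=
          ⟨(holdsT_rename x π t).2 h.1, hdis.2 h.2⟩
        rw [dec_cons_pos _ t F B M h', dec_cons_pos x t F _ M h]
        constructor
        · rintro ⟨J, hJ, hJne, I', hI', rfl⟩
          refine ⟨J.map π.toEmbedding, ?_, ?_, I'.map π.toEmbedding, ?_, ?_⟩
          · rw [← nm_rename x π t]
            exact Finset.map_subset_map.2 hJ
          · exact hJne.map
          · rw [← Finset.map_union]
            exact (ih (B ∪ J) M I').1 hI'
          · rw [← Finset.map_union]
        · rintro ⟨J, hJ, hJne, I', hI', hEq⟩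
          refine ⟨J.map π.symm.toEmbedding, ?_, hJne.map, I'.map π.symm.toEmbedding, ?_, ?_⟩
          · rw [← Finset.map_subset_map (f := π.toEmbedding), map_map_symm, nm_rename]
            exact hJ
          · rw [ih, map_map_symm, Finset.map_union, map_map_symm]
            exact hI'
          · rw [← Finset.map_inj (f := π.toEmbedding), Finset.map_union, map_map_symm,
              map_map_symm]
            exact hEq
      · have h' : ¬ (holdsT t ((fun i => π.trans (x.1 i), x.2) : Inp k V) ∧
            Disjoint (nm (fun i => π.trans (x.1 i), x.2) t) B) := by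
          rintro ⟨h1, h2⟩
          exact h ⟨(holdsT_rename x π t).1 h1, hdis.1 h2⟩
        rw [dec_cons_neg _ t F B M h', dec_cons_neg x t F _ M h]
        exact ih B (M + 1) I

end Pool.Agent.ACP
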