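import Pool.Agent.ACP.Pub

/-!
# Public-key encryption inside AC0: the internal model (definitions)

`k + 1` layers `0, .., k`; names and slots are elements of `V`; `x.1 i j` is the slot of the path
with name `j` in layer `i`; `x.2 i u` is the label of the slot `u` of layer `i`.
-/

set_option linter.unusedVariables false

namespace Pool.Agent.ACP

/-! ### Inputs, queries, decision trees -/

/-- An input: for each layer a permutation (name to slot) and labels of the slots. -/
abbrev Inp (k : ℕ) (V : Type) : Type := (Fin (k + 1) → Equiv.Perm V) × (Fin (k + 1) → V → Bool)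

/-- A query: the label of a slot, its out-neighbour or its in-neighbour. -/
inductive Qry (k : ℕ) (V : Type) : Type
  | lab (i : Fin (k + 1)) (u : V) : Qry k V
  | out (i : Fin k) (u : V) : Qry k V
  | inn (i : Fin k) (v : V) : Qry k V

/-- The answer to a query. -/
def ans {k : ℕ} {V : Type} (x : Inp k V) : Qry k V → V ⊕ Bool
  | Qry.lab i u => Sum.inr (x.2 i u)
  | Qry.out i u => Sum.inl (x.1 i.succ ((x.1 i.castSucc).symm u))
  | Qry.inn i v => Sum.inl (x.1 i.castSucc ((x.1 i.succ).symm v))

/-- Functions computed by decision trees of depth at most `T`. -/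
def DT (k : ℕ) (V : Type) : ℕ → Set (Inp k V → Bool)
  | 0 => {f | ∃ b : Bool, ∀ x, f x = b}
  | T + 1 => {f | f ∈ DT k V T ∨ ∃ (q : Qry k V) (g : V ⊕ Bool → Inp k V → Bool),
      (∀ a, g a ∈ DT k V T) ∧ ∀ x, f x = g (ans x q) x}

/-- Decision trees that know the slot of the path `j` in layer `0` for free. -/
def SDT (k : ℕ) (V : Type) (j : V) (T : ℕ) : Set (Inp k V → Bool) :=
  {f | ∃ D : V → Inp k V → Bool, (∀ u, D u ∈ DT k V T) ∧ ∀ x, f x = D (x.1 0 j) x}

/-- The parity of the labels along the path with name `j` (as a sign, `1` or `-1`). -/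
noncomputable def chi {k : ℕ} {V : Type} (j : V) (x : Inp k V) : ℝ :=
  ∏ i, (if x.2 i (x.1 i j) = true then (-1 : ℝ) else 1)

/-! ### Facts and terms -/

/-- A fact: an edge between consecutive layers, or the value of a label. -/
inductive Fct (k : ℕ) (V : Type) : Type
  | edge (i : Fin k) (u v : V) : Fct k V
  | lab (i : Fin (k + 1)) (u : V) (b : Bool) : Fct k V
deriving DecidableEq

/-- The fact `φ` holds in the input `x`. -/
def Fct.holds {k : ℕ} {V : Type} (x : Inp k V) : Fct k V → Prop
  | Fct.edge i u v => (x.1 i.castSucc).symm u = (x.1 i.succ).symm v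
  | Fct.lab i u b => x.2 i u = b

/-- The slots that occur in a fact. -/
def Fct.slots {k : ℕ} {V : Type} [DecidableEq V] : Fct k V → Finset (Fin (k + 1) × V)
  | Fct.edge i u v => {(i.castSucc, u), (i.succ, v)}
  | Fct.lab i u _ => {(i, u)}

/-- The slots that occur in a term. -/
def slots {k : ℕ} {V : Type} [DecidableEq V] (t : Finset (Fct k V)) : Finset (Fin (k + 1) × V) :=
  t.biUnion Fct.slots

/-- The term `t` (a conjunction of facts) holds in `x`. -/
def holdsT {k : ℕ} {V : Type} (t : Finset (Fct k V)) (x : Inp k V) : Prop :=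
  ∀ φ ∈ t, φ.holds x

/-- The DNF `F` (a disjunction of terms) holds in `x`. -/
def dnf {k : ℕ} {V : Type} (F : List (Finset (Fct k V))) (x : Inp k V) : Prop :=
  ∃ t ∈ F, holdsT t x

/-! ### Restrictions -/

/-- The permutation of `V` that acts as `π` on the alive part `W` and fixes the dead part `Z`. -/
def extP {V W Z : Type} (e : W ⊕ Z ≃ V) (π : Equiv.Perm W) : Equiv.Perm V :=
  (e.symm.trans (Equiv.sumCongr π (Equiv.refl Z))).trans e

/-- The parameters of a restriction. -/
abbrev Rho (k : ℕ) (V Z : Type) : Type := (Fin (k + 1) → Equiv.Perm V) × (Fin (k + 1) → Z → Bool)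

/-- The restriction: it makes an input with names `V` from one with names `W`. -/
def Phi {k : ℕ} {V W Z : Type} (e : W ⊕ Z ≃ V) (ρ : Rho k V Z) (x : Inp k W) : Inp k V :=
  (fun i => (extP e (x.1 i)).trans (ρ.1 i),
   fun i u => Sum.elim (fun w => x.2 i w) (fun z => ρ.2 i z) (e.symm ((ρ.1 i).symm u)))

/-- A distribution of restrictions from names `V` to names `W` (`j`, `j'` the marked names). -/
structure Sch (k : ℕ) (V W : Type) [Fintype V] [DecidableEq V] [Fintype W] [DecidableEq W]
    (j : V) (j' : W) : Type 1 where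
  Ω : Type
  fin : Fintype Ω
  ne : Nonempty Ω
  Φ : Ω → Inp k W → Inp k V
  st : Ω → W → V
  start_eq : ∀ ω x, (Φ ω x).1 0 j = st ω (x.1 0 j')
  chi_eq : ∀ ω x, chi j (Φ ω x) = chi j' x
  qry : ∀ ω q, (∃ a, ∀ x, ans (Φ ω x) q = a) ∨
    ∃ (q' : Qry k W) (τ : W ⊕ Bool → V ⊕ Bool), ∀ x, ans (Φ ω x) q = τ (ans x q')
  unif : ∀ g : Inp k V → ℝ, (∑ ω, ∑ x, g (Φ ω x)) * Fintype.card (Inp k V) =
    Fintype.card Ω * Fintype.card (Inp k W) * ∑ x, g x

attribute [instance] Sch.fin Sch.ne

/-! ### The greedy choice and its decoding -/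

/-- The term `t` is satisfiable under `ρ`. -/
def Poss {k : ℕ} {V W Z : Type} (e : W ⊕ Z ≃ V) (ρ : Rho k V Z) (t : Finset (Fct k V)) : Prop :=
  ∃ x : Inp k W, holdsT t (Phi e ρ x)

open Classical in
/-- The alive slots of the term `t` under `ρ`. -/
noncomputable def alv {k : ℕ} {V W Z : Type} [DecidableEq V] (e : W ⊕ Z ≃ V) (ρ : Rho k V Z)
    (t : Finset (Fct k V)) : Finset (Fin (k + 1) × V) :=
  (slots t).filter (fun p => ∃ w, (ρ.1 p.1).symm p.2 = e (Sum.inl w))

open Classical in
/-- `Bad e ρ F H M`: going through `F` one chooses `M` terms (satisfiable, with an alive slot, alive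
slots disjoint from `H` and from each other) before the first term that is constantly true. -/
def Bad {k : ℕ} {V W Z : Type} [DecidableEq V] (e : W ⊕ Z ≃ V) (ρ : Rho k V Z) :
    List (Finset (Fct k V)) → Finset (Fin (k + 1) × V) → ℕ → Prop
  | _, _, 0 => True
  | [], _, _ + 1 => False
  | t :: F, H, M + 1 =>
    if Poss e ρ t then
      if alv e ρ t = ∅ then False
      else if Disjoint (alv e ρ t) H then Bad e ρ F (H ∪ alv e ρ t) M
      else Bad e ρ F H (M + 1)
    else Bad e ρ F H (M + 1)

/-- The names of the slots of the term `t` in the input `x`. -/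
def nm {k : ℕ} {V : Type} [DecidableEq V] (x : Inp k V) (t : Finset (Fct k V)) : Finset V :=
  (slots t).image (fun p => (x.1 p.1).symm p.2)

open Classical in
/-- The decoder. -/
noncomputable def dec {k : ℕ} {V : Type} [DecidableEq V] (x : Inp k V) :
    List (Finset (Fct k V)) → Finset V → ℕ → Finset (Finset V)
  | _, _, 0 => {∅}
  | [], _, _ + 1 => ∅
  | t :: F, B, M + 1 =>
    if holdsT t x ∧ Disjoint (nm x t) B then
      (((nm x t).powerset.filter (fun J => J.Nonempty)).biUnion
        (fun J => (dec x F (B ∪ J) M).image (fun I => J ∪ I)))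
    else dec x F B (M + 1)

end Pool.Agent.ACP
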