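import Pool.Agent.ACP.Defs

/-!
# Shallow decision trees have correlation zero with the parity along the marked path
-/

set_option linter.unusedVariables false

namespace Pool.Agent.ACP

variable {k : ℕ} {V : Type}

/-- the sign of a label -/
private noncomputable def sg (b : Bool) : ℝ := if b = true then -1 else 1

private theorem sg_mul_self (b : Bool) : sg b * sg b = 1 := by
  cases b <;> simp [sg]

private theorem sg_not (b : Bool) : sg (!b) = -sg b := by
  cases b <;> simp [sg]

/-- the parity over the set `Wt` of slots -/
private noncomputable def par (Wt : Finset (Fin (k + 1) × V)) (y : Fin (k + 1) → V → Bool) : ℝ :=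
  ∏ p ∈ Wt, sg (y p.1 p.2)

private theorem par_symmDiff [DecidableEq V] (Wt : Finset (Fin (k + 1) × V))
    (p : Fin (k + 1) × V) (y : Fin (k + 1) → V → Bool) :
    par Wt y * sg (y p.1 p.2) = par (if p ∈ Wt then Wt.erase p else insert p Wt) y := by
  unfold par
  split_ifs with h
  · rw [← Finset.mul_prod_erase Wt (fun p => sg (y p.1 p.2)) h, mul_comm, ← mul_assoc, sg_mul_self,
      one_mul]
  · rw [Finset.prod_insert h, mul_comm]

private theorem par_sum_zero [Fintype V] [DecidableEq V] (Wt : Finset (Fin (k + 1) × V))
    (h : 0 < Wt.card) : ∑ y, par Wt y = 0 := by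
  obtain ⟨p, hp⟩ := Finset.card_pos.1 h
  -- flip the label `p`
  let fl : (Fin (k + 1) → V → Bool) → Fin (k + 1) → V → Bool := fun y i u =>
    if (i, u) = p then !y i u else y i u
  have hfl : Function.Involutive fl := by
    intro y
    funext i u
    simp only [fl]
    split_ifs <;> simp
  have h1 : ∑ y, par Wt y = ∑ y, par Wt (fl y) := (Equiv.sum_comp hfl.toPerm (par Wt)).symm
  have h2 : ∀ y, par Wt (fl y) = -par Wt y := by
    intro y
    unfold par
    rw [← Finset.mul_prod_erase Wt _ hp, ← Finset.mul_prod_erase Wt (fun p => sg (y p.1 p.2)) hp,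
      ← neg_mul]
    congr 1
    · simp only [fl, Prod.mk.eta, if_true]
      exact sg_not _
    · refine Finset.prod_congr rfl fun r hr => ?_
      simp only [fl, if_neg (Finset.ne_of_mem_erase hr)]
  have h3 : ∑ y, par Wt y = -∑ y, par Wt y := by
    conv_lhs => rw [h1]
    rw [← Finset.sum_neg_distrib]
    exact Finset.sum_congr rfl fun y _ => h2 y
  linarith

private theorem zero_aux [Fintype V] [DecidableEq V] (R : Fin (k + 1) → Equiv.Perm V) (T : ℕ)
    (Wt : Finset (Fin (k + 1) × V)) (hW : T < Wt.card) (f : Inp k V → Bool) (hf : f ∈ DT k V T) :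
    ∑ y, par Wt y * (if f (R, y) = true then (1 : ℝ) else 0) = 0 := by
  induction T generalizing f Wt with
  | zero =>
    obtain ⟨b, hb⟩ := hf
    simp only [hb]
    rw [← Finset.sum_mul, par_sum_zero Wt hW, zero_mul]
  | succ T ih =>
    rcases hf with hf | ⟨q, g, hg, hf⟩
    · exact ih Wt (by omega) f hf
    · cases q with
      | lab i u =>
        have h1 : ∀ y, par Wt y * (if f (R, y) = true then (1 : ℝ) else 0) =
            (par Wt y * (if g (Sum.inr true) (R, y) = true then (1 : ℝ) else 0) -
              par (if (i, u) ∈ Wt then Wt.erase (i, u) else insert (i, u) Wt) y *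
                (if g (Sum.inr true) (R, y) = true then (1 : ℝ) else 0)) / 2 +
            (par Wt y * (if g (Sum.inr false) (R, y) = true then (1 : ℝ) else 0) +
              par (if (i, u) ∈ Wt then Wt.erase (i, u) else insert (i, u) Wt) y *
                (if g (Sum.inr false) (R, y) = true then (1 : ℝ) else 0)) / 2 := by
          intro y
          rw [← par_symmDiff Wt (i, u) y, hf]
          simp only [ans]
          rcases Bool.eq_false_or_eq_true (y i u) with h | h
          · have h2 : sg true = -1 := by simp [sg]
            simp only [h, h2]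
            ring
          · have h2 : sg false = 1 := by simp [sg]
            simp only [h, h2]
            ring
        have hcard : T < (if (i, u) ∈ Wt then Wt.erase (i, u) else insert (i, u) Wt).card := by
          split_ifs with h
          · rw [Finset.card_erase_of_mem h]
            omega
          · rw [Finset.card_insert_of_notMem h]
            omega
        simp only [h1]
        rw [Finset.sum_add_distrib, ← Finset.sum_div, ← Finset.sum_div, Finset.sum_sub_distrib,
          Finset.sum_add_distrib, ih Wt (by omega) _ (hg _), ih _ hcard _ (hg _),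
          ih Wt (by omega) _ (hg _), ih _ hcard _ (hg _)]
        simp
      | out i u =>
        simp only [hf, ans]
        exact ih Wt (by omega) _ (hg _)
      | inn i v =>
        simp only [hf, ans]
        exact ih Wt (by omega) _ (hg _)

theorem zero_corr [Fintype V] [DecidableEq V] (j : V) {T : ℕ} (hT : T < k + 1)
    {f : Inp k V → Bool} (hf : f ∈ SDT k V j T) :
    ∑ x, chi j x * (if f x = true then (1 : ℝ) else 0) = 0 := by
  obtain ⟨D, hD, hf⟩ := hf
  rw [Fintype.sum_prod_type]
  refine Finset.sum_eq_zero fun R _ => ?_
  have hinj : Function.Injective fun i : Fin (k + 1) => (i, R i j) := fun a b h =>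
    (Prod.ext_iff.1 h).1
  have h1 : ∀ y : Fin (k + 1) → V → Bool, chi j (R, y) =
      par (Finset.univ.image fun i : Fin (k + 1) => (i, R i j)) y := by
    intro y
    unfold par chi
    rw [Finset.prod_image fun a _ b _ h => hinj h]
    rfl
  simp only [h1, hf]
  refine zero_aux R T _ ?_ _ (hD _)
  rw [Finset.card_image_of_injective _ hinj, Finset.card_univ, Fintype.card_fin]
  exact hT

end Pool.Agent.ACP
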