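import Pool.Agent.ACP.Collapse
import Pool.Agent.ACP.Zero

/-!
# Constant-depth circuits have negligible correlation with the parity along the marked path
-/

set_option linter.unusedVariables false

namespace Pool.Agent.ACP

private theorem dp_dnf_flat {k : ℕ} {V : Type} {t : ℕ} (G : Fin t → List (Finset (Fct k V)))
    (x : Inp k V) : dnf ((List.ofFn G).flatten) x ↔ ∃ i, dnf (G i) x := by
  constructor
  · rintro ⟨T, hT, h⟩
    obtain ⟨L, hL, hTL⟩ := List.mem_flatten.1 hT
    obtain ⟨i, rfl⟩ := (List.mem_ofFn' _ _).1 hL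
    exact ⟨i, T, hTL, h⟩
  · rintro ⟨i, T, hT, h⟩
    exact ⟨T, List.mem_flatten.2 ⟨G i, (List.mem_ofFn' _ _).2 ⟨i, rfl⟩, hT⟩, h⟩

private theorem dp_sdt_not {k : ℕ} {V : Type} {j : V} {T : ℕ} {f : Inp k V → Bool}
    (hf : f ∈ SDT k V j T) : (fun x => !f x) ∈ SDT k V j T := by
  obtain ⟨D, hD, h⟩ := hf
  exact ⟨fun u x => !D u x, fun u => DT_not (hD u), fun x => by
    show (!f x) = !(D (x.1 0 j) x)
    rw [h]⟩

open Classical in
private theorem dp_or {T e D n l k : ℕ} {j : Fin n} {j' : Fin l} (S : Sch k (Fin n) (Fin l) j j')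
    (hS : ∀ F : List (Finset (Fct k (Fin n))), (∀ t ∈ F, t.card ≤ T) →
        (Finset.univ.filter (fun ω : S.Ω =>
          (fun x => decide (dnf F (S.Φ ω x))) ∉ DT k (Fin l) D)).card * n ^ (e + 1) ≤
            Fintype.card S.Ω)
    (t : ℕ) (g : Fin t → Inp k (Fin n) → Bool) (hg : ∀ i, g i ∈ SDT k (Fin n) j T)
    (f : Inp k (Fin n) → Bool) (hf : ∀ x, f x = true ↔ ∃ i, g i x = true) :
    (Finset.univ.filter (fun ω : S.Ω =>
      (fun x => f (S.Φ ω x)) ∉ SDT k (Fin l) j' D)).card * n ^ e ≤ Fintype.card S.Ω := by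
  choose DD hDD hDg using hg
  have h1 : ∀ (u : Fin n) (i : Fin t), ∃ F : List (Finset (Fct k (Fin n))),
      (∀ t ∈ F, t.card ≤ T) ∧ ∀ x, DD i u x = true ↔ dnf F x := fun u i => DT_dnf (hDD i u)
  choose G hG1 hG2 using h1
  set FF : Fin n → List (Finset (Fct k (Fin n))) := fun u => (List.ofFn (G u)).flatten with hFF
  have hFFc : ∀ u, ∀ t ∈ FF u, t.card ≤ T := by
    intro u τ hτ
    obtain ⟨L, hL, hTL⟩ := List.mem_flatten.1 hτ
    obtain ⟨i, rfl⟩ := (List.mem_ofFn' _ _).1 hL
    exact hG1 u i τ hTL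
  have hval : ∀ x, f x = decide (dnf (FF (x.1 0 j)) x) := by
    intro x
    rw [Bool.eq_iff_iff, hf, decide_eq_true_eq, hFF]
    rw [dp_dnf_flat]
    refine exists_congr (fun i => ?_)
    rw [hDg, hG2]
  have hsub : Finset.univ.filter (fun ω : S.Ω =>
      (fun x => f (S.Φ ω x)) ∉ SDT k (Fin l) j' D) ⊆
      Finset.univ.biUnion (fun u : Fin n => Finset.univ.filter (fun ω : S.Ω =>
          (fun x => decide (dnf (FF u) (S.Φ ω x))) ∉ DT k (Fin l) D)) := by
    intro ω hω
    by_contra hc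
    refine (Finset.mem_filter.1 hω).2 ?_
    refine ⟨fun w x => decide (dnf (FF (S.st ω w)) (S.Φ ω x)), fun w => ?_, fun x => ?_⟩
    · by_contra hcc
      exact hc (Finset.mem_biUnion.2 ⟨S.st ω w, Finset.mem_univ _,
        Finset.mem_filter.2 ⟨Finset.mem_univ _, hcc⟩⟩)
    · show f (S.Φ ω x) = decide (dnf (FF (S.st ω (x.1 0 j'))) (S.Φ ω x))
      rw [hval, S.start_eq]
  have hcard := (Finset.card_le_card hsub).trans Finset.card_biUnion_le
  have hn : 0 < n := lt_of_le_of_lt (Nat.zero_le _) j.2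
  apply Nat.le_of_mul_le_mul_right _ hn
  calc _ = (Finset.univ.filter (fun ω : S.Ω =>
      (fun x => f (S.Φ ω x)) ∉ SDT k (Fin l) j' D)).card * n ^ (e + 1) := by ring
    _ ≤ (∑ u : Fin n, (Finset.univ.filter (fun ω : S.Ω =>
          (fun x => decide (dnf (FF u) (S.Φ ω x))) ∉ DT k (Fin l) D)).card) * n ^ (e + 1) :=
      Nat.mul_le_mul_right _ hcard
    _ = ∑ u : Fin n, (Finset.univ.filter (fun ω : S.Ω =>
          (fun x => decide (dnf (FF u) (S.Φ ω x))) ∉ DT k (Fin l) D)).card * n ^ (e + 1) := by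
      rw [Finset.sum_mul]
    _ ≤ ∑ u : Fin n, Fintype.card S.Ω := Finset.sum_le_sum (fun u _ => hS _ (hFFc u))
    _ = _ := by
      rw [Finset.sum_const, Finset.card_univ, Fintype.card_fin, smul_eq_mul, mul_comm]

open Classical in
/-- One level: the bottom gates collapse. -/
theorem level (T : ℕ) : ∃ K : ℕ, ∀ e : ℕ, ∃ D n₀ : ℕ, ∀ n ≥ n₀, ∀ (k : ℕ) (j : Fin n),
    ∃ (l : ℕ) (j' : Fin l), n ≤ l ^ K ∧ ∃ S : Sch k (Fin n) (Fin l) j j',
      ∀ (s d : ℕ), ∀ f ∈ AC (SDT k (Fin n) j T) s (d + 1),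
        (Finset.univ.filter (fun ω : S.Ω =>
          (fun x => f (S.Φ ω x)) ∉ AC (SDT k (Fin l) j' D) s d)).card * n ^ e ≤
            s ^ d * Fintype.card S.Ω := by
  obtain ⟨K, hK⟩ := collapse T
  refine ⟨K, fun e => ?_⟩
  obtain ⟨D, n₀, h⟩ := hK (e + 1)
  refine ⟨D, n₀, fun n hn k j => ?_⟩
  obtain ⟨l, j', hnl, S, hS⟩ := h n hn k j
  refine ⟨l, j', hnl, S, fun s d => ?_⟩
  induction d with
  | zero =>
    intro f hf
    obtain ⟨t, g, ht, hg, hfg | hfg⟩ := hf
    · have := dp_or S hS t g hg f hfg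
      rw [pow_zero, one_mul]
      exact this
    · have h1 := dp_or S hS t (fun i x => !g i x) (fun i => dp_sdt_not (hg i)) (fun x => !f x)
        (fun x => by
          have := hfg x
          simp only [Bool.not_eq_true']
          constructor
          · intro hx
            by_contra hc
            push Not at hc
            have h2 : f x = true := this.2 (fun i => by
              have := hc i
              simpa using this)
            rw [h2] at hx
            exact absurd hx (by simp)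
          · rintro ⟨i, hi⟩
            by_contra hc
            have h2 := this.1 (by simpa using hc) i
            rw [h2] at hi
            exact absurd hi (by simp))
      have h2 : (Finset.univ.filter (fun ω : S.Ω =>
          (fun x => f (S.Φ ω x)) ∉ SDT k (Fin l) j' D)) ⊆
          (Finset.univ.filter (fun ω : S.Ω =>
          (fun x => !f (S.Φ ω x)) ∉ SDT k (Fin l) j' D)) := by
        intro ω hω
        rw [Finset.mem_filter] at hω ⊢
        refine ⟨hω.1, fun hc => hω.2 ?_⟩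
        have := dp_sdt_not hc
        simpa using this
      calc _ ≤ (Finset.univ.filter (fun ω : S.Ω =>
          (fun x => !f (S.Φ ω x)) ∉ SDT k (Fin l) j' D)).card * n ^ e :=
            Nat.mul_le_mul_right _ (Finset.card_le_card h2)
        _ ≤ Fintype.card S.Ω := h1
        _ = _ := by simp
  | succ d ih =>
    intro f hf
    obtain ⟨t, g, ht, hg, hfg⟩ := hf
    have hsub : Finset.univ.filter (fun ω : S.Ω =>
        (fun x => f (S.Φ ω x)) ∉ AC (SDT k (Fin l) j' D) s (d + 1)) ⊆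
        Finset.univ.biUnion (fun i : Fin t => Finset.univ.filter (fun ω : S.Ω =>
          (fun x => g i (S.Φ ω x)) ∉ AC (SDT k (Fin l) j' D) s d)) := by
      intro ω hω
      by_contra hc
      refine (Finset.mem_filter.1 hω).2 ⟨t, fun i x => g i (S.Φ ω x), ht, fun i => ?_, ?_⟩
      · by_contra hcc
        exact hc (Finset.mem_biUnion.2 ⟨i, Finset.mem_univ _,
          Finset.mem_filter.2 ⟨Finset.mem_univ _, hcc⟩⟩)
      · rcases hfg with hfg | hfg
        · exact Or.inl (fun x => hfg _)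
        · exact Or.inr (fun x => hfg _)
    have hcard := (Finset.card_le_card hsub).trans Finset.card_biUnion_le
    calc _ ≤ (∑ i : Fin t, (Finset.univ.filter (fun ω : S.Ω =>
          (fun x => g i (S.Φ ω x)) ∉ AC (SDT k (Fin l) j' D) s d)).card) * n ^ e :=
          Nat.mul_le_mul_right _ hcard
      _ = ∑ i : Fin t, (Finset.univ.filter (fun ω : S.Ω =>
          (fun x => g i (S.Φ ω x)) ∉ AC (SDT k (Fin l) j' D) s d)).card * n ^ e := by
        rw [Finset.sum_mul]
      _ ≤ ∑ i : Fin t, s ^ d * Fintype.card S.Ω := Finset.sum_le_sum (fun i _ => ih _ (hg i))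
      _ = t * (s ^ d * Fintype.card S.Ω) := by
        rw [Finset.sum_const, Finset.card_univ, Fintype.card_fin, smul_eq_mul]
      _ ≤ s * (s ^ d * Fintype.card S.Ω) := Nat.mul_le_mul_right _ ht
      _ = _ := by ring

private theorem dp_abs_chi {k n : ℕ} (j : Fin n) (x : Inp k (Fin n)) (b : Bool) :
    |chi j x * (if b = true then (1 : ℝ) else 0)| ≤ 1 := by
  have h : |chi j x| = 1 := by
    unfold chi
    rw [Finset.abs_prod]
    refine Finset.prod_eq_one (fun i _ => ?_)
    split_ifs <;> simp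
  rw [abs_mul, h, one_mul]
  split_ifs <;> simp

theorem corr_bound (d : ℕ) : ∀ T c e : ℕ, ∃ k₀ n₀ : ℕ, ∀ n ≥ n₀, ∀ k ≥ k₀, ∀ s ≤ n ^ c,
    ∀ (j : Fin n), ∀ f ∈ AC (SDT k (Fin n) j T) s d,
      |∑ x, chi j x * (if f x = true then (1 : ℝ) else 0)| * (n : ℝ) ^ e ≤
        Fintype.card (Inp k (Fin n)) := by
  classical
  induction d with
  | zero =>
    intro T c e
    refine ⟨T, 0, fun n _ k hk s _ j f hf => ?_⟩
    have h : ∑ x, chi j x * (if f x = true then (1 : ℝ) else 0) = 0 :=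
      zero_corr j (Nat.lt_succ_of_le hk) hf
    rw [h, abs_zero, zero_mul]
    positivity
  | succ d ih =>
    intro T c e
    obtain ⟨K, hK⟩ := level T
    obtain ⟨D, n₁, hD⟩ := hK (c * d + e + 1)
    obtain ⟨k₀, n₂, hI⟩ := ih D (K * c) (K * (e + 1))
    refine ⟨k₀, max (max n₁ 2) (n₂ ^ K + 1), fun n hn k hk s hs j f hf => ?_⟩
    have hn1 : n₁ ≤ n := le_trans (le_trans (le_max_left _ _) (le_max_left _ _)) hn
    have hn2 : 2 ≤ n := le_trans (le_trans (le_max_right _ _) (le_max_left _ _)) hn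
    have hn3 : n₂ ^ K + 1 ≤ n := le_trans (le_max_right _ _) hn
    obtain ⟨l, j', hnl, S, hS⟩ := hD n hn1 k j
    have hl : n₂ ≤ l := by
      by_contra h
      push Not at h
      have : l ^ K ≤ n₂ ^ K := Nat.pow_le_pow_left h.le K
      omega
    have hbad := hS s d f hf
    set BS : Finset S.Ω := Finset.univ.filter (fun ω : S.Ω =>
          (fun x => f (S.Φ ω x)) ∉ AC (SDT k (Fin l) j' D) s d) with hBS
    have hB : BS.card * n ^ (e + 1) ≤ Fintype.card S.Ω := by
      have h1 : s ^ d ≤ n ^ (c * d) := by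
        rw [pow_mul]
        exact Nat.pow_le_pow_left hs d
      have h2 : 0 < n ^ (c * d) := by positivity
      apply Nat.le_of_mul_le_mul_right _ h2
      calc BS.card * n ^ (e + 1) * n ^ (c * d) = BS.card * n ^ (c * d + e + 1) := by ring
        _ ≤ s ^ d * Fintype.card S.Ω := hbad
        _ ≤ n ^ (c * d) * Fintype.card S.Ω := Nat.mul_le_mul_right _ h1
        _ = _ := by ring
    have hsc : s ≤ l ^ (K * c) := by
      calc s ≤ n ^ c := hs
        _ ≤ (l ^ K) ^ c := Nat.pow_le_pow_left hnl c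
        _ = _ := by rw [pow_mul]
    set g : Inp k (Fin n) → ℝ := fun x => chi j x * (if f x = true then (1 : ℝ) else 0) with hg
    set I : S.Ω → ℝ := fun ω => ∑ x, g (S.Φ ω x) with hI'
    have hIeq : ∀ ω, I ω = ∑ x : Inp k (Fin l), chi j' x *
        (if f (S.Φ ω x) = true then (1 : ℝ) else 0) := by
      intro ω
      simp only [hI', hg]
      refine Finset.sum_congr rfl (fun x _ => ?_)
      rw [S.chi_eq]
    have hnR : (2 : ℝ) ≤ n := by exact_mod_cast hn2
    have hnl' : (n : ℝ) ^ (e + 1) ≤ (l : ℝ) ^ (K * (e + 1)) := by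
      rw [pow_mul]
      exact pow_le_pow_left₀ (by positivity) (by exact_mod_cast hnl) _
    have hgoodI : ∀ ω, ω ∉ BS → |I ω| * (n : ℝ) ^ (e + 1) ≤ Fintype.card (Inp k (Fin l)) := by
      intro ω hω
      have hmem : (fun x => f (S.Φ ω x)) ∈ AC (SDT k (Fin l) j' D) s d := by
        by_contra hc
        exact hω (by rw [hBS, Finset.mem_filter]; exact ⟨Finset.mem_univ _, hc⟩)
      have h1 := hI l hl k hk s hsc j' _ hmem
      rw [hIeq]
      exact le_trans (mul_le_mul_of_nonneg_left hnl' (abs_nonneg _)) h1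
    have hallI : ∀ ω, |I ω| ≤ Fintype.card (Inp k (Fin l)) := by
      intro ω
      rw [hIeq]
      calc _ ≤ ∑ x : Inp k (Fin l), |chi j' x * (if f (S.Φ ω x) = true then (1 : ℝ) else 0)| :=
            Finset.abs_sum_le_sum_abs _ _
        _ ≤ ∑ x : Inp k (Fin l), (1 : ℝ) := Finset.sum_le_sum (fun x _ => dp_abs_chi j' x _)
        _ = _ := by simp
    set L : ℝ := (Fintype.card (Inp k (Fin l)) : ℝ) with hL
    set O : ℝ := (Fintype.card S.Ω : ℝ) with hO
    have hL0 : 0 < L := by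
      rw [hL]
      have : Nonempty (Inp k (Fin l)) := ⟨(fun _ => Equiv.refl _, fun _ _ => false)⟩
      exact_mod_cast Fintype.card_pos
    have hO0 : 0 < O := by
      rw [hO]
      exact_mod_cast Fintype.card_pos
    have htot : |∑ ω, I ω| * (n : ℝ) ^ (e + 1) ≤ 2 * (O * L) := by
      calc |∑ ω, I ω| * (n : ℝ) ^ (e + 1) ≤ (∑ ω, |I ω|) * (n : ℝ) ^ (e + 1) :=
            mul_le_mul_of_nonneg_right (Finset.abs_sum_le_sum_abs _ _) (by positivity)
        _ = (∑ ω ∈ BS, |I ω|) * (n : ℝ) ^ (e + 1) + ∑ ω ∈ BSᶜ, |I ω| * (n : ℝ) ^ (e + 1) := by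
          rw [← Finset.sum_add_sum_compl BS, add_mul, Finset.sum_mul BSᶜ]
        _ ≤ (∑ ω ∈ BS, L) * (n : ℝ) ^ (e + 1) + ∑ ω ∈ BSᶜ, L := by
          refine add_le_add (mul_le_mul_of_nonneg_right (Finset.sum_le_sum (fun ω _ => hallI ω))
            (by positivity)) (Finset.sum_le_sum (fun ω hω => hgoodI ω (Finset.mem_compl.1 hω)))
        _ = (BS.card * (n : ℝ) ^ (e + 1)) * L + BSᶜ.card * L := by
          rw [Finset.sum_const, Finset.sum_const, nsmul_eq_mul, nsmul_eq_mul]
          ring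
        _ ≤ O * L + O * L := by
          refine add_le_add (mul_le_mul_of_nonneg_right ?_ hL0.le)
            (mul_le_mul_of_nonneg_right ?_ hL0.le)
          · rw [hO]
            exact_mod_cast hB
          · rw [hO]
            exact_mod_cast Finset.card_le_univ _
        _ = _ := by ring
    have hunif := S.unif g
    have hNc : (0 : ℝ) ≤ Fintype.card (Inp k (Fin n)) := by positivity
    have hfinal : |∑ x, g x| * (n : ℝ) ^ (e + 1) ≤ 2 * Fintype.card (Inp k (Fin n)) := by
      have hOL : 0 < O * L := mul_pos hO0 hL0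
      apply le_of_mul_le_mul_left _ hOL
      calc O * L * (|∑ x, g x| * (n : ℝ) ^ (e + 1)) = |O * L * ∑ x, g x| * (n : ℝ) ^ (e + 1) := by
            rw [abs_mul, abs_of_pos hOL]
            ring
        _ = |(∑ ω, I ω) * Fintype.card (Inp k (Fin n))| * (n : ℝ) ^ (e + 1) := by
            rw [← hunif]
        _ = (|∑ ω, I ω| * (n : ℝ) ^ (e + 1)) * Fintype.card (Inp k (Fin n)) := by
            rw [abs_mul, abs_of_nonneg hNc]
            ring
        _ ≤ 2 * (O * L) * Fintype.card (Inp k (Fin n)) :=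
            mul_le_mul_of_nonneg_right htot hNc
        _ = _ := by ring
    have hpe : (0 : ℝ) ≤ |∑ x, g x| * (n : ℝ) ^ e := by positivity
    have h2 : 2 * (|∑ x, g x| * (n : ℝ) ^ e) ≤ |∑ x, g x| * (n : ℝ) ^ (e + 1) := by
      calc 2 * (|∑ x, g x| * (n : ℝ) ^ e) ≤ n * (|∑ x, g x| * (n : ℝ) ^ e) :=
            mul_le_mul_of_nonneg_right hnR hpe
        _ = _ := by ring
    linarith

end Pool.Agent.ACP
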