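import Pool.Agent.ACP.Honest

/-!
# The algorithms of the scheme are constant-depth circuits
-/

set_option linter.unusedVariables false

namespace Pool.Agent.ACP

private theorem lit_AC {ι : Type} {s : ℕ} (hs : 1 ≤ s) (d : ℕ) (i : ι) :
    (fun x : ι → Bool => x i) ∈ AC (lits ι) s d :=
  AC_mono_d hs (Nat.zero_le d) (show _ ∈ lits ι from Or.inl ⟨i, rfl⟩)

private theorem nlit_AC {ι : Type} {s : ℕ} (hs : 1 ≤ s) (d : ℕ) (i : ι) :
    (fun x : ι → Bool => !x i) ∈ AC (lits ι) s d :=
  AC_mono_d hs (Nat.zero_le d) (show _ ∈ lits ι from Or.inr (Or.inl ⟨i, rfl⟩))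

private theorem const_AC {ι : Type} {s : ℕ} (hs : 1 ≤ s) (d : ℕ) (b : Bool) :
    (fun _ : ι → Bool => b) ∈ AC (lits ι) s d :=
  AC_mono_d hs (Nat.zero_le d) (show _ ∈ lits ι from Or.inr (Or.inr ⟨b, rfl⟩))

open Classical in
private theorem eqU_AC {n k w L s : ℕ} (hs : 1 ≤ s) (h3 : w ≤ s) (i : Fin (k + 1)) (a : Fin L)
    (j : Fin (n + 1)) (u : Slot w) :
    (fun g : CG n k w L → Bool => decide ((fun b => g (i, a, j, b)) = u)) ∈
      AC (lits _) s 1 := by
  refine Circ_and_iff (ι := Fin w) (by simpa using h3)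
    (fun b g => if u b then g (i, a, j, b) else !g (i, a, j, b)) (fun b => ?_) (fun g => ?_)
  · cases hu : u b
    · simpa using nlit_AC hs 0 _
    · simpa using lit_AC hs 0 _
  · rw [decide_eq_true_iff, funext_iff]
    refine forall_congr' fun b => ?_
    cases u b <;> cases g (i, a, j, b) <;> simp

open Classical in
private theorem eq2_AC {n k w L s : ℕ} (hs : 2 ≤ s) (h3 : w ≤ s) (i : Fin (k + 1)) (a : Fin L)
    (j j' : Fin (n + 1)) :
    (fun g : CG n k w L → Bool => decide ((fun b => g (i, a, j, b)) = fun b => g (i, a, j', b)))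
      ∈ AC (lits _) s 3 := by
  refine Circ_and_iff (ι := Fin w) (by simpa using h3)
    (fun b g => !xor (g (i, a, j, b)) (g (i, a, j', b))) (fun b => ?_) (fun g => ?_)
  · exact AC_not lits_not (AC_xor (d := 0) lits_not hs (lit_AC (by omega) 0 _)
      (lit_AC (by omega) 0 _))
  · rw [decide_eq_true_iff, funext_iff]
    refine forall_congr' fun b => ?_
    cases g (i, a, j, b) <;> cases g (i, a, j', b) <;> simp

open Classical in
private theorem inj_AC {n k w L s : ℕ} (h1 : (n + 1) ^ 2 ≤ s) (hs : 2 ≤ s) (h3 : w ≤ s)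
    (i : Fin (k + 1)) (a : Fin L) :
    (fun g : CG n k w L → Bool => decide (Function.Injective (fun j b => g (i, a, j, b))))
      ∈ AC (lits _) s 4 := by
  refine Circ_and_iff (ι := Fin (n + 1) × Fin (n + 1)) (by simpa [sq] using h1)
    (fun p g => if p.1 = p.2 then true
      else !decide ((fun b => g (i, a, p.1, b)) = fun b => g (i, a, p.2, b)))
    (fun p => ?_) (fun g => ?_)
  · by_cases hp : p.1 = p.2
    · simp only [hp, if_true]
      exact const_AC (by omega) _ true
    · simp only [hp, if_false]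
      exact AC_not lits_not (eq2_AC hs h3 i a p.1 p.2)
  · rw [decide_eq_true_iff]
    constructor
    · intro h p
      by_cases hp : p.1 = p.2
      · simp [hp]
      · simp only [hp, if_false, Bool.not_eq_true', decide_eq_false_iff_not]
        exact fun h' => hp (h h')
    · intro h j j' hj
      by_contra hne
      have h4 := h (j, j')
      simp only [hne, if_false, Bool.not_eq_true', decide_eq_false_iff_not] at h4
      exact h4 hj

open Classical in
private theorem first_AC {n k w L s : ℕ} (h1 : (n + 1) ^ 2 ≤ s) (hs : 2 ≤ s) (h3 : w ≤ s)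
    (h4 : L ≤ s) (i : Fin (k + 1)) (a : Fin L) :
    (fun g : CG n k w L → Bool => decide (Function.Injective (fun j b => g (i, a, j, b)) ∧
      ∀ a' < a, ¬ Function.Injective (fun j b => g (i, a', j, b)))) ∈ AC (lits _) s 5 := by
  refine Circ_and_iff (ι := Fin L) (by simpa using h4)
    (fun a' g => if a' < a then !decide (Function.Injective (fun j b => g (i, a', j, b)))
      else if a' = a then decide (Function.Injective (fun j b => g (i, a', j, b))) else true)
    (fun a' => ?_) (fun g => ?_)
  · by_cases hp : a' < a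
    · simp only [hp, if_true]
      exact AC_not lits_not (inj_AC h1 hs h3 i a')
    · by_cases hq : a' = a
      · subst hq
        simp only [lt_self_iff_false, if_true, if_false]
        exact inj_AC h1 hs h3 i a'
      · simp only [hp, hq, if_false]
        exact const_AC (by omega) _ true
  · rw [decide_eq_true_iff]
    constructor
    · rintro ⟨h, h'⟩ a'
      by_cases hp : a' < a
      · simpa [hp] using h' a' hp
      · by_cases hq : a' = a
        · subst hq
          simpa using h
        · simp [hp, hq]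
    · intro h
      constructor
      · simpa using h a
      · intro a' ha'
        have h5 := h a'
        simpa [ha'] using h5

private theorem pick_iff {n w L : ℕ} (dflt : Fin (n + 1) → Slot w)
    (c : Fin L → Fin (n + 1) → Slot w) (j : Fin (n + 1)) (u : Slot w) :
    pick dflt c j = u ↔ (∃ a, (Function.Injective (c a) ∧
      ∀ a' < a, ¬ Function.Injective (c a')) ∧ c a j = u) ∨
      ((∀ a, ¬ Function.Injective (c a)) ∧ dflt j = u) := by
  classical
  unfold pick
  split_ifs with h
  · have hne : (Finset.univ.filter (fun a => Function.Injective (c a))).Nonempty := by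
      obtain ⟨a, ha⟩ := h
      exact ⟨a, by simpa using ha⟩
    set m := (Finset.univ.filter (fun a => Function.Injective (c a))).min' hne with hm
    have h1 : Function.Injective (c m) := by
      have h2 := Finset.min'_mem _ hne
      simpa using h2
    have h2 : ∀ a' < m, ¬ Function.Injective (c a') := by
      intro a' ha' hi
      have h3 := Finset.min'_le (Finset.univ.filter (fun a => Function.Injective (c a))) a'
        (by simpa using hi)
      exact absurd ha' (not_lt.2 h3)
    constructor
    · intro hu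
      exact Or.inl ⟨m, ⟨h1, h2⟩, hu⟩
    · rintro (⟨a, ⟨ha, ha'⟩, hu⟩ | ⟨h3, -⟩)
      · have h4 : a = m := by
          rcases lt_trichotomy a m with h | h | h
          · exact absurd ha (h2 a h)
          · exact h
          · exact absurd h1 (ha' m h)
        rw [← h4]
        exact hu
      · exact absurd h1 (h3 m)
  · push Not at h
    constructor
    · intro hu
      exact Or.inr ⟨h, hu⟩
    · rintro (⟨a, ⟨ha, -⟩, -⟩ | ⟨-, hu⟩)
      · exact absurd ha (h a)
      · exact hu

open Classical in
private theorem lay_AC {n k w L s : ℕ} (dflt : Fin (n + 1) → Slot w) (h1 : (n + 1) ^ 2 ≤ s)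
    (hs : 2 ≤ s) (h3 : w ≤ s) (h4 : L ≤ s) (i : Fin (k + 1)) (j : Fin (n + 1)) (u : Slot w) :
    (fun g : CG n k w L → Bool => decide (lay dflt g i j = u)) ∈ AC (lits _) s 8 := by
  have hA : (fun g : CG n k w L → Bool => decide (∃ a, (Function.Injective
      (fun j b => g (i, a, j, b)) ∧ ∀ a' < a, ¬ Function.Injective (fun j b => g (i, a', j, b))) ∧
      (fun b => g (i, a, j, b)) = u)) ∈ AC (lits _) s 7 := by
    refine Circ_or_iff (ι := Fin L) (by simpa using h4)
      (fun a g => decide (Function.Injective (fun j b => g (i, a, j, b)) ∧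
        ∀ a' < a, ¬ Function.Injective (fun j b => g (i, a', j, b))) &&
        decide ((fun b => g (i, a, j, b)) = u)) (fun a => ?_) (fun g => ?_)
    · exact AC_and2 hs (first_AC h1 hs h3 h4 i a)
        (AC_mono_d (by omega) (by omega) (eqU_AC (by omega) h3 i a j u))
    · rw [decide_eq_true_iff]
      refine exists_congr fun a => ?_
      rw [Bool.and_eq_true, decide_eq_true_iff, decide_eq_true_iff]
  have hB : (fun g : CG n k w L → Bool => decide ((∀ a, ¬ Function.Injective
      (fun j b => g (i, a, j, b))) ∧ dflt j = u)) ∈ AC (lits _) s 7 := by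
    by_cases hd : dflt j = u
    · simp only [hd, and_true]
      refine AC_mono_d (d := 5) (by omega) (by omega) ?_
      refine Circ_and_iff (ι := Fin L) (by simpa using h4)
        (fun a g => !decide (Function.Injective (fun j b => g (i, a, j, b))))
        (fun a => AC_not lits_not (inj_AC h1 hs h3 i a)) (fun g => ?_)
      simp
    · simp only [hd, and_false, decide_false]
      exact const_AC (by omega) _ false
  have hC := AC_or2 hs hA hB
  have hD : (fun g : CG n k w L → Bool => decide (lay dflt g i j = u)) = fun g =>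
      (decide (∃ a, (Function.Injective
      (fun j b => g (i, a, j, b)) ∧ ∀ a' < a, ¬ Function.Injective (fun j b => g (i, a', j, b))) ∧
      (fun b => g (i, a, j, b)) = u) || decide ((∀ a, ¬ Function.Injective
      (fun j b => g (i, a, j, b))) ∧ dflt j = u)) := by
    funext g
    rw [Bool.eq_iff_iff, Bool.or_eq_true, decide_eq_true_iff, decide_eq_true_iff,
      decide_eq_true_iff]
    exact pick_iff dflt _ j u
  rw [hD]
  exact hC

theorem genPk_AC {n k w L s : ℕ} (dflt : Fin (n + 1) → Slot w) (h1 : (n + 1) ^ 2 ≤ s)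
    (h2 : 4 ≤ s) (h3 : w ≤ s) (h4 : L ≤ s) (p : PK k w) :
    (fun g : CG n k w L → Bool => genPk dflt g p) ∈ AC (lits _) s 20 := by
  classical
  rcases p with ⟨i, u, v⟩ | u
  · refine AC_mono_d (d := 10) (by omega) (by omega) ?_
    refine Circ_or_iff (ι := Fin (n + 1)) ?_
      (fun j g => decide (lay dflt g i.castSucc j = u) && decide (lay dflt g i.succ j = v))
      (fun j => AC_and2 (by omega) (lay_AC dflt h1 (by omega) h3 h4 _ _ _)
        (lay_AC dflt h1 (by omega) h3 h4 _ _ _)) (fun g => ?_)
    · rw [Fintype.card_fin]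
      exact le_trans (by nlinarith) h1
    · simp [genPk]
  · refine AC_mono_d (d := 8) (by omega) (by omega) ?_
    have h5 := lay_AC (k := k) dflt h1 (by omega) h3 h4 0 0 u
    convert h5 using 2
    simp [genPk]

theorem genSk_AC {n k w L s : ℕ} (dflt : Fin (n + 1) → Slot w) (h1 : (n + 1) ^ 2 ≤ s)
    (h2 : 4 ≤ s) (h3 : w ≤ s) (h4 : L ≤ s) (p : SK k w) :
    (fun g : CG n k w L → Bool => genSk dflt g p) ∈ AC (lits _) s 20 := by
  classical
  obtain ⟨i, u⟩ := p
  refine AC_mono_d (d := 8) (by omega) (by omega) ?_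
  have h5 := lay_AC (k := k) dflt h1 (by omega) h3 h4 i 0 u
  convert h5 using 2
  simp [genSk]

theorem encr_AC {k w s : ℕ} (h2 : 4 ≤ s) (h3 : 2 ^ w ≤ s) (p : CT k w) :
    (fun x : PK k w ⊕ Unit ⊕ CE k w → Bool => encr x p) ∈ AC (lits _) s 20 := by
  classical
  have hc : Fintype.card (Slot w) ≤ s := by simpa using h3
  have hs1 : 1 ≤ s := by omega
  have hs2 : 2 ≤ s := by omega
  have hl : ∀ (d : ℕ) (i : PK k w ⊕ Unit ⊕ CE k w),
      (fun x : PK k w ⊕ Unit ⊕ CE k w → Bool => x i) ∈ AC (lits _) s d := fun d i => lit_AC hs1 d i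
  rcases p with ⟨i, u⟩ | u
  · by_cases h : (i : ℕ) < k
    · refine AC_mono_d (d := 4) (by omega) (by omega) ?_
      have e : ∀ v : Slot w, (fun x : PK k w ⊕ Unit ⊕ CE k w → Bool =>
          x (Sum.inl (Sum.inl (⟨i, h⟩, u, v))) && xor (x (Sum.inr (Sum.inr (i, u))))
            (x (Sum.inr (Sum.inr ((⟨i, h⟩ : Fin k).succ, v))))) ∈ AC (lits _) s 3 := fun v =>
        AC_and2 (d := 2) hs2 (hl 2 _) (AC_xor (d := 0) lits_not hs2 (hl 0 _) (hl 0 _))
      refine Circ_or_iff (ι := Slot w) hc _ e (fun x => ?_)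
      simp [encr, h]
    · have h4 : (fun x : PK k w ⊕ Unit ⊕ CE k w → Bool => encr x (Sum.inl (i, u))) =
          fun x => x (Sum.inr (Sum.inr (i, u))) := by
        funext x
        simp [encr, h]
      rw [h4]
      exact hl _ _
  · refine AC_mono_d (d := 4) (by omega) (by omega) ?_
    refine AC_xor (d := 2) lits_not hs2 (hl _ _) ?_
    have e : ∀ u : Slot w, (fun x : PK k w ⊕ Unit ⊕ CE k w → Bool =>
        x (Sum.inl (Sum.inr u)) && x (Sum.inr (Sum.inr (0, u)))) ∈ AC (lits _) s 1 := fun u =>
      AC_and2 (d := 0) hs2 (hl 0 _) (hl 0 _)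
    exact Circ_or_iff (ι := Slot w) hc _ e (fun x => decide_eq_true_iff)

theorem decr_AC {k w s : ℕ} (h2 : 4 ≤ s) (h3 : 2 ^ w ≤ s) (h4 : k + 1 ≤ s)
    (h5 : 2 ^ (k + 1) ≤ s) :
    (decr : (SK k w ⊕ CT k w → Bool) → Bool) ∈ AC (lits _) s 20 := by
  classical
  have hc : Fintype.card (Slot w) ≤ s := by simpa using h3
  have hs1 : 1 ≤ s := by omega
  have hs2 : 2 ≤ s := by omega
  have hl : ∀ (d : ℕ) (i : SK k w ⊕ CT k w),
      (fun x : SK k w ⊕ CT k w → Bool => x i) ∈ AC (lits _) s d := fun d i => lit_AC hs1 d i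
  refine AC_mono_d (d := 6) (by omega) (by omega) ?_
  refine AC_xor (d := 4) lits_not hs2 (hl _ _) ?_
  refine AC_par (d := 2) lits_not (k + 1) h4 h5
    (fun i x => decide (∃ u : Slot w, (x (Sum.inl (i, u)) && x (Sum.inr (Sum.inl (i, u)))) = true))
    (fun i => ?_)
  have e : ∀ u : Slot w, (fun x : SK k w ⊕ CT k w → Bool =>
      x (Sum.inl (i, u)) && x (Sum.inr (Sum.inl (i, u)))) ∈ AC (lits _) s 1 := fun u =>
    AC_and2 (d := 0) hs2 (hl 0 _) (hl 0 _)
  exact Circ_or_iff (ι := Slot w) hc _ e (fun x => decide_eq_true_iff)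

end Pool.Agent.ACP
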