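import Pool.Agent.ACP.Depth
import Pool.Agent.ACP.HonestAC
import Pool.Agent.ACP.Adv

/-!
# The final theorem
-/

set_option linter.unusedVariables false

namespace Pool.Agent.ACP

noncomputable section

/-- number of layers (minus one) -/
private def fkk (n : ℕ) : ℕ := Nat.log 2 (n + 1)

/-- length of the slots -/
private def fww (n : ℕ) : ℕ := 2 * Nat.clog 2 (n + 1)

private lemma fkk_le (n : ℕ) : fkk n + 1 ≤ n + 1 := by
  have := Nat.log_lt_self 2 (x := n + 1) (by omega)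
  unfold fkk
  omega

private lemma pow_fkk (n : ℕ) : 2 ^ (fkk n + 1) ≤ 2 * (n + 1) := by
  have h := Nat.pow_log_le_self 2 (x := n + 1) (by omega)
  rw [pow_succ]
  unfold fkk
  omega

private lemma pow_clog_le (n : ℕ) : 2 ^ Nat.clog 2 (n + 1) ≤ 2 * (n + 1) := by
  rcases Nat.eq_zero_or_pos n with h | h
  · subst h
    simp
  · have h1 := Nat.pow_pred_clog_lt_self (b := 2) (by norm_num) (x := n + 1) (by omega)
    have h2 : 0 < Nat.clog 2 (n + 1) := Nat.clog_pos (by norm_num) (by omega)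
    have h3 : 2 ^ Nat.clog 2 (n + 1) = 2 * 2 ^ (Nat.clog 2 (n + 1)).pred := by
      rw [← pow_succ']
      congr 1
      simp
      omega
    omega

private lemma le_pow_fww (n : ℕ) : (n + 1) ^ 2 ≤ 2 ^ fww n := by
  have h := Nat.le_pow_clog (b := 2) (by norm_num) (n + 1)
  unfold fww
  rw [mul_comm, pow_mul]
  exact Nat.pow_le_pow_left h 2

private lemma pow_fww_le (n : ℕ) : 2 ^ fww n ≤ (2 * (n + 1)) ^ 2 := by
  unfold fww
  rw [mul_comm 2 (Nat.clog 2 (n + 1)), pow_mul]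
  exact Nat.pow_le_pow_left (pow_clog_le n) 2

private lemma fww_le (n : ℕ) : fww n ≤ 2 ^ fww n := Nat.lt_two_pow_self.le

private lemma exists_dflt (n : ℕ) : ∃ f : Fin (n + 1) → Slot (fww n), Function.Injective f := by
  have h : Fintype.card (Fin (n + 1)) ≤ Fintype.card (Slot (fww n)) := by
    rw [Fintype.card_fin, Fintype.card_fun, Fintype.card_bool, Fintype.card_fin]
    have := le_pow_fww n
    nlinarith
  obtain ⟨e⟩ := Function.Embedding.nonempty_of_card_le h
  exact ⟨e, e.injective⟩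

private def fdf (n : ℕ) : Fin (n + 1) → Slot (fww n) := (exists_dflt n).choose

private lemma fdf_inj (n : ℕ) : Function.Injective (fdf n) := (exists_dflt n).choose_spec

private abbrev fCG (n : ℕ) : Type := CG n (fkk n) (fww n) (n + 1)
private abbrev fPK (n : ℕ) : Type := PK (fkk n) (fww n)
private abbrev fSK (n : ℕ) : Type := SK (fkk n) (fww n)
private abbrev fCE (n : ℕ) : Type := CE (fkk n) (fww n)
private abbrev fCT (n : ℕ) : Type := CT (fkk n) (fww n)

/-- the scheme -/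
private def fS : PKE where
  cg n := Fintype.card (fCG n)
  ce n := Fintype.card (fCE n)
  pk n := Fintype.card (fPK n)
  sk n := Fintype.card (fSK n)
  ct n := Fintype.card (fCT n)
  genPk n x i := genPk (fdf n) (fun c : fCG n => x (Fintype.equivFin _ c))
    ((Fintype.equivFin (fPK n)).symm i)
  genSk n x i := genSk (fdf n) (fun c : fCG n => x (Fintype.equivFin _ c))
    ((Fintype.equivFin (fSK n)).symm i)
  enc n x i := encr (fun p : fPK n ⊕ Unit ⊕ fCE n =>
    x (Sum.map (Fintype.equivFin _) (Sum.map id (Fintype.equivFin _)) p))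
    ((Fintype.equivFin (fCT n)).symm i)
  dec n x := decr (fun p : fSK n ⊕ fCT n =>
    x (Sum.map (Fintype.equivFin _) (Fintype.equivFin _) p))

private lemma lits_subst {ι κ : Type} (σ : ι → κ) {s d : ℕ} {f : (ι → Bool) → Bool}
    (hf : f ∈ AC (lits ι) s d) : (fun y : κ → Bool => f (fun i => y (σ i))) ∈ AC (lits κ) s d := by
  have h := AC_subst (B' := lits κ) (s := s) (d' := 0) (fun (y : κ → Bool) (i : ι) => y (σ i))
    (B := lits ι) ?_ hf
  · rwa [zero_add] at h
  · rintro g (⟨i, rfl⟩ | ⟨i, rfl⟩ | ⟨b, rfl⟩)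
    · exact Or.inl ⟨σ i, rfl⟩
    · exact Or.inr (Or.inl ⟨σ i, rfl⟩)
    · exact Or.inr (Or.inr ⟨b, rfl⟩)

private lemma poly_bound (n : ℕ) : (2 * (n + 1)) ^ 9 ≤ n ^ (4 ^ 9) + 4 ^ 9 := by
  rcases Nat.lt_or_ge n 2 with h | h
  · have h1 : (2 * (n + 1)) ^ 9 ≤ 4 ^ 9 := Nat.pow_le_pow_left (by omega) 9
    omega
  · have h1 : 2 * (n + 1) ≤ n ^ 3 := by
      have : 4 ≤ n ^ 2 := by nlinarith
      nlinarith
    calc (2 * (n + 1)) ^ 9 ≤ (n ^ 3) ^ 9 := Nat.pow_le_pow_left h1 9
      _ = n ^ 27 := by rw [← pow_mul]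
      _ ≤ n ^ (4 ^ 9) := Nat.pow_le_pow_right (by omega) (by norm_num)
      _ ≤ _ := Nat.le_add_right _ _

private lemma pow_chain (n : ℕ) {a b : ℕ} (h : a ≤ b) : (2 * (n + 1)) ^ a ≤ (2 * (n + 1)) ^ b :=
  Nat.pow_le_pow_right (by omega) h

private lemma card_slot (w : ℕ) : Fintype.card (Slot w) = 2 ^ w := by
  rw [Fintype.card_fun, Fintype.card_bool, Fintype.card_fin]

private lemma cards (n : ℕ) : Fintype.card (fCG n) ≤ (2 * (n + 1)) ^ 9 ∧
    Fintype.card (fCE n) ≤ (2 * (n + 1)) ^ 9 ∧ Fintype.card (fPK n) ≤ (2 * (n + 1)) ^ 9 ∧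
    Fintype.card (fSK n) ≤ (2 * (n + 1)) ^ 9 ∧ Fintype.card (fCT n) ≤ (2 * (n + 1)) ^ 9 := by
  set N := 2 * (n + 1) with hN
  have hk : fkk n + 1 ≤ N := (fkk_le n).trans (by omega)
  have hw : 2 ^ fww n ≤ N ^ 2 := pow_fww_le n
  have hw' : fww n ≤ N ^ 2 := (fww_le n).trans hw
  have h2 : 2 ≤ N := by omega
  have hpow : ∀ {a b : ℕ}, a ≤ b → N ^ a ≤ N ^ b := fun h => pow_chain n h
  have hCE : (fkk n + 1) * 2 ^ fww n ≤ N ^ 3 := by
    calc (fkk n + 1) * 2 ^ fww n ≤ N * N ^ 2 := Nat.mul_le_mul hk hw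
      _ = N ^ 3 := by ring
  refine ⟨?_, ?_, ?_, ?_, ?_⟩
  · simp only [Fintype.card_prod, Fintype.card_fin]
    calc (fkk n + 1) * ((n + 1) * ((n + 1) * fww n)) ≤ N * (N * (N * N ^ 2)) := by
          gcongr <;> omega
      _ = N ^ 5 := by ring
      _ ≤ N ^ 9 := hpow (by norm_num)
  · simp only [Fintype.card_prod, Fintype.card_fin, card_slot]
    exact hCE.trans (hpow (by norm_num))
  · simp only [Fintype.card_sum, Fintype.card_prod, Fintype.card_fin, card_slot]
    calc fkk n * (2 ^ fww n * 2 ^ fww n) + 2 ^ fww n ≤ N * (N ^ 2 * N ^ 2) + N ^ 2 := by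
          gcongr
          omega
      _ = N ^ 5 + N ^ 2 := by ring
      _ ≤ N ^ 5 + N ^ 5 := Nat.add_le_add_left (hpow (by norm_num)) _
      _ = 2 * N ^ 5 := by ring
      _ ≤ N * N ^ 5 := Nat.mul_le_mul_right _ h2
      _ = N ^ 6 := by ring
      _ ≤ N ^ 9 := hpow (by norm_num)
  · simp only [Fintype.card_prod, Fintype.card_fin, card_slot]
    exact hCE.trans (hpow (by norm_num))
  · simp only [Fintype.card_sum, Fintype.card_prod, Fintype.card_fin, card_slot,
      Fintype.card_unit]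
    calc (fkk n + 1) * 2 ^ fww n + 1 ≤ N ^ 3 + N ^ 3 :=
          Nat.add_le_add hCE (Nat.one_le_pow _ _ (by omega))
      _ = 2 * N ^ 3 := by ring
      _ ≤ N * N ^ 3 := Nat.mul_le_mul_right _ h2
      _ = N ^ 4 := by ring
      _ ≤ N ^ 9 := hpow (by norm_num)

private lemma fS_AC : fS.InAC0 := by
  refine ⟨4 ^ 9, 20, fun n => ?_⟩
  set s := n ^ (4 ^ 9) + 4 ^ 9 with hs
  have hP : (2 * (n + 1)) ^ 9 ≤ s := poly_bound n
  obtain ⟨c1, c2, c3, c4, c5⟩ := cards n
  have hlow : ∀ {a : ℕ}, a ≤ 9 → (2 * (n + 1)) ^ a ≤ s := fun h => (pow_chain n h).trans hP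
  have s1 : (n + 1) ^ 2 ≤ s :=
    (Nat.pow_le_pow_left (by omega) 2).trans (hlow (a := 2) (by norm_num))
  have s2 : 4 ≤ s := le_trans (by norm_num) (Nat.le_add_left (4 ^ 9) (n ^ (4 ^ 9)))
  have s3 : 2 ^ fww n ≤ s := (pow_fww_le n).trans (hlow (by norm_num))
  have s4 : fww n ≤ s := (fww_le n).trans s3
  have s5 : n + 1 ≤ s := le_trans (by nlinarith) s1
  have s6 : fkk n + 1 ≤ s := (fkk_le n).trans s5
  have s7 : 2 ^ (fkk n + 1) ≤ s := (pow_fkk n).trans (by simpa using hlow (a := 1) (by norm_num))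
  refine ⟨c1.trans hP, c2.trans hP, c3.trans hP, c4.trans hP, c5.trans hP, ?_, ?_, ?_, ?_⟩
  · intro i
    exact lits_subst (Fintype.equivFin (fCG n)) (genPk_AC (fdf n) s1 s2 s4 s5 _)
  · intro i
    exact lits_subst (Fintype.equivFin (fCG n)) (genSk_AC (fdf n) s1 s2 s4 s5 _)
  · intro i
    exact lits_subst (Sum.map (Fintype.equivFin (fPK n)) (Sum.map id (Fintype.equivFin (fCE n))))
      (encr_AC s2 s3 _)
  · exact lits_subst (Sum.map (Fintype.equivFin (fSK n)) (Fintype.equivFin (fCT n)))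
      (decr_AC s2 s3 s6 s7)

private lemma fS_enc (n : ℕ) (P : fPK n → Bool) (b : Bool) (r : Fin (fS.ce n) → Bool)
    (i : Fin (fS.ct n)) :
    fS.enc n (Sum.elim (fun j => P ((Fintype.equivFin (fPK n)).symm j))
      (Sum.elim (fun _ => b) r)) i =
    encr (Sum.elim P (Sum.elim (fun _ => b) (fun c : fCE n => r (Fintype.equivFin _ c))))
      ((Fintype.equivFin (fCT n)).symm i) := by
  have h : (fun p : fPK n ⊕ Unit ⊕ fCE n =>
      (Sum.elim (fun j => P ((Fintype.equivFin (fPK n)).symm j)) (Sum.elim (fun _ => b) r) :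
        Fin (fS.pk n) ⊕ Unit ⊕ Fin (fS.ce n) → Bool)
      (Sum.map (Fintype.equivFin (fPK n)) (Sum.map id (Fintype.equivFin (fCE n))) p)) =
      Sum.elim P (Sum.elim (fun _ => b) (fun c : fCE n => r (Fintype.equivFin _ c))) := by
    funext p
    rcases p with p | p | p
    · change P ((Fintype.equivFin (fPK n)).symm ((Fintype.equivFin (fPK n)) p)) = _
      rw [Equiv.symm_apply_apply]
      rfl
    · rfl
    · rfl
  rw [← h]
  rfl

private lemma fS_perfect : fS.Perfect := by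
  intro n g b r
  have h := correct (L := n + 1) (fdf n) (fdf_inj n)
    (fun c : fCG n => g (Fintype.equivFin _ c)) b (fun c : fCE n => r (Fintype.equivFin _ c))
  refine Eq.trans ?_ h
  have e : (fun p : fSK n ⊕ fCT n =>
      (Sum.elim (fS.genSk n g) (fS.ctx n g b r) : Fin (fS.sk n) ⊕ Fin (fS.ct n) → Bool)
      (Sum.map (Fintype.equivFin (fSK n)) (Fintype.equivFin (fCT n)) p)) =
      Sum.elim (genSk (fdf n) fun c => g (Fintype.equivFin (fCG n) c))
        (encr (Sum.elim (genPk (fdf n) fun c => g (Fintype.equivFin (fCG n) c))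
          (Sum.elim (fun _ => b) fun c => r (Fintype.equivFin (fCE n) c)))) := by
    funext p
    rcases p with p | p
    · change genSk (fdf n) (fun c => g (Fintype.equivFin (fCG n) c))
        ((Fintype.equivFin (fSK n)).symm (Fintype.equivFin (fSK n) p)) = _
      rw [Equiv.symm_apply_apply]
      rfl
    · refine (fS_enc n (genPk (fdf n) fun c => g (Fintype.equivFin (fCG n) c)) b r
        (Fintype.equivFin (fCT n) p)).trans ?_
      rw [Equiv.symm_apply_apply]
      rfl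
  rw [← e]
  rfl

/-- the sum over the coins for fixed coins of the adversary -/
private def fsum (n : ℕ) (A : (fPK n ⊕ fCT n → Bool) → Bool) (b : Bool) : ℝ :=
  ∑ g : fCG n → Bool, ∑ r : fCE n → Bool, if A (Sum.elim (genPk (fdf n) g) (encr
        (Sum.elim (genPk (fdf n) g) (Sum.elim (fun _ => b) r)))) = true then (1 : ℝ) else 0

/-- the adversary with fixed coins -/
private def fadv (n m : ℕ) (A : (Fin (fS.pk n) ⊕ Fin (fS.ct n) ⊕ Fin m → Bool) → Bool)
    (t : Fin m → Bool) (y : fPK n ⊕ fCT n → Bool) : Bool :=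
  A (Sum.elim (fun j => y (Sum.inl ((Fintype.equivFin (fPK n)).symm j)))
    (Sum.elim (fun j => y (Sum.inr ((Fintype.equivFin (fCT n)).symm j))) t))

private lemma fadv_AC {n m : ℕ} {A : (Fin (fS.pk n) ⊕ Fin (fS.ct n) ⊕ Fin m → Bool) → Bool}
    {s d : ℕ} (hA : A ∈ AC (lits _) s d) (t : Fin m → Bool) :
    fadv n m A t ∈ AC (lits _) s d := by
  have h := AC_subst (B' := lits (fPK n ⊕ fCT n)) (s := s) (d' := 0)
    (fun (y : fPK n ⊕ fCT n → Bool) =>
      (Sum.elim (fun j => y (Sum.inl ((Fintype.equivFin (fPK n)).symm j)))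
        (Sum.elim (fun j => y (Sum.inr ((Fintype.equivFin (fCT n)).symm j))) t) :
        Fin (fS.pk n) ⊕ Fin (fS.ct n) ⊕ Fin m → Bool)) ?_ hA
  · rw [zero_add] at h
    exact h
  · rintro g (⟨i, rfl⟩ | ⟨i, rfl⟩ | ⟨b, rfl⟩)
    · rcases i with i | i | i
      · exact Or.inl ⟨_, rfl⟩
      · exact Or.inl ⟨_, rfl⟩
      · exact Or.inr (Or.inr ⟨t i, rfl⟩)
    · rcases i with i | i | i
      · exact Or.inr (Or.inl ⟨_, rfl⟩)
      · exact Or.inr (Or.inl ⟨_, rfl⟩)
      · exact Or.inr (Or.inr ⟨!t i, rfl⟩)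
    · exact Or.inr (Or.inr ⟨b, rfl⟩)

private lemma fpr_eq (n m : ℕ) (A : (Fin (fS.pk n) ⊕ Fin (fS.ct n) ⊕ Fin m → Bool) → Bool)
    (b : Bool) : fS.pr n m A b = (∑ t : Fin m → Bool, fsum n (fadv n m A t) b) /
      2 ^ (fS.cg n + fS.ce n + m) := by
  classical
  unfold PKE.pr
  congr 1
  rw [Finset.card_filter]
  push_cast
  rw [Fintype.sum_prod_type]
  simp_rw [Fintype.sum_prod_type]
  have e1 : ∀ t : Fin m → Bool, fsum n (fadv n m A t) b =
      ∑ g : Fin (fS.cg n) → Bool, ∑ r : Fin (fS.ce n) → Bool,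
        if A (Sum.elim (fS.genPk n g) (Sum.elim (fS.ctx n g b r) t)) = true then (1 : ℝ) else 0 := by
    intro t
    unfold fsum
    refine Fintype.sum_equiv (Equiv.arrowCongr (Fintype.equivFin (fCG n)) (Equiv.refl Bool)) _ _
      fun g => ?_
    refine Fintype.sum_equiv (Equiv.arrowCongr (Fintype.equivFin (fCE n)) (Equiv.refl Bool)) _ _
      fun r => ?_
    have hg : ∀ c : fCG n, (Equiv.arrowCongr (Fintype.equivFin (fCG n)) (Equiv.refl Bool) g)
        (Fintype.equivFin (fCG n) c) = g c := by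
      intro c
      simp [Equiv.arrowCongr]
    have hr : ∀ c : fCE n, (Equiv.arrowCongr (Fintype.equivFin (fCE n)) (Equiv.refl Bool) r)
        (Fintype.equivFin (fCE n) c) = r c := by
      intro c
      simp [Equiv.arrowCongr]
    have hpk : ∀ j, fS.genPk n (Equiv.arrowCongr (Fintype.equivFin (fCG n)) (Equiv.refl Bool) g) j
        = genPk (fdf n) g ((Fintype.equivFin (fPK n)).symm j) := by
      intro j
      change genPk (fdf n) (fun c : fCG n =>
        (Equiv.arrowCongr (Fintype.equivFin (fCG n)) (Equiv.refl Bool) g)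
          (Fintype.equivFin (fCG n) c)) _ = _
      rw [show (fun c : fCG n => (Equiv.arrowCongr (Fintype.equivFin (fCG n)) (Equiv.refl Bool) g)
          (Fintype.equivFin (fCG n) c)) = g from funext hg]
    have hct : ∀ j, fS.ctx n (Equiv.arrowCongr (Fintype.equivFin (fCG n)) (Equiv.refl Bool) g) b
        (Equiv.arrowCongr (Fintype.equivFin (fCE n)) (Equiv.refl Bool) r) j =
        encr (Sum.elim (genPk (fdf n) g) (Sum.elim (fun _ => b) r))
          ((Fintype.equivFin (fCT n)).symm j) := by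
      intro j
      have e2 := fS_enc n (genPk (fdf n) g) b
        (Equiv.arrowCongr (Fintype.equivFin (fCE n)) (Equiv.refl Bool) r) j
      rw [show (fun c : fCE n => (Equiv.arrowCongr (Fintype.equivFin (fCE n)) (Equiv.refl Bool) r)
          (Fintype.equivFin (fCE n) c)) = r from funext hr] at e2
      refine Eq.trans ?_ e2
      unfold PKE.ctx
      congr 2
      exact funext hpk
    have harg : fadv n m A t (Sum.elim (genPk (fdf n) g) (encr
        (Sum.elim (genPk (fdf n) g) (Sum.elim (fun _ => b) r)))) =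
        A (Sum.elim (fS.genPk n (Equiv.arrowCongr (Fintype.equivFin (fCG n)) (Equiv.refl Bool) g))
          (Sum.elim (fS.ctx n (Equiv.arrowCongr (Fintype.equivFin (fCG n)) (Equiv.refl Bool) g) b
            (Equiv.arrowCongr (Fintype.equivFin (fCE n)) (Equiv.refl Bool) r)) t)) := by
      unfold fadv
      congr 1
      rw [show fS.genPk n (Equiv.arrowCongr (Fintype.equivFin (fCG n)) (Equiv.refl Bool) g) =
        fun j => genPk (fdf n) g ((Fintype.equivFin (fPK n)).symm j) from funext hpk,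
        show fS.ctx n (Equiv.arrowCongr (Fintype.equivFin (fCG n)) (Equiv.refl Bool) g) b
        (Equiv.arrowCongr (Fintype.equivFin (fCE n)) (Equiv.refl Bool) r) = _ from funext hct]
      rfl
    rw [harg]
  simp_rw [e1]
  calc _ = ∑ g : Fin (fS.cg n) → Bool, ∑ t : Fin m → Bool, ∑ r : Fin (fS.ce n) → Bool,
        (if A (Sum.elim (fS.genPk n g) (Sum.elim (fS.ctx n g b r) t)) = true then (1 : ℝ) else 0) :=
        Finset.sum_congr rfl fun g _ => Finset.sum_comm
    _ = _ := Finset.sum_comm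

private lemma card_pow (ι : Type) [Fintype ι] [DecidableEq ι] :
    (Fintype.card (ι → Bool) : ℝ) = 2 ^ Fintype.card ι := by
  rw [Fintype.card_fun, Fintype.card_bool]
  push_cast
  rfl

private lemma fS_secure : fS.SecureAC0 := by
  classical
  intro c d e
  obtain ⟨k₀, n₁, hcorr⟩ := corr_bound d 1 (2 * c) (e + 1)
  -- exponentials win
  obtain ⟨n₂, hn₂⟩ : ∃ n₂ : ℕ, ∀ n ≥ n₂, ((n : ℝ) + 1) ^ (e + 1) / 2 ^ (n + 1) ≤ 1 / 2 := by
    have h1 := tendsto_pow_const_div_const_pow_of_one_lt (e + 1) (r := (2 : ℝ)) (by norm_num)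
    have h2 := h1.comp (Filter.tendsto_add_atTop_nat 1)
    have h3 := h2.eventually_le_const (show (0 : ℝ) < 1 / 2 by norm_num)
    obtain ⟨n₂, h⟩ := Filter.eventually_atTop.1 h3
    refine ⟨n₂, fun n hn => ?_⟩
    have := h n hn
    simpa using this
  refine ⟨n₁ + n₂ + 2 ^ k₀ + 4, fun n hn m A hA => ?_⟩
  have hpk : 0 < 2 ^ k₀ := by positivity
  have hk : k₀ ≤ fkk n := by
    unfold fkk
    exact Nat.le_log_of_pow_le (by norm_num) (by omega)
  have hs : n ^ c + c ≤ (n + 1) ^ (2 * c) := by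
    have h1 : n ^ c ≤ (n + 1) ^ c := Nat.pow_le_pow_left (by omega) c
    have h2 : c + 1 ≤ (n + 1) ^ c := by
      have : c + 1 ≤ 2 ^ c := Nat.lt_two_pow_self
      exact this.trans (Nat.pow_le_pow_left (by omega) c)
    have h3 : 1 ≤ (n + 1) ^ c := Nat.one_le_pow _ _ (by omega)
    rw [two_mul, pow_add]
    nlinarith
  set ε : ℝ := 1 / ((n + 1 : ℕ) : ℝ) ^ (e + 1) with hε
  have hcorr' : ∀ f ∈ AC (SDT (fkk n) (Fin (n + 1)) 0 1) (n ^ c + c) d,
      |∑ x, chi (0 : Fin (n + 1)) x * (if f x = true then (1 : ℝ) else 0)| ≤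
        ε * Fintype.card (Inp (fkk n) (Fin (n + 1))) := by
    intro f hf
    have h1 := hcorr (n + 1) (by omega) (fkk n) hk (n ^ c + c) hs 0 f hf
    rw [hε, div_mul_eq_mul_div, one_mul, le_div_iff₀ (by positivity)]
    convert h1
  have hadv : ∀ t : Fin m → Bool, |fsum n (fadv n m A t) false - fsum n (fadv n m A t) true| ≤
      (2 * ε + (fkk n + 1) / 2 ^ (n + 1)) * (Fintype.card (fCG n → Bool) *
        Fintype.card (fCE n → Bool)) := by
    intro t
    have := adv_bound (L := n + 1) (fdf n) (le_pow_fww n) (fadv n m A t) (fadv_AC hA t) ε hcorr'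
    exact this
  set δ : ℝ := 2 * ε + (fkk n + 1) / 2 ^ (n + 1) with hδ
  have hmain : |fS.pr n m A false - fS.pr n m A true| ≤ δ := by
    rw [fpr_eq, fpr_eq, ← sub_div, ← Finset.sum_sub_distrib, abs_div,
      abs_of_pos (show (0 : ℝ) < 2 ^ (fS.cg n + fS.ce n + m) by positivity),
      div_le_iff₀ (by positivity)]
    refine (Finset.abs_sum_le_sum_abs _ _).trans ((Finset.sum_le_sum fun t _ => hadv t).trans ?_)
    rw [Finset.sum_const, Finset.card_univ, nsmul_eq_mul, card_pow, card_pow, card_pow,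
      Fintype.card_fin]
    refine le_of_eq ?_
    change _ = δ * 2 ^ (Fintype.card (fCG n) + Fintype.card (fCE n) + m)
    rw [pow_add, pow_add]
    ring
  refine hmain.trans ?_
  have hn4 : (4 : ℝ) ≤ n := by exact_mod_cast (show 4 ≤ n by omega)
  have hne : (0 : ℝ) < (n : ℝ) ^ e := by positivity
  have h1 : 2 * ε ≤ 1 / 2 * (1 / (n : ℝ) ^ e) := by
    have h2 : (n : ℝ) ^ e * 4 ≤ ((n + 1 : ℕ) : ℝ) ^ (e + 1) := by
      rw [pow_succ]
      push_cast
      gcongr
      · linarith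
      · linarith
    rw [hε]
    rw [show (2 : ℝ) * (1 / ((n + 1 : ℕ) : ℝ) ^ (e + 1)) = 2 / ((n + 1 : ℕ) : ℝ) ^ (e + 1) by ring,
      show (1 : ℝ) / 2 * (1 / (n : ℝ) ^ e) = 1 / (2 * (n : ℝ) ^ e) by field_simp,
      div_le_div_iff₀ (by positivity) (by positivity)]
    nlinarith
  have h3 : ((fkk n : ℝ) + 1) / 2 ^ (n + 1) ≤ 1 / 2 * (1 / (n : ℝ) ^ e) := by
    have h4 := hn₂ n (by omega)
    have h5 : ((fkk n : ℝ) + 1) ≤ n + 1 := by exact_mod_cast fkk_le n
    have h6 : ((fkk n : ℝ) + 1) * (n : ℝ) ^ e ≤ ((n : ℝ) + 1) ^ (e + 1) := by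
      rw [pow_succ, mul_comm]
      gcongr
      linarith
    rw [show (1 : ℝ) / 2 * (1 / (n : ℝ) ^ e) = (1 / 2) / (n : ℝ) ^ e by ring, le_div_iff₀ hne,
      div_mul_eq_mul_div]
    exact (div_le_div_of_nonneg_right h6 (by positivity)).trans h4
  rw [hδ]
  linarith

end

theorem exists_pke : ∃ S : PKE, S.InAC0 ∧ S.Perfect ∧ S.SecureAC0 :=
  ⟨fS, fS_AC, fS_perfect, fS_secure⟩

end Pool.Agent.ACP
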