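import Pool.Agent.ACP.HonestAC
import Pool.Agent.ACP.Adv

/-!
# A variant of the scheme with encryption in NC0 (locality 3)
-/

set_option linter.unusedVariables false

namespace Pool.Agent.ACP

/-- ciphertexts of the local variant -/
abbrev CL (k w : ℕ) : Type := (Fin k × Slot w × Slot w) ⊕ (Slot w ⊕ Slot w)

/-- Local encryption: every output bit depends on at most three input bits. -/
def encl {k w : ℕ} (x : PK k w ⊕ Unit ⊕ CE k w → Bool) : CL k w → Bool
  | Sum.inl (i, u, v) => x (Sum.inl (Sum.inl (i, u, v))) &&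
      xor (x (Sum.inr (Sum.inr (i.castSucc, u)))) (x (Sum.inr (Sum.inr (i.succ, v))))
  | Sum.inr (Sum.inl u) => x (Sum.inr (Sum.inr (Fin.last k, u)))
  | Sum.inr (Sum.inr u) => x (Sum.inl (Sum.inr u)) &&
      xor (x (Sum.inr (Sum.inl ()))) (x (Sum.inr (Sum.inr (0, u))))

theorem encl_local {k w : ℕ} (p : CL k w) : ∃ J : Finset (PK k w ⊕ Unit ⊕ CE k w), J.card ≤ 3 ∧
    ∀ x x' : PK k w ⊕ Unit ⊕ CE k w → Bool, (∀ j ∈ J, x j = x' j) → encl x p = encl x' p := by
  classical
  rcases p with ⟨i, u, v⟩ | u | u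
  · refine ⟨{Sum.inl (Sum.inl (i, u, v)), Sum.inr (Sum.inr (i.castSucc, u)),
      Sum.inr (Sum.inr (i.succ, v))}, Finset.card_le_three, ?_⟩
    intro x x' h
    simp only [encl]
    rw [h _ (by simp), h (Sum.inr (Sum.inr (i.castSucc, u))) (by simp),
      h (Sum.inr (Sum.inr (i.succ, v))) (by simp)]
  · refine ⟨{Sum.inr (Sum.inr (Fin.last k, u))}, by simp, ?_⟩
    intro x x' h
    simp only [encl]
    exact h _ (by simp)
  · refine ⟨{Sum.inl (Sum.inr u), Sum.inr (Sum.inl ()), Sum.inr (Sum.inr (0, u))},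
      Finset.card_le_three, ?_⟩
    intro x x' h
    simp only [encl]
    rw [h _ (by simp), h (Sum.inr (Sum.inl ())) (by simp),
      h (Sum.inr (Sum.inr (0, u))) (by simp)]

theorem loc_sel {α : Type} (P q : α → Bool) (u₀ : α) (h : ∀ u, P u = true ↔ u = u₀)
    [Decidable (∃ u, (P u && q u) = true)] : decide (∃ u, (P u && q u) = true) = q u₀ := by
  rw [Bool.eq_iff_iff, decide_eq_true_iff]
  constructor
  · rintro ⟨u, hu⟩
    rw [Bool.and_eq_true] at hu
    rw [← (h u).1 hu.1]
    exact hu.2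
  · intro hq
    refine ⟨u₀, ?_⟩
    rw [Bool.and_eq_true]
    exact ⟨(h u₀).2 rfl, hq⟩

open Classical in
/-- From local ciphertexts to ciphertexts. -/
noncomputable def toC {k w : ℕ} (c : CL k w → Bool) : CT k w → Bool
  | Sum.inl (i, u) => if h : (i : ℕ) < k then decide (∃ v, c (Sum.inl (⟨i, h⟩, u, v)) = true)
      else c (Sum.inr (Sum.inl u))
  | Sum.inr _ => decide (∃ u, c (Sum.inr (Sum.inr u)) = true)

/-- From ciphertexts to local ciphertexts. -/
def toL {k w : ℕ} (y : PK k w ⊕ CT k w → Bool) : CL k w → Bool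
  | Sum.inl (i, u, v) => y (Sum.inl (Sum.inl (i, u, v))) && y (Sum.inr (Sum.inl (i.castSucc, u)))
  | Sum.inr (Sum.inl u) => y (Sum.inr (Sum.inl (Fin.last k, u)))
  | Sum.inr (Sum.inr u) => y (Sum.inl (Sum.inr u)) && y (Sum.inr (Sum.inr ()))

/-- Decryption of local ciphertexts. -/
noncomputable def decl {k w : ℕ} (x : SK k w ⊕ CL k w → Bool) : Bool :=
  decr (Sum.elim (fun p => x (Sum.inl p)) (toC (fun p => x (Sum.inr p))))

section

variable {n k w L : ℕ} (dflt : Fin (n + 1) → Slot w)

theorem toC_encl (g : CG n k w L → Bool) (b : Bool) (r : CE k w → Bool) :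
    toC (encl (Sum.elim (genPk dflt g) (Sum.elim (fun _ => b) r))) =
      encr (Sum.elim (genPk dflt g) (Sum.elim (fun _ => b) r)) := by
  classical
  funext p
  rcases p with ⟨i, u⟩ | _
  · simp only [toC, encr]
    by_cases h : (i : ℕ) < k
    · rw [dif_pos h, dif_pos h]
      rfl
    · rw [dif_neg h, dif_neg h]
      have hi : i = Fin.last k := by
        apply Fin.ext
        have := i.2
        simp only [Fin.val_last]
        omega
      subst hi
      rfl
  · have hS : ∀ u, genPk dflt g (Sum.inr u) = true ↔ u = lay dflt g 0 0 := by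
      intro u
      rw [genPk, decide_eq_true_iff]
      exact eq_comm
    show decide (∃ u : Slot w, (genPk dflt g (Sum.inr u) && xor b (r (0, u))) = true) =
      xor b (decide (∃ u : Slot w, (genPk dflt g (Sum.inr u) && r (0, u)) = true))
    rw [loc_sel (fun u => genPk dflt g (Sum.inr u)) (fun u => xor b (r (0, u))) _ hS,
      loc_sel (fun u => genPk dflt g (Sum.inr u)) (fun u => r (0, u)) _ hS]

theorem toL_encr (hd : Function.Injective dflt) (g : CG n k w L → Bool) (b : Bool)
    (r : CE k w → Bool) :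
    toL (Sum.elim (genPk dflt g) (encr (Sum.elim (genPk dflt g) (Sum.elim (fun _ => b) r)))) =
      encl (Sum.elim (genPk dflt g) (Sum.elim (fun _ => b) r)) := by
  classical
  have hinj : ∀ i, Function.Injective (lay dflt g i) := fun i => pick_inj dflt hd _
  funext p
  rcases p with ⟨i, u, v⟩ | u | u
  · simp only [toL, encl, Sum.elim_inl, Sum.elim_inr]
    by_cases hA : genPk dflt g (Sum.inl (i, u, v)) = true
    · rw [hA, Bool.true_and, Bool.true_and, encr]
      rw [dif_pos (show ((i.castSucc : Fin (k + 1)) : ℕ) < k by simp)]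
      rw [Bool.eq_iff_iff, decide_eq_true_iff]
      have hi : (⟨((i.castSucc : Fin (k + 1)) : ℕ), by simp⟩ : Fin k) = i := by
        apply Fin.ext; simp
      constructor
      · rintro ⟨v', hv'⟩
        rw [Bool.and_eq_true] at hv'
        obtain ⟨h1, h2⟩ := hv'
        rw [hi] at h1 h2
        simp only [Sum.elim_inl, Sum.elim_inr] at h1 h2
        rw [genPk, decide_eq_true_iff] at h1 hA
        obtain ⟨j, hj, hj'⟩ := hA
        obtain ⟨j2, hj2, hj2'⟩ := h1
        have : j = j2 := hinj _ (hj.trans hj2.symm)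
        subst this
        have h3 : v' = v := hj2'.symm.trans hj'
        rw [h3] at h2
        exact h2
      · intro h
        refine ⟨v, ?_⟩
        rw [Bool.and_eq_true, hi]
        exact ⟨hA, h⟩
    · rw [Bool.not_eq_true] at hA
      rw [hA, Bool.false_and, Bool.false_and]
  · simp only [toL, encl, Sum.elim_inr]
    rw [encr, dif_neg (by simp)]
    rfl
  · simp only [toL, encl, Sum.elim_inl, Sum.elim_inr]
    by_cases hS : genPk dflt g (Sum.inr u) = true
    · rw [hS, Bool.true_and, Bool.true_and, encr]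
      rw [genPk, decide_eq_true_iff] at hS
      have h3 : decide (∃ u' : Slot w, ((Sum.elim (genPk dflt g) (Sum.elim (fun _ => b) r) :
          PK k w ⊕ Unit ⊕ CE k w → Bool) (Sum.inl (Sum.inr u')) &&
          (Sum.elim (genPk dflt g) (Sum.elim (fun _ => b) r) :
          PK k w ⊕ Unit ⊕ CE k w → Bool) (Sum.inr (Sum.inr (0, u')))) = true) = r (0, u) := by
        rw [Bool.eq_iff_iff, decide_eq_true_iff]
        constructor
        · rintro ⟨u', hu'⟩
          rw [Bool.and_eq_true] at hu'
          obtain ⟨h1, h2⟩ := hu'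
          simp only [Sum.elim_inl, Sum.elim_inr] at h1 h2
          rw [genPk, decide_eq_true_iff] at h1
          rw [← hS, h1]
          exact h2
        · intro h
          refine ⟨u, ?_⟩
          rw [Bool.and_eq_true]
          refine ⟨?_, h⟩
          simp only [Sum.elim_inl]
          rw [genPk, decide_eq_true_iff]
          exact hS
      rw [h3]
      rfl
    · rw [Bool.not_eq_true] at hS
      rw [hS, Bool.false_and, Bool.false_and]

/-- Perfect correctness of the local variant. -/
theorem correctL (hd : Function.Injective dflt) (g : CG n k w L → Bool) (b : Bool)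
    (r : CE k w → Bool) :
    decl (Sum.elim (genSk dflt g)
      (encl (Sum.elim (genPk dflt g) (Sum.elim (fun _ => b) r)))) = b := by
  have h := correct dflt hd g b r
  rw [← toC_encl] at h
  exact h

end

theorem decl_AC {k w s : ℕ} (h2 : 4 ≤ s) (h3 : 2 ^ w ≤ s) (h4 : k + 1 ≤ s)
    (h5 : 2 ^ (k + 1) ≤ s) :
    (decl : (SK k w ⊕ CL k w → Bool) → Bool) ∈ AC (lits _) s 21 := by
  classical
  have h := AC_subst (B' := lits (SK k w ⊕ CL k w)) (s := s) (d' := 1)
    (fun (x : SK k w ⊕ CL k w → Bool) =>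
      (Sum.elim (fun p => x (Sum.inl p)) (toC (fun p => x (Sum.inr p))) : SK k w ⊕ CT k w → Bool))
    (B := lits (SK k w ⊕ CT k w)) ?_ (decr_AC h2 h3 h4 h5)
  · exact h
  · have hslot : Fintype.card (Slot w) ≤ s := by
      rw [Fintype.card_fun, Fintype.card_bool, Fintype.card_fin]; exact h3
    have hlit : ∀ q : SK k w ⊕ CL k w, (fun x : SK k w ⊕ CL k w → Bool => x q) ∈
        AC (lits _) s 0 := fun q => Or.inl ⟨q, rfl⟩
    have key : ∀ p : SK k w ⊕ CT k w, (fun x : SK k w ⊕ CL k w → Bool =>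
        (Sum.elim (fun p => x (Sum.inl p)) (toC (fun p => x (Sum.inr p))) :
          SK k w ⊕ CT k w → Bool) p) ∈ AC (lits _) s 1 := by
      rintro (p | ⟨i, u⟩ | _)
      · exact AC_mono_d (by omega) (Nat.zero_le 1) (hlit _)
      · by_cases hi : (i : ℕ) < k
        · have := AC_or (s := s) (d := 0) (B := lits (SK k w ⊕ CL k w)) hslot
            (fun (v : Slot w) (x : SK k w ⊕ CL k w → Bool) =>
              x (Sum.inr (Sum.inl (⟨i, hi⟩, u, v)))) (fun v => hlit _)
          have e : (fun x : SK k w ⊕ CL k w → Bool =>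
              (Sum.elim (fun p => x (Sum.inl p)) (toC (fun p => x (Sum.inr p))) :
                SK k w ⊕ CT k w → Bool) (Sum.inr (Sum.inl (i, u)))) = (fun x =>
              decide (∃ v : Slot w, x (Sum.inr (Sum.inl (⟨i, hi⟩, u, v))) = true)) := by
            funext x
            simp only [Sum.elim_inr, toC, dif_pos hi]
          rw [e]
          convert this
        · have e : (fun x : SK k w ⊕ CL k w → Bool =>
              (Sum.elim (fun p => x (Sum.inl p)) (toC (fun p => x (Sum.inr p))) :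
                SK k w ⊕ CT k w → Bool) (Sum.inr (Sum.inl (i, u)))) = (fun x =>
              x (Sum.inr (Sum.inr (Sum.inl u)))) := by
            funext x
            simp only [Sum.elim_inr, toC, dif_neg hi]
          rw [e]
          exact AC_mono_d (by omega) (Nat.zero_le 1) (hlit _)
      · have := AC_or (s := s) (d := 0) (B := lits (SK k w ⊕ CL k w)) hslot
          (fun (v : Slot w) (x : SK k w ⊕ CL k w → Bool) =>
            x (Sum.inr (Sum.inr (Sum.inr v)))) (fun v => hlit _)
        have e : (fun x : SK k w ⊕ CL k w → Bool =>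
            (Sum.elim (fun p => x (Sum.inl p)) (toC (fun p => x (Sum.inr p))) :
              SK k w ⊕ CT k w → Bool) (Sum.inr (Sum.inr ()))) = (fun x =>
            decide (∃ v : Slot w, x (Sum.inr (Sum.inr (Sum.inr v))) = true)) := by
          funext x
          simp only [Sum.elim_inr, toC]
        refine e ▸ ?_
        convert this
    rintro f (⟨p, rfl⟩ | ⟨p, rfl⟩ | ⟨b, rfl⟩)
    · exact key p
    · exact AC_not lits_not (key p)
    · exact AC_mono_d (d := 0) (by omega) (Nat.zero_le 1) (Or.inr (Or.inr ⟨b, rfl⟩))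

theorem encl_AC {k w s : ℕ} (h2 : 4 ≤ s) (p : CL k w) :
    (fun x : PK k w ⊕ Unit ⊕ CE k w → Bool => encl x p) ∈ AC (lits _) s 21 := by
  have hlit : ∀ (q : PK k w ⊕ Unit ⊕ CE k w), (fun x : PK k w ⊕ Unit ⊕ CE k w → Bool => x q) ∈
      AC (lits _) s 0 := fun q => Or.inl ⟨q, rfl⟩
  have hlit2 : ∀ (q : PK k w ⊕ Unit ⊕ CE k w), (fun x : PK k w ⊕ Unit ⊕ CE k w → Bool => x q) ∈
      AC (lits _) s 2 := fun q => AC_mono_d (by omega) (Nat.zero_le 2) (hlit q)
  rcases p with ⟨i, u, v⟩ | u | u
  · exact AC_mono_d (d := 3) (by omega) (by norm_num)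
      (AC_and2 (by omega) (hlit2 _) (AC_xor lits_not (by omega) (hlit _) (hlit _)))
  · exact AC_mono_d (d := 0) (by omega) (by norm_num) (hlit _)
  · exact AC_mono_d (d := 3) (by omega) (by norm_num)
      (AC_and2 (by omega) (hlit2 _) (AC_xor lits_not (by omega) (hlit _) (hlit _)))

/-- The adversary against the scheme made from one against the local variant. -/
def advL {k w : ℕ} (A : (PK k w ⊕ CL k w → Bool) → Bool) (y : PK k w ⊕ CT k w → Bool) : Bool :=
  A (Sum.elim (fun p => y (Sum.inl p)) (toL y))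

theorem advL_AC {k w s d : ℕ} (h2 : 4 ≤ s) (A : (PK k w ⊕ CL k w → Bool) → Bool)
    (hA : A ∈ AC (lits _) s d) : advL A ∈ AC (lits _) s (1 + d) := by
  refine AC_subst (B' := lits (PK k w ⊕ CT k w)) (s := s) (d' := 1)
    (fun (y : PK k w ⊕ CT k w → Bool) =>
      (Sum.elim (fun p => y (Sum.inl p)) (toL y) : PK k w ⊕ CL k w → Bool))
    (B := lits (PK k w ⊕ CL k w)) ?_ hA
  have hlit : ∀ q : PK k w ⊕ CT k w, (fun x : PK k w ⊕ CT k w → Bool => x q) ∈
      AC (lits _) s 0 := fun q => Or.inl ⟨q, rfl⟩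
  have key : ∀ p : PK k w ⊕ CL k w, (fun y : PK k w ⊕ CT k w → Bool =>
      (Sum.elim (fun p => y (Sum.inl p)) (toL y) : PK k w ⊕ CL k w → Bool) p) ∈
        AC (lits _) s 1 := by
    rintro (p | ⟨i, u, v⟩ | u | u)
    · exact AC_mono_d (by omega) (Nat.zero_le 1) (hlit _)
    · exact AC_and2 (by omega) (hlit _) (hlit _)
    · exact AC_mono_d (by omega) (Nat.zero_le 1) (hlit _)
    · exact AC_and2 (by omega) (hlit _) (hlit _)
  rintro f (⟨p, rfl⟩ | ⟨p, rfl⟩ | ⟨b, rfl⟩)
  · exact key p
  · exact AC_not lits_not (key p)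
  · exact AC_mono_d (d := 0) (by omega) (Nat.zero_le 1) (Or.inr (Or.inr ⟨b, rfl⟩))

/-- The advantage against the local variant. -/
theorem adv_boundL {n k w L s d : ℕ} (dflt : Fin (n + 1) → Slot w)
    (hd : Function.Injective dflt) (hw : (n + 1) ^ 2 ≤ 2 ^ w) (h2 : 4 ≤ s)
    (A : (PK k w ⊕ CL k w → Bool) → Bool) (hA : A ∈ AC (lits _) s d) (ε : ℝ)
    (hε : ∀ f ∈ AC (SDT k (Fin (n + 1)) 0 1) s (1 + d),
      |∑ x, chi (0 : Fin (n + 1)) x * (if f x = true then (1 : ℝ) else 0)| ≤
        ε * Fintype.card (Inp k (Fin (n + 1)))) :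
    |(∑ g : CG n k w L → Bool, ∑ r : CE k w → Bool, if A (Sum.elim (genPk dflt g) (encl
        (Sum.elim (genPk dflt g) (Sum.elim (fun _ => false) r)))) = true then (1 : ℝ) else 0) -
     (∑ g : CG n k w L → Bool, ∑ r : CE k w → Bool, if A (Sum.elim (genPk dflt g) (encl
        (Sum.elim (genPk dflt g) (Sum.elim (fun _ => true) r)))) = true then (1 : ℝ) else 0)| ≤
      (2 * ε + (k + 1) / 2 ^ L) * (Fintype.card (CG n k w L → Bool) *
        Fintype.card (CE k w → Bool)) := by
  have h := adv_bound (L := L) dflt hw (advL A) (advL_AC h2 A hA) ε hε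
  have e : ∀ (g : CG n k w L → Bool) (b : Bool) (r : CE k w → Bool),
      advL A (Sum.elim (genPk dflt g) (encr
        (Sum.elim (genPk dflt g) (Sum.elim (fun _ => b) r)))) =
      A (Sum.elim (genPk dflt g) (encl
        (Sum.elim (genPk dflt g) (Sum.elim (fun _ => b) r)))) := by
    intro g b r
    unfold advL
    rw [toL_encr dflt hd]
    rfl
  simp only [e] at h
  exact h

end Pool.Agent.ACP
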