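import Pool.Agent.ACP.Circ

/-!
# The scheme, for fixed parameters: definitions
`n + 1` paths, layers `0, .., k`, slots are strings of `w` bits, `L` samples per layer.
-/

set_option linter.unusedVariables false

namespace Pool.Agent.ACP

abbrev Slot (w : ℕ) : Type := Fin w → Bool

/-- coins of key generation -/
abbrev CG (n k w L : ℕ) : Type := Fin (k + 1) × Fin L × Fin (n + 1) × Fin w
/-- public key: edges and start slot -/
abbrev PK (k w : ℕ) : Type := (Fin k × Slot w × Slot w) ⊕ Slot w
/-- secret key: the path with name 0 -/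
abbrev SK (k w : ℕ) : Type := Fin (k + 1) × Slot w
/-- coins of encryption -/
abbrev CE (k w : ℕ) : Type := Fin (k + 1) × Slot w
/-- ciphertext -/
abbrev CT (k w : ℕ) : Type := (Fin (k + 1) × Slot w) ⊕ Unit

open Classical in
/-- The first injective sample, `dflt` if there is none. -/
noncomputable def pick {n w L : ℕ} (dflt : Fin (n + 1) → Slot w)
    (c : Fin L → Fin (n + 1) → Slot w) : Fin (n + 1) → Slot w :=
  if h : ∃ a, Function.Injective (c a) then
    c ((Finset.univ.filter (fun a => Function.Injective (c a))).min' (by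
      obtain ⟨a, ha⟩ := h
      exact ⟨a, by simpa using ha⟩))
  else dflt

/-- The slots of the paths in layer `i`. -/
noncomputable def lay {n k w L : ℕ} (dflt : Fin (n + 1) → Slot w) (g : CG n k w L → Bool)
    (i : Fin (k + 1)) : Fin (n + 1) → Slot w :=
  pick dflt (fun a j b => g (i, a, j, b))

open Classical in
noncomputable def genPk {n k w L : ℕ} (dflt : Fin (n + 1) → Slot w) (g : CG n k w L → Bool) :
    PK k w → Bool
  | Sum.inl (i, u, v) => decide (∃ j, lay dflt g i.castSucc j = u ∧ lay dflt g i.succ j = v)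
  | Sum.inr u => decide (lay dflt g 0 0 = u)

open Classical in
noncomputable def genSk {n k w L : ℕ} (dflt : Fin (n + 1) → Slot w) (g : CG n k w L → Bool) :
    SK k w → Bool
  | (i, u) => decide (lay dflt g i 0 = u)

open Classical in
/-- Encryption. The input is the public key, the message and the coins. -/
noncomputable def encr {k w : ℕ} (x : PK k w ⊕ Unit ⊕ CE k w → Bool) : CT k w → Bool
  | Sum.inl (i, u) =>
    if h : (i : ℕ) < k then
      decide (∃ v : Slot w, (x (Sum.inl (Sum.inl (⟨i, h⟩, u, v))) &&
        xor (x (Sum.inr (Sum.inr (i, u))))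
          (x (Sum.inr (Sum.inr ((⟨i, h⟩ : Fin k).succ, v))))) = true)
    else x (Sum.inr (Sum.inr (i, u)))
  | Sum.inr _ => xor (x (Sum.inr (Sum.inl ())))
      (decide (∃ u : Slot w, (x (Sum.inl (Sum.inr u)) && x (Sum.inr (Sum.inr (0, u)))) = true))

open Classical in
/-- Decryption. The input is the secret key and the ciphertext. -/
noncomputable def decr {k w : ℕ} (x : SK k w ⊕ CT k w → Bool) : Bool :=
  xor (x (Sum.inr (Sum.inr ())))
    (par (k + 1) (fun i =>
      decide (∃ u : Slot w, (x (Sum.inl (i, u)) && x (Sum.inr (Sum.inl (i, u)))) = true)))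

theorem pick_inj {n w L : ℕ} (dflt : Fin (n + 1) → Slot w) (hd : Function.Injective dflt)
    (c : Fin L → Fin (n + 1) → Slot w) : Function.Injective (pick dflt c) := by
  classical
  unfold pick
  split_ifs with h
  · have hne : (Finset.univ.filter (fun a => Function.Injective (c a))).Nonempty := by
      obtain ⟨a, ha⟩ := h
      exact ⟨a, by simpa using ha⟩
    have h1 := Finset.min'_mem _ hne
    rw [Finset.mem_filter] at h1
    exact h1.2
  · exact hd

private theorem hon_par (k : ℕ) (b : Fin (k + 1) → Bool) :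
    par (k + 1) (fun i => if h : (i : ℕ) < k then xor (b i) (b (⟨i, h⟩ : Fin k).succ) else b i) =
      b 0 := by
  induction k with
  | zero => simp [par]
  | succ k ih =>
    rw [par]
    have h1 := ih (fun i => b i.succ)
    have h2 : (fun i : Fin (k + 1) => (fun i : Fin (k + 2) => if h : (i : ℕ) < k + 1 then
        xor (b i) (b (⟨i, h⟩ : Fin (k + 1)).succ) else b i) i.succ) =
        fun i : Fin (k + 1) => if h : (i : ℕ) < k then
          xor (b i.succ) (b (⟨i, h⟩ : Fin k).succ.succ) else b i.succ := by
      funext i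
      by_cases h : (i : ℕ) < k
      · have h' : (i.succ : ℕ) < k + 1 := by simpa using h
        simp only [dif_pos h, dif_pos h']
        rfl
      · have h' : ¬ (i.succ : ℕ) < k + 1 := by simpa using h
        simp only [dif_neg h, dif_neg h']
    have h3 := congrArg (par (k + 1)) h2
    rw [h1] at h3
    refine (congrArg (xor _) h3).trans ?_
    have h4 : ((0 : Fin (k + 2)) : ℕ) < k + 1 := by simp
    rw [dif_pos h4]
    have h5 : (⟨((0 : Fin (k + 2)) : ℕ), h4⟩ : Fin (k + 1)) = 0 := rfl
    rw [h5]
    simp

private theorem hon_sel {α : Type} (P q : α → Bool) (u₀ : α) (h : ∀ u, P u = true ↔ u = u₀)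
    [Decidable (∃ u, (P u && q u) = true)] : decide (∃ u, (P u && q u) = true) = q u₀ := by
  rw [Bool.eq_iff_iff, decide_eq_true_iff]
  constructor
  · rintro ⟨u, hu⟩
    rw [Bool.and_eq_true] at hu
    rw [← (h u).1 hu.1]
    exact hu.2
  · intro hq
    refine ⟨u₀, ?_⟩
    rw [Bool.and_eq_true]
    exact ⟨(h u₀).2 rfl, hq⟩

/-- Perfect correctness. -/
theorem correct {n k w L : ℕ} (dflt : Fin (n + 1) → Slot w) (hd : Function.Injective dflt)
    (g : CG n k w L → Bool) (b : Bool) (r : CE k w → Bool) :
    decr (Sum.elim (genSk dflt g)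
      (encr (Sum.elim (genPk dflt g) (Sum.elim (fun _ => b) r)))) = b := by
  classical
  have hinj : ∀ i, Function.Injective (lay dflt g i) := fun i => pick_inj dflt hd _
  set E := encr (Sum.elim (genPk dflt g) (Sum.elim (fun _ => b) r)) with hE
  -- the bits of the ciphertext on the path
  have h1 : ∀ i : Fin (k + 1), E (Sum.inl (i, lay dflt g i 0)) =
      if h : (i : ℕ) < k then
        xor (r (i, lay dflt g i 0)) (r ((⟨i, h⟩ : Fin k).succ, lay dflt g (⟨i, h⟩ : Fin k).succ 0))
      else r (i, lay dflt g i 0) := by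
    intro i
    rw [hE, encr]
    by_cases h : (i : ℕ) < k
    · rw [dif_pos h, dif_pos h]
      refine hon_sel (fun v => genPk dflt g (Sum.inl (⟨i, h⟩, lay dflt g i 0, v)))
        (fun v => xor (r (i, lay dflt g i 0)) (r ((⟨i, h⟩ : Fin k).succ, v)))
        (lay dflt g (⟨i, h⟩ : Fin k).succ 0) ?_
      intro v
      rw [genPk, decide_eq_true_iff]
      constructor
      · rintro ⟨j, hj, rfl⟩
        have h2 : (⟨i, h⟩ : Fin k).castSucc = i := rfl
        rw [h2] at hj
        rw [hinj i hj]
      · rintro rfl
        exact ⟨0, rfl, rfl⟩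
    · rw [dif_neg h, dif_neg h]
      rfl
  have h2 : ∀ i : Fin (k + 1), decide (∃ u : Slot w, (genSk dflt g (i, u) &&
      E (Sum.inl (i, u))) = true) = E (Sum.inl (i, lay dflt g i 0)) := by
    intro i
    refine hon_sel (fun u => genSk dflt g (i, u)) (fun u => E (Sum.inl (i, u))) _ ?_
    intro u
    rw [genSk, decide_eq_true_iff]
    exact eq_comm
  have h3 : par (k + 1) (fun i => decide (∃ u : Slot w, (genSk dflt g (i, u) &&
      E (Sum.inl (i, u))) = true)) = r (0, lay dflt g 0 0) := by
    have h4 := hon_par k (fun i => r (i, lay dflt g i 0))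
    rw [← h4]
    congr 1
    funext i
    rw [h2, h1]
  have h5 : E (Sum.inr ()) = xor b (r (0, lay dflt g 0 0)) := by
    rw [hE, encr]
    show xor b (decide (∃ u : Slot w, (genPk dflt g (Sum.inr u) && r (0, u)) = true)) = _
    rw [hon_sel (fun u => genPk dflt g (Sum.inr u)) (fun u => r (0, u)) (lay dflt g 0 0)]
    intro u
    rw [genPk, decide_eq_true_iff]
    exact eq_comm
  have h6 : decr (Sum.elim (genSk dflt g) E) = xor (E (Sum.inr ()))
      (par (k + 1) (fun i => decide (∃ u : Slot w, (genSk dflt g (i, u) &&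
      E (Sum.inl (i, u))) = true))) := by
    rw [decr]
    rfl
  rw [h6, h3, h5, Bool.xor_assoc, Bool.xor_self, Bool.xor_false]

end Pool.Agent.ACP
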