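import Mathlib

/-!
# Public-key encryption by constant-depth circuits: the definitions of the final statement
-/

namespace Pool.Agent.ACP

/-- `AC B s d`: the Boolean functions obtained from functions in `B` by `d` rounds of ANDs and ORs
of fan-in at most `s`. -/
def AC {X : Type} (B : Set (X → Bool)) (s : ℕ) : ℕ → Set (X → Bool)
  | 0 => B
  | d + 1 => {f | ∃ (t : ℕ) (g : Fin t → X → Bool), t ≤ s ∧ (∀ i, g i ∈ AC B s d) ∧
      ((∀ x, f x = true ↔ ∃ i, g i x = true) ∨ (∀ x, f x = true ↔ ∀ i, g i x = true))}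

/-- Bits, negated bits and constants, over bit strings whose positions are the elements of `ι`. -/
def lits (ι : Type) : Set ((ι → Bool) → Bool) :=
  {f | (∃ i, f = fun x => x i) ∨ (∃ i, f = fun x => !x i) ∨ ∃ b, f = fun _ => b}

/-- A public-key encryption scheme for one-bit messages, for every security parameter `n`: the
numbers of coins of key generation (`cg`) and encryption (`ce`), the lengths of the public key, the
secret key and the ciphertext, and the algorithms. -/
structure PKE where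
  cg : ℕ → ℕ
  ce : ℕ → ℕ
  pk : ℕ → ℕ
  sk : ℕ → ℕ
  ct : ℕ → ℕ
  genPk : ∀ n, (Fin (cg n) → Bool) → Fin (pk n) → Bool
  genSk : ∀ n, (Fin (cg n) → Bool) → Fin (sk n) → Bool
  enc : ∀ n, (Fin (pk n) ⊕ Unit ⊕ Fin (ce n) → Bool) → Fin (ct n) → Bool
  dec : ∀ n, (Fin (sk n) ⊕ Fin (ct n) → Bool) → Bool

/-- The ciphertext of the bit `b` under the public key made from the coins `g`, with coins `r`. -/
def PKE.ctx (S : PKE) (n : ℕ) (g : Fin (S.cg n) → Bool) (b : Bool) (r : Fin (S.ce n) → Bool) :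
    Fin (S.ct n) → Bool :=
  S.enc n (Sum.elim (S.genPk n g) (Sum.elim (fun _ => b) r))

/-- All lengths are polynomial and every output bit of every algorithm is computed by a circuit of
polynomial fan-in and constant depth. -/
def PKE.InAC0 (S : PKE) : Prop :=
  ∃ c d : ℕ, ∀ n, S.cg n ≤ n ^ c + c ∧ S.ce n ≤ n ^ c + c ∧ S.pk n ≤ n ^ c + c ∧
    S.sk n ≤ n ^ c + c ∧ S.ct n ≤ n ^ c + c ∧
    (∀ i, (fun x => S.genPk n x i) ∈ AC (lits _) (n ^ c + c) d) ∧
    (∀ i, (fun x => S.genSk n x i) ∈ AC (lits _) (n ^ c + c) d) ∧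
    (∀ i, (fun x => S.enc n x i) ∈ AC (lits _) (n ^ c + c) d) ∧
    S.dec n ∈ AC (lits _) (n ^ c + c) d

/-- Encryption is in NC0 with locality 3: every bit of the ciphertext depends on at most three bits
of the public key, the message and the coins. -/
def PKE.EncLocal (S : PKE) : Prop :=
  ∀ n (i : Fin (S.ct n)), ∃ J : Finset (Fin (S.pk n) ⊕ Unit ⊕ Fin (S.ce n)), J.card ≤ 3 ∧
    ∀ x x', (∀ j ∈ J, x j = x' j) → S.enc n x i = S.enc n x' i

/-- Decryption always gives back the message. -/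
def PKE.Perfect (S : PKE) : Prop :=
  ∀ n g b r, S.dec n (Sum.elim (S.genSk n g) (S.ctx n g b r)) = b

/-- The probability that the adversary `A`, which tosses `m` coins, outputs 1 on the public key and
an encryption of `b`. -/
noncomputable def PKE.pr (S : PKE) (n m : ℕ)
    (A : (Fin (S.pk n) ⊕ Fin (S.ct n) ⊕ Fin m → Bool) → Bool) (b : Bool) : ℝ :=
  (Finset.univ.filter (fun t : (Fin (S.cg n) → Bool) × (Fin (S.ce n) → Bool) × (Fin m → Bool) =>
    A (Sum.elim (S.genPk n t.1) (Sum.elim (S.ctx n t.1 b t.2.1) t.2.2)) = true)).card /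
    2 ^ (S.cg n + S.ce n + m)

/-- Semantic security against all randomised adversaries of polynomial size and constant depth. -/
def PKE.SecureAC0 (S : PKE) : Prop :=
  ∀ c d e : ℕ, ∃ n₀, ∀ n ≥ n₀, ∀ (m : ℕ),
    ∀ A ∈ AC (lits (Fin (S.pk n) ⊕ Fin (S.ct n) ⊕ Fin m)) (n ^ c + c) d,
      |S.pr n m A false - S.pr n m A true| ≤ 1 / (n : ℝ) ^ e

end Pool.Agent.ACP
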