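import Pool.Agent.ACP.Defs

/-!
# Restrictions: names of slots, uniformity, the schemes
-/

set_option linter.unusedVariables false
set_option linter.unusedSectionVars false

namespace Pool.Agent.ACP

variable {k : ℕ} {V W Z U : Type}

/-- The name of an alive slot. -/
theorem phi_symm_inl (e : W ⊕ Z ≃ V) (ρ : Rho k V Z) (x : Inp k W) (i : Fin (k + 1)) (u : V)
    (w : W) (h : (ρ.1 i).symm u = e (Sum.inl w)) :
    ((Phi e ρ x).1 i).symm u = e (Sum.inl ((x.1 i).symm w)) := by
  show (extP e (x.1 i)).symm ((ρ.1 i).symm u) = _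
  rw [h]
  simp [extP]

/-- The name of a dead slot. -/
theorem phi_symm_inr (e : W ⊕ Z ≃ V) (ρ : Rho k V Z) (x : Inp k W) (i : Fin (k + 1)) (u : V)
    (z : Z) (h : (ρ.1 i).symm u = e (Sum.inr z)) :
    ((Phi e ρ x).1 i).symm u = e (Sum.inr z) := by
  show (extP e (x.1 i)).symm ((ρ.1 i).symm u) = _
  rw [h]
  simp [extP]

/-- The label of an alive slot. -/
theorem phi_lab_inl (e : W ⊕ Z ≃ V) (ρ : Rho k V Z) (x : Inp k W) (i : Fin (k + 1)) (u : V)
    (w : W) (h : (ρ.1 i).symm u = e (Sum.inl w)) :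
    (Phi e ρ x).2 i u = x.2 i w := by
  simp [Phi, h]

/-- The label of a dead slot. -/
theorem phi_lab_inr (e : W ⊕ Z ≃ V) (ρ : Rho k V Z) (x : Inp k W) (i : Fin (k + 1)) (u : V)
    (z : Z) (h : (ρ.1 i).symm u = e (Sum.inr z)) :
    (Phi e ρ x).2 i u = ρ.2 i z := by
  simp [Phi, h]

/-- The slot of an alive name. -/
theorem phi_apply_inl (e : W ⊕ Z ≃ V) (ρ : Rho k V Z) (x : Inp k W) (i : Fin (k + 1))
    (w : W) : (Phi e ρ x).1 i (e (Sum.inl w)) = ρ.1 i (e (Sum.inl (x.1 i w))) := by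
  simp [Phi, extP]

/-- The slot of a dead name. -/
theorem phi_apply_inr (e : W ⊕ Z ≃ V) (ρ : Rho k V Z) (x : Inp k W) (i : Fin (k + 1))
    (z : Z) : (Phi e ρ x).1 i (e (Sum.inr z)) = ρ.1 i (e (Sum.inr z)) := by
  simp [Phi, extP]

/-- The bijection behind the uniformity of the restrictions. -/
def restrEquiv (k : ℕ) (e : W ⊕ Z ≃ V) :
    Rho k V Z × Inp k W ≃ (Fin (k + 1) → Equiv.Perm W) × Inp k V where
  toFun p := (p.2.1, Phi e p.1 p.2)
  invFun q := ((fun i => (extP e (q.1 i)).symm.trans (q.2.1 i),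
      fun i z => q.2.2 i (((extP e (q.1 i)).symm.trans (q.2.1 i)) (e (Sum.inr z)))),
    (q.1, fun i w => q.2.2 i (((extP e (q.1 i)).symm.trans (q.2.1 i)) (e (Sum.inl w)))))
  left_inv := by
    rintro ⟨⟨σ, l⟩, ⟨π, y⟩⟩
    have h1 : ∀ i, (extP e (π i)).symm.trans ((extP e (π i)).trans (σ i)) = σ i := by
      intro i
      ext u
      simp
    simp only [Phi, Prod.mk.injEq, true_and]
    refine ⟨⟨funext h1, ?_⟩, ?_⟩
    · funext i z
      rw [h1]
      simp
    · funext i w
      rw [h1]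
      simp
  right_inv := by
    rintro ⟨π, ⟨τ, y⟩⟩
    simp only [Phi, Prod.mk.injEq, true_and]
    refine ⟨?_, ?_⟩
    · funext i
      ext u
      simp
    · funext i u
      set v := ((extP e (π i)).symm.trans (τ i)).symm u with hv
      have hu : u = ((extP e (π i)).symm.trans (τ i)) v := by rw [hv]; simp
      rcases hc : e.symm v with w | z
      · have : v = e (Sum.inl w) := by rw [← hc]; simp
        simp only [Sum.elim_inl]
        rw [← this, ← hu]
      · have : v = e (Sum.inr z) := by rw [← hc]; simp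
        simp only [Sum.elim_inr]
        rw [← this, ← hu]

/-- The restrictions decompose the uniform measure. -/
theorem phi_unif [Fintype V] [DecidableEq V] [Fintype W] [DecidableEq W] [Fintype Z]
    [DecidableEq Z] (e : W ⊕ Z ≃ V) (g : Inp k V → ℝ) :
    (∑ ρ : Rho k V Z, ∑ x : Inp k W, g (Phi e ρ x)) * Fintype.card (Inp k V) =
      Fintype.card (Rho k V Z) * Fintype.card (Inp k W) * ∑ x, g x := by
  have hcard : Fintype.card (Rho k V Z) * Fintype.card (Inp k W) =
      Fintype.card (Fin (k + 1) → Equiv.Perm W) * Fintype.card (Inp k V) := by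
    rw [← Fintype.card_prod, ← Fintype.card_prod]
    exact Fintype.card_congr (restrEquiv k e)
  have hsum : (∑ ρ : Rho k V Z, ∑ x : Inp k W, g (Phi e ρ x)) =
      Fintype.card (Fin (k + 1) → Equiv.Perm W) * ∑ x, g x := by
    rw [← Fintype.sum_prod_type' (f := fun (ρ : Rho k V Z) (x : Inp k W) => g (Phi e ρ x))]
    rw [← Equiv.sum_comp (restrEquiv k e).symm]
    rw [Fintype.sum_prod_type]
    have : ∀ (π : Fin (k + 1) → Equiv.Perm W) (X : Inp k V),
        g (Phi e ((restrEquiv k e).symm (π, X)).1 ((restrEquiv k e).symm (π, X)).2) = g X := by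
      intro π X
      have h := (restrEquiv k e).apply_symm_apply (π, X)
      have h2 : ((restrEquiv k e) ((restrEquiv k e).symm (π, X))).2 = X := by rw [h]
      exact congrArg g h2
    simp only [this]
    rw [Finset.sum_const, Finset.card_univ, nsmul_eq_mul]
  rw [hsum]
  have hc : (Fintype.card (Rho k V Z) : ℝ) * Fintype.card (Inp k W) =
      Fintype.card (Fin (k + 1) → Equiv.Perm W) * Fintype.card (Inp k V) := by
    exact_mod_cast hcard
  rw [hc]
  ring

theorem phi_qry (e : W ⊕ Z ≃ V) (ρ : Rho k V Z) (q : Qry k V) :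
    (∃ a, ∀ x : Inp k W, ans (Phi e ρ x) q = a) ∨
    ∃ (q' : Qry k W) (τ : W ⊕ Bool → V ⊕ Bool), ∀ x, ans (Phi e ρ x) q = τ (ans x q') := by
  have key : ∀ (i : Fin (k + 1)) (u : V), (∃ w, (ρ.1 i).symm u = e (Sum.inl w)) ∨
      ∃ z, (ρ.1 i).symm u = e (Sum.inr z) := by
    intro i u
    rcases hc : e.symm ((ρ.1 i).symm u) with w | z
    · exact Or.inl ⟨w, by rw [← hc]; simp⟩
    · exact Or.inr ⟨z, by rw [← hc]; simp⟩
  cases q with
  | lab i u =>
    rcases key i u with ⟨w, hw⟩ | ⟨z, hz⟩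
    · right
      refine ⟨Qry.lab i w, Sum.elim (fun w => Sum.inl (e (Sum.inl w))) Sum.inr, fun x => ?_⟩
      simp only [ans]
      rw [phi_lab_inl e ρ x i u w hw]
      rfl
    · left
      refine ⟨Sum.inr (ρ.2 i z), fun x => ?_⟩
      simp only [ans]
      rw [phi_lab_inr e ρ x i u z hz]
  | out i u =>
    rcases key i.castSucc u with ⟨w, hw⟩ | ⟨z, hz⟩
    · right
      refine ⟨Qry.out i w, Sum.elim (fun w => Sum.inl (ρ.1 i.succ (e (Sum.inl w)))) Sum.inr,
        fun x => ?_⟩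
      simp only [ans]
      rw [phi_symm_inl e ρ x i.castSucc u w hw, phi_apply_inl]
      rfl
    · left
      refine ⟨Sum.inl (ρ.1 i.succ (e (Sum.inr z))), fun x => ?_⟩
      simp only [ans]
      rw [phi_symm_inr e ρ x i.castSucc u z hz, phi_apply_inr]
  | inn i u =>
    rcases key i.succ u with ⟨w, hw⟩ | ⟨z, hz⟩
    · right
      refine ⟨Qry.inn i w, Sum.elim (fun w => Sum.inl (ρ.1 i.castSucc (e (Sum.inl w)))) Sum.inr,
        fun x => ?_⟩
      simp only [ans]
      rw [phi_symm_inl e ρ x i.succ u w hw, phi_apply_inl]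
      rfl
    · left
      refine ⟨Sum.inl (ρ.1 i.castSucc (e (Sum.inr z))), fun x => ?_⟩
      simp only [ans]
      rw [phi_symm_inr e ρ x i.succ u z hz, phi_apply_inr]

theorem phi_chi (e : W ⊕ Z ≃ V) (ρ : Rho k V Z) (j' : W) (x : Inp k W) :
    chi (e (Sum.inl j')) (Phi e ρ x) = chi j' x := by
  unfold chi
  refine Finset.prod_congr rfl (fun i _ => ?_)
  rw [phi_apply_inl, phi_lab_inl e ρ x i _ (x.1 i j') (by simp)]

/-- The one-stage scheme. -/
noncomputable def Sch.one [Fintype V] [DecidableEq V] [Fintype W] [DecidableEq W] [Fintype Z]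
    [DecidableEq Z] (k : ℕ) (e : W ⊕ Z ≃ V) (j : V) (j' : W) (hj : e (Sum.inl j') = j) :
    Sch k V W j j' where
  Ω := Rho k V Z
  fin := inferInstance
  ne := ⟨(fun _ => Equiv.refl V, fun _ _ => false)⟩
  Φ := Phi e
  st := fun ρ w => ρ.1 0 (e (Sum.inl w))
  start_eq := by
    intro ρ x
    rw [← hj, phi_apply_inl]
  chi_eq := fun ρ x => by rw [← hj]; exact phi_chi e ρ j' x
  qry := phi_qry e
  unif := phi_unif e

/-- The trivial scheme. -/
noncomputable def Sch.triv [Fintype V] [DecidableEq V] (k : ℕ) (j : V) : Sch k V V j j where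
  Ω := Unit
  fin := inferInstance
  ne := inferInstance
  Φ := fun _ x => x
  st := fun _ w => w
  start_eq := fun _ _ => rfl
  chi_eq := fun _ _ => rfl
  qry := fun _ q => Or.inr ⟨q, id, fun _ => rfl⟩
  unif := by
    intro g
    simp [mul_comm]

/-- Composition of schemes. -/
noncomputable def Sch.comp [Fintype V] [DecidableEq V] [Fintype W] [DecidableEq W] [Fintype U]
    [DecidableEq U] {j : V} {j' : W} {j'' : U} (S : Sch k V W j j') (S' : Sch k W U j' j'') :
    Sch k V U j j'' where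
  Ω := S.Ω × S'.Ω
  fin := inferInstance
  ne := inferInstance
  Φ := fun ω x => S.Φ ω.1 (S'.Φ ω.2 x)
  st := fun ω w => S.st ω.1 (S'.st ω.2 w)
  start_eq := by
    intro ω x
    rw [S.start_eq, S'.start_eq]
  chi_eq := by
    intro ω x
    rw [S.chi_eq, S'.chi_eq]
  qry := by
    intro ω q
    rcases S.qry ω.1 q with ⟨a, ha⟩ | ⟨q', τ, h⟩
    · exact Or.inl ⟨a, fun x => ha _⟩
    · rcases S'.qry ω.2 q' with ⟨a, ha⟩ | ⟨q'', τ', h'⟩
      · exact Or.inl ⟨τ a, fun x => by rw [h, ha]⟩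
      · exact Or.inr ⟨q'', fun a => τ (τ' a), fun x => by rw [h, h']⟩
  unif := by
    intro g
    have hW : (0 : ℝ) < Fintype.card (Inp k W) := by
      have : Nonempty (Inp k W) := ⟨(fun _ => Equiv.refl W, fun _ _ => false)⟩
      exact_mod_cast Fintype.card_pos
    have h1 : ∀ ω : S.Ω, (∑ ω' : S'.Ω, ∑ x : Inp k U, g (S.Φ ω (S'.Φ ω' x))) *
        Fintype.card (Inp k W) = Fintype.card S'.Ω * Fintype.card (Inp k U) *
          ∑ x, g (S.Φ ω x) := fun ω => S'.unif (fun x => g (S.Φ ω x))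
    have h2 := S.unif g
    have h3 : (∑ ω : S.Ω × S'.Ω, ∑ x : Inp k U, g (S.Φ ω.1 (S'.Φ ω.2 x))) *
        Fintype.card (Inp k W) = Fintype.card S'.Ω * Fintype.card (Inp k U) *
          ∑ ω : S.Ω, ∑ x, g (S.Φ ω x) := by
      rw [Fintype.sum_prod_type, Finset.sum_mul, Finset.mul_sum]
      exact Finset.sum_congr rfl (fun ω _ => h1 ω)
    have h4 : Fintype.card (S.Ω × S'.Ω) = Fintype.card S.Ω * Fintype.card S'.Ω :=
      Fintype.card_prod _ _
    rw [h4]
    push_cast
    apply mul_right_cancel₀ hW.ne'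
    calc _ = ((∑ ω : S.Ω × S'.Ω, ∑ x : Inp k U, g (S.Φ ω.1 (S'.Φ ω.2 x))) *
        Fintype.card (Inp k W)) * Fintype.card (Inp k V) := by ring
      _ = Fintype.card S'.Ω * Fintype.card (Inp k U) *
          ((∑ ω : S.Ω, ∑ x, g (S.Φ ω x)) * Fintype.card (Inp k V)) := by rw [h3]; ring
      _ = _ := by rw [h2]; ring

end Pool.Agent.ACP
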