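import Pool.Agent.ACP.View

/-!
# The view is a uniform input
-/

set_option linter.unusedVariables false

namespace Pool.Agent.ACP

namespace SV

/-! ### Permuting the names -/

/-- Permutation of the coin positions. -/
def posPerm {n k w L : ℕ} (π : Fin (k + 1) → Equiv.Perm (Fin (n + 1))) : CG n k w L ≃ CG n k w L where
  toFun c := (c.1, c.2.1, π c.1 c.2.2.1, c.2.2.2)
  invFun c := (c.1, c.2.1, (π c.1).symm c.2.2.1, c.2.2.2)
  left_inv c := by simp
  right_inv c := by simp

/-- Permutation of the coins. -/
def gperm {n k w L : ℕ} (π : Fin (k + 1) → Equiv.Perm (Fin (n + 1))) :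
    (CG n k w L → Bool) ≃ (CG n k w L → Bool) where
  toFun g := fun c => g (posPerm π c)
  invFun g := fun c => g ((posPerm π).symm c)
  left_inv g := by funext c; simp
  right_inv g := by funext c; simp

theorem samp_gperm {n k w L : ℕ} (π : Fin (k + 1) → Equiv.Perm (Fin (n + 1)))
    (g : CG n k w L → Bool) (i : Fin (k + 1)) (a : Fin L) :
    (fun (j : Fin (n + 1)) (b : Fin w) => gperm π g (i, a, j, b)) =
      (fun (j : Fin (n + 1)) (b : Fin w) => g (i, a, j, b)) ∘ (π i) := by
  funext j b
  rfl

theorem fails_gperm {n k w L : ℕ} (π : Fin (k + 1) → Equiv.Perm (Fin (n + 1)))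
    (g : CG n k w L → Bool) : Fails (gperm π g) ↔ Fails g := by
  unfold Fails
  simp only [samp_gperm, Equiv.injective_comp]

theorem lay_gperm {n k w L : ℕ} (dflt : Fin (n + 1) → Slot w)
    (π : Fin (k + 1) → Equiv.Perm (Fin (n + 1)))
    (g : CG n k w L → Bool) (hg : ¬ Fails g) (i : Fin (k + 1)) :
    lay dflt (gperm π g) i = lay dflt g i ∘ (π i) := by
  classical
  have h1 : ∃ a, Function.Injective (fun (j : Fin (n + 1)) (b : Fin w) => g (i, a, j, b)) := by
    unfold Fails at hg
    push Not at hg
    exact hg i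
  have h2 : ∃ a, Function.Injective
      (fun (j : Fin (n + 1)) (b : Fin w) => gperm π g (i, a, j, b)) := by
    simpa only [samp_gperm, Equiv.injective_comp] using h1
  have hS : (Finset.univ.filter (fun a => Function.Injective
      (fun (j : Fin (n + 1)) (b : Fin w) => gperm π g (i, a, j, b)))) =
      (Finset.univ.filter (fun a => Function.Injective
      (fun (j : Fin (n + 1)) (b : Fin w) => g (i, a, j, b)))) := by
    simp only [samp_gperm, Equiv.injective_comp]
  unfold lay pick
  rw [dif_pos h2, dif_pos h1]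
  simp only [hS]
  rfl

theorem lay_injective {n k w L : ℕ} (dflt : Fin (n + 1) → Slot w)
    (g : CG n k w L → Bool) (hg : ¬ Fails g) (i : Fin (k + 1)) :
    Function.Injective (lay dflt g i) := by
  classical
  have h1 : ∃ a, Function.Injective (fun (j : Fin (n + 1)) (b : Fin w) => g (i, a, j, b)) := by
    unfold Fails at hg
    push Not at hg
    exact hg i
  unfold lay pick
  rw [dif_pos h1]
  have := Finset.min'_mem (Finset.univ.filter (fun a => Function.Injective
      (fun (j : Fin (n + 1)) (b : Fin w) => g (i, a, j, b))))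
    (by obtain ⟨a, ha⟩ := h1; exact ⟨a, by simpa using ha⟩)
  simpa using (Finset.mem_filter.1 this).2

/-! ### The view as a function of all labels -/

open Classical in
/-- The view when the slots of the paths are `R` and the labels are `ℓ`. -/
noncomputable def full {n k w : ℕ} (R : Fin (k + 1) → Fin (n + 1) → Slot w)
    (ℓ : Fin (k + 1) × Slot w → Bool) (z : Bool) : PK k w ⊕ CT k w → Bool :=
  Sum.elim
    (Sum.elim
      (fun p => decide (∃ j, R p.1.castSucc j = p.2.1 ∧ R p.1.succ j = p.2.2))
      (fun u => decide (R 0 0 = u)))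
    (Sum.elim
      (fun p => if ∃ j, R p.1 j = p.2 then ℓ p else if (p.1 : ℕ) < k then false else ℓ p)
      (fun _ => z))

open Classical in
/-- The labels made by the encryption; unused slots keep the coin. -/
noncomputable def psi {n k w : ℕ} (R : Fin (k + 1) → Fin (n + 1) → Slot w)
    (r : Fin (k + 1) × Slot w → Bool) : Fin (k + 1) × Slot w → Bool := fun p =>
  if h : (p.1 : ℕ) < k then
    if h' : ∃ j, R p.1 j = p.2 then
      xor (r p) (r ((⟨p.1, h⟩ : Fin k).succ, R (⟨p.1, h⟩ : Fin k).succ h'.choose))
    else r p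
  else r p

theorem psi_injective {n k w : ℕ} (R : Fin (k + 1) → Fin (n + 1) → Slot w) :
    Function.Injective (psi R) := by
  intro r r' h
  have key : ∀ i : Fin (k + 1), ∀ u, r (i, u) = r' (i, u) := by
    intro i
    induction i using Fin.reverseInduction with
    | last =>
      intro u
      have := congrFun h (Fin.last k, u)
      simpa [psi] using this
    | cast i ih =>
      intro u
      have := congrFun h (i.castSucc, u)
      unfold psi at this
      have hi : ((i.castSucc : Fin (k + 1)) : ℕ) < k := by simp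
      simp only [hi, dif_pos] at this
      by_cases h' : ∃ j, R i.castSucc j = u
      · rw [dif_pos h', dif_pos h'] at this
        have e : (⟨((i.castSucc : Fin (k + 1)) : ℕ), hi⟩ : Fin k) = i := by
          ext; simp
        rw [e, ih] at this
        revert this
        cases r (i.castSucc, u) <;> cases r' (i.castSucc, u) <;>
          cases r' (i.succ, R i.succ h'.choose) <;> simp
      · rw [dif_neg h', dif_neg h'] at this
        exact this
  funext p
  exact key p.1 p.2

theorem sum_psi {n k w : ℕ} (R : Fin (k + 1) → Fin (n + 1) → Slot w)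
    (G : (Fin (k + 1) × Slot w → Bool) → ℝ) : ∑ r, G (psi R r) = ∑ r, G r :=
  Function.Bijective.sum_comp (Finite.injective_iff_bijective.1 (psi_injective R)) G

theorem psi_last {n k w : ℕ} (R : Fin (k + 1) → Fin (n + 1) → Slot w)
    (r : Fin (k + 1) × Slot w → Bool) (u : Slot w) :
    psi R r (Fin.last k, u) = r (Fin.last k, u) := by
  simp [psi]

theorem psi_used {n k w : ℕ} (R : Fin (k + 1) → Fin (n + 1) → Slot w)
    (hR : ∀ i, Function.Injective (R i))
    (r : Fin (k + 1) × Slot w → Bool) (i : Fin k) (j : Fin (n + 1)) :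
    psi R r (i.castSucc, R i.castSucc j) =
      xor (r (i.castSucc, R i.castSucc j)) (r (i.succ, R i.succ j)) := by
  have hi : ((i.castSucc : Fin (k + 1)) : ℕ) < k := by simp
  have h' : ∃ j', R i.castSucc j' = R i.castSucc j := ⟨j, rfl⟩
  unfold psi
  simp only [hi, dif_pos]
  rw [dif_pos h']
  have e : (⟨((i.castSucc : Fin (k + 1)) : ℕ), hi⟩ : Fin k) = i := by
    ext; simp
  rw [e, hR i.castSucc h'.choose_spec]

/-- Telescoping along a path. -/
theorem par_tel : ∀ (k : ℕ) (a c : Fin (k + 1) → Bool),
    (∀ i : Fin k, a i.castSucc = xor (c i.castSucc) (c i.succ)) →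
    a (Fin.last k) = c (Fin.last k) → par (k + 1) a = c 0
  | 0, a, c, _, h => by
      have : (Fin.last 0 : Fin 1) = 0 := rfl
      rw [this] at h
      simp [par, h]
  | k + 1, a, c, h1, h2 => by
      have ih := par_tel k (fun i => a i.succ) (fun i => c i.succ)
        (fun i => by simpa using h1 i.succ) (by simpa using h2)
      have h0 := h1 0
      rw [par, ih]
      simp only [Fin.castSucc_zero] at h0
      rw [h0]
      cases c 0 <;> cases c (Fin.succ 0) <;> rfl

theorem args_eq {n k w L : ℕ} (dflt : Fin (n + 1) → Slot w) (g : CG n k w L → Bool)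
    (hg : ¬ Fails g) (b : Bool) (r : CE k w → Bool) :
    Sum.elim (genPk dflt g) (encr (Sum.elim (genPk dflt g) (Sum.elim (fun _ => b) r))) =
      full (fun i => lay dflt g i) (psi (fun i => lay dflt g i) r)
        (xor b (par (k + 1) (fun i => psi (fun i => lay dflt g i) r (i, lay dflt g i 0)))) := by
  classical
  have hR : ∀ i, Function.Injective (lay dflt g i) := lay_injective dflt g hg
  funext q
  rcases q with (p | u) | (p | u)
  · rfl
  · rfl
  · obtain ⟨i, u⟩ := p
    by_cases hi : (i : ℕ) < k
    · obtain ⟨i', rfl⟩ : ∃ i' : Fin k, i'.castSucc = i := ⟨⟨i, hi⟩, rfl⟩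
      have e : (⟨((i'.castSucc : Fin (k + 1)) : ℕ), hi⟩ : Fin k) = i' := by
        ext; simp
      by_cases h' : ∃ j, lay dflt g i'.castSucc j = u
      · obtain ⟨j, rfl⟩ := h'
        have hu : ∃ j', lay dflt g i'.castSucc j' = lay dflt g i'.castSucc j := ⟨j, rfl⟩
        simp only [Sum.elim_inr, Sum.elim_inl, full, hu, if_true]
        rw [psi_used (fun i => lay dflt g i) hR r i' j]
        simp only [encr, Sum.elim_inl, Sum.elim_inr]
        rw [dif_pos hi]
        simp only [e, genPk, Bool.and_eq_true, decide_eq_true_eq]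
        rw [Bool.eq_iff_iff, decide_eq_true_iff]
        constructor
        · rintro ⟨v, ⟨j', h1, h2⟩, h3⟩
          have := hR _ h1
          subst this
          rw [h2]
          exact h3
        · intro h
          exact ⟨_, ⟨j, rfl, rfl⟩, h⟩
      · simp only [Sum.elim_inr, Sum.elim_inl, full, h', if_false, hi, if_true]
        simp only [encr, Sum.elim_inl, Sum.elim_inr]
        rw [dif_pos hi]
        simp only [e, genPk, Bool.and_eq_true, decide_eq_true_eq]
        rw [decide_eq_false_iff_not]
        rintro ⟨v, ⟨j', h1, h2⟩, h3⟩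
        exact h' ⟨j', h1⟩
    · have e1 : psi (fun i => lay dflt g i) r (i, u) = r (i, u) := by
        simp [psi, hi]
      simp only [Sum.elim_inr, Sum.elim_inl, full, hi, if_false, e1, ite_self]
      simp only [encr, Sum.elim_inl, Sum.elim_inr]
      rw [dif_neg hi]
  · have h1 : par (k + 1) (fun i => psi (fun i => lay dflt g i) r (i, lay dflt g i 0)) =
        r (0, lay dflt g 0 0) := by
      apply par_tel k _ (fun i => r (i, lay dflt g i 0))
      · intro i
        exact psi_used (fun i => lay dflt g i) hR r i 0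
      · exact psi_last _ r _
    rw [h1]
    change xor b (decide (∃ u : Slot w, (genPk dflt g (Sum.inr u) && r (0, u)) = true)) =
      xor b (r (0, lay dflt g 0 0))
    congr 1
    rw [Bool.eq_iff_iff, decide_eq_true_iff]
    constructor
    · rintro ⟨u', h⟩
      simp only [genPk, Bool.and_eq_true, decide_eq_true_eq] at h
      rw [h.1]
      exact h.2
    · intro h
      exact ⟨lay dflt g 0 0, by simpa [genPk] using h⟩

open Classical in
/-- Overwrite the labels of the used slots. -/
noncomputable def ow {n k w : ℕ} (E : Fin (k + 1) → Fin (n + 1) → Slot w)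
    (a : Fin (k + 1) → Slot w → Bool) (Y : Fin (k + 1) → Fin (n + 1) → Bool) :
    Fin (k + 1) → Slot w → Bool := fun i u =>
  if h : ∃ v, E i v = u then Y i h.choose else a i u

theorem ow_used {n k w : ℕ} (E : Fin (k + 1) → Fin (n + 1) → Slot w)
    (hE : ∀ i, Function.Injective (E i)) (a : Fin (k + 1) → Slot w → Bool)
    (Y : Fin (k + 1) → Fin (n + 1) → Bool) (i : Fin (k + 1)) (v : Fin (n + 1)) :
    ow E a Y i (E i v) = Y i v := by
  have h : ∃ v', E i v' = E i v := ⟨v, rfl⟩
  unfold ow
  rw [dif_pos h, hE i h.choose_spec]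

theorem ow_unused {n k w : ℕ} (E : Fin (k + 1) → Fin (n + 1) → Slot w)
    (a : Fin (k + 1) → Slot w → Bool)
    (Y : Fin (k + 1) → Fin (n + 1) → Bool) (i : Fin (k + 1)) (u : Slot w)
    (h : ¬ ∃ v, E i v = u) : ow E a Y i u = a i u := by
  unfold ow
  rw [dif_neg h]

theorem view_eq {n k w : ℕ} (E : Fin (k + 1) → Fin (n + 1) → Slot w)
    (hE : ∀ i, Function.Injective (E i)) (a : Fin (k + 1) → Slot w → Bool)
    (π : Fin (k + 1) → Equiv.Perm (Fin (n + 1))) (Y : Fin (k + 1) → Fin (n + 1) → Bool)
    (z : Bool) :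
    view E a (π, Y) z = full (fun i => E i ∘ (π i)) (fun p => ow E a Y p.1 p.2) z := by
  classical
  funext q
  rcases q with (p | u) | (p | u)
  · rfl
  · rfl
  · obtain ⟨i, u⟩ := p
    by_cases h : ∃ v, E i v = u
    · have h' : ∃ j, (E i ∘ (π i)) j = u := by
        obtain ⟨v, hv⟩ := h
        exact ⟨(π i).symm v, by simp [hv]⟩
      simp only [view, full, Sum.elim_inr, Sum.elim_inl, h', if_true]
      rw [dif_pos h]
      unfold ow
      rw [dif_pos h]
    · have h' : ¬ ∃ j, (E i ∘ (π i)) j = u := by
        rintro ⟨j, hj⟩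
        exact h ⟨π i j, hj⟩
      simp only [view, full, Sum.elim_inr, Sum.elim_inl, h', if_false]
      rw [dif_neg h, ow_unused E a Y i u h]
  · rfl

/-- The swap of the labels of the used slots. -/
noncomputable def swp {n k w : ℕ} (E : Fin (k + 1) → Fin (n + 1) → Slot w)
    (t : (Fin (k + 1) → Slot w → Bool) × (Fin (k + 1) → Fin (n + 1) → Bool)) :
    (Fin (k + 1) → Slot w → Bool) × (Fin (k + 1) → Fin (n + 1) → Bool) :=
  (ow E t.1 t.2, fun i v => t.1 i (E i v))

theorem swp_invol {n k w : ℕ} (E : Fin (k + 1) → Fin (n + 1) → Slot w)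
    (hE : ∀ i, Function.Injective (E i)) : Function.Involutive (swp E) := by
  rintro ⟨a, Y⟩
  unfold swp
  ext i u
  · by_cases h : ∃ v, E i v = u
    · obtain ⟨v, rfl⟩ := h
      simp only
      rw [ow_used E hE]
    · simp only
      rw [ow_unused E _ _ i u h, ow_unused E _ _ i u h]
  · simp only
    rw [ow_used E hE]

theorem sum_ow {n k w : ℕ} (E : Fin (k + 1) → Fin (n + 1) → Slot w)
    (hE : ∀ i, Function.Injective (E i)) (G : (Fin (k + 1) × Slot w → Bool) → ℝ) :
    ∑ a : Fin (k + 1) → Slot w → Bool, ∑ Y : Fin (k + 1) → Fin (n + 1) → Bool,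
      G (fun p => ow E a Y p.1 p.2) =
    Fintype.card (Fin (k + 1) → Fin (n + 1) → Bool) * ∑ r, G r := by
  classical
  have h1 : ∑ a : Fin (k + 1) → Slot w → Bool, ∑ Y : Fin (k + 1) → Fin (n + 1) → Bool,
      G (fun p => ow E a Y p.1 p.2) =
      ∑ t : (Fin (k + 1) → Slot w → Bool) × (Fin (k + 1) → Fin (n + 1) → Bool),
        G (fun p => (swp E t).1 p.1 p.2) := by
    rw [Fintype.sum_prod_type]
    rfl
  have h2 : ∑ t : (Fin (k + 1) → Slot w → Bool) × (Fin (k + 1) → Fin (n + 1) → Bool),
        G (fun p => (swp E t).1 p.1 p.2) =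
      ∑ t : (Fin (k + 1) → Slot w → Bool) × (Fin (k + 1) → Fin (n + 1) → Bool),
        G (fun p => t.1 p.1 p.2) :=
    Function.Bijective.sum_comp (swp_invol E hE).bijective
      (fun t : (Fin (k + 1) → Slot w → Bool) × (Fin (k + 1) → Fin (n + 1) → Bool) =>
        G (fun p => t.1 p.1 p.2))
  have h3 : ∑ a : Fin (k + 1) → Slot w → Bool, G (fun p => a p.1 p.2) = ∑ r, G r :=
    Equiv.sum_comp (Equiv.curry (Fin (k + 1)) (Slot w) Bool).symm G
  rw [h1, h2, Fintype.sum_prod_type, ← h3]
  simp [Finset.mul_sum]

end SV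

open SV in
/-- The sum over the coins that do not fail, in terms of uniform inputs. -/
theorem sum_view {n k w L : ℕ} (dflt : Fin (n + 1) → Slot w) (b : Bool)
    (A : (PK k w ⊕ CT k w → Bool) → ℝ) :
    open Classical in
    (∑ g : CG n k w L → Bool, ∑ r : CE k w → Bool, if Fails g then 0 else
      A (Sum.elim (genPk dflt g) (encr (Sum.elim (genPk dflt g) (Sum.elim (fun _ => b) r))))) *
      Fintype.card (Inp k (Fin (n + 1))) =
    ∑ g : CG n k w L → Bool, ∑ a : Fin (k + 1) → Slot w → Bool, if Fails g then 0 else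
      ∑ x : Inp k (Fin (n + 1)), A (view (fun i => lay dflt g i) a x
        (xor b (par (k + 1) (fun i => x.2 i (x.1 i 0))))) := by
  classical
  -- the sum does not change when the names are permuted
  have h1 : ∀ π : Fin (k + 1) → Equiv.Perm (Fin (n + 1)),
      (∑ g : CG n k w L → Bool, ∑ r : CE k w → Bool, if Fails g then 0 else
        A (Sum.elim (genPk dflt g)
          (encr (Sum.elim (genPk dflt g) (Sum.elim (fun _ => b) r))))) *
        Fintype.card (Fin (k + 1) → Fin (n + 1) → Bool) =
      ∑ g : CG n k w L → Bool, ∑ a : Fin (k + 1) → Slot w → Bool,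
        ∑ Y : Fin (k + 1) → Fin (n + 1) → Bool, if Fails g then 0 else
          A (view (fun i => lay dflt g i) a (π, Y)
            (xor b (par (k + 1) (fun i => Y i (π i 0))))) := by
    intro π
    rw [← Equiv.sum_comp (gperm π), Finset.sum_mul]
    apply Finset.sum_congr rfl
    intro g _
    by_cases hg : Fails g
    · have hg' : Fails (gperm π g) := (fails_gperm π g).2 hg
      simp [hg, hg']
    · have hg' : ¬ Fails (gperm π g) := fun h => hg ((fails_gperm π g).1 h)
      simp only [hg, hg', if_false]
      have hE : ∀ i, Function.Injective (lay dflt g i) := lay_injective dflt g hg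
      have e2 : ∀ i, lay dflt (gperm π g) i = lay dflt g i ∘ (π i) :=
        fun i => lay_gperm dflt π g hg i
      set G : (Fin (k + 1) × Slot w → Bool) → ℝ := fun ℓ =>
        A (full (fun i => lay dflt g i ∘ (π i)) ℓ
          (xor b (par (k + 1) (fun i => ℓ (i, lay dflt g i (π i 0)))))) with hG
      have h2 : ∀ r : CE k w → Bool,
          A (Sum.elim (genPk dflt (gperm π g))
            (encr (Sum.elim (genPk dflt (gperm π g)) (Sum.elim (fun _ => b) r)))) =
          G (psi (fun i => lay dflt g i ∘ (π i)) r) := by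
        intro r
        rw [args_eq dflt (gperm π g) hg' b r, hG]
        simp only [e2]
        rfl
      have h3 : ∀ (a : Fin (k + 1) → Slot w → Bool) (Y : Fin (k + 1) → Fin (n + 1) → Bool),
          A (view (fun i => lay dflt g i) a (π, Y)
            (xor b (par (k + 1) (fun i => Y i (π i 0))))) =
          G (fun p => ow (fun i => lay dflt g i) a Y p.1 p.2) := by
        intro a Y
        rw [view_eq _ hE, hG]
        simp only
        have : ∀ i, ow (fun i => lay dflt g i) a Y i (lay dflt g i (π i 0)) = Y i (π i 0) :=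
          fun i => ow_used (fun i => lay dflt g i) hE a Y i (π i 0)
        simp only [this]
      simp only [h2, h3]
      rw [sum_psi, sum_ow _ hE, mul_comm]
  have h4 : ((Fintype.card (Inp k (Fin (n + 1))) : ℕ) : ℝ) =
      Fintype.card (Fin (k + 1) → Equiv.Perm (Fin (n + 1))) *
        Fintype.card (Fin (k + 1) → Fin (n + 1) → Bool) := by
    rw [← Nat.cast_mul, Fintype.card_prod]
  have h5 : (∑ g : CG n k w L → Bool, ∑ r : CE k w → Bool, if Fails g then 0 else
        A (Sum.elim (genPk dflt g)
          (encr (Sum.elim (genPk dflt g) (Sum.elim (fun _ => b) r))))) *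
      Fintype.card (Inp k (Fin (n + 1))) =
      ∑ π : Fin (k + 1) → Equiv.Perm (Fin (n + 1)),
      ∑ g : CG n k w L → Bool, ∑ a : Fin (k + 1) → Slot w → Bool,
        ∑ Y : Fin (k + 1) → Fin (n + 1) → Bool, if Fails g then 0 else
          A (view (fun i => lay dflt g i) a (π, Y)
            (xor b (par (k + 1) (fun i => Y i (π i 0))))) := by
    rw [h4, mul_comm (Fintype.card (Fin (k + 1) → Equiv.Perm (Fin (n + 1))) : ℝ), ← mul_assoc]
    simp only [← h1]
    rw [Finset.sum_const, Finset.card_univ, nsmul_eq_mul]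
    ring
  rw [h5, Finset.sum_comm]
  apply Finset.sum_congr rfl
  intro g _
  rw [Finset.sum_comm]
  apply Finset.sum_congr rfl
  intro a _
  by_cases hg : Fails g
  · simp [hg]
  · simp only [hg, if_false]
    rw [Fintype.sum_prod_type]

end Pool.Agent.ACP
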