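import Pool.Agent.ACP.Honest
import Pool.Agent.ACP.Basic

/-!
# Failures and the view of the adversary
-/

set_option linter.unusedVariables false

namespace Pool.Agent.ACP

/-- All samples of some layer fail to be injective. -/
def Fails {n k w L : ℕ} (g : CG n k w L → Bool) : Prop :=
  ∃ i : Fin (k + 1), ∀ a : Fin L,
    ¬ Function.Injective (fun (j : Fin (n + 1)) (b : Fin w) => g (i, a, j, b))

/-- Coincidences of two given values are rare. -/
theorem vw_coll {J S : Type} [Fintype J] [DecidableEq J] [Fintype S] [DecidableEq S]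
    (j j' : J) (hj : j ≠ j') :
    (Finset.univ.filter (fun c : J → S => c j = c j')).card * Fintype.card S ≤
      Fintype.card (J → S) := by
  rw [← Finset.card_univ (α := S), ← Finset.card_product, ← Finset.card_univ]
  apply Finset.card_le_card_of_injOn (fun t => Function.update t.1 j t.2)
  · intro t _
    simp
  · rintro ⟨c, y⟩ hc ⟨c', y'⟩ hc' h
    simp only [Finset.coe_product, Set.mem_prod, Finset.mem_coe, Finset.mem_filter,
      Finset.mem_univ, true_and, and_true] at hc hc'
    simp only at h
    have h1 : y = y' := by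
      have := congrFun h j
      simpa using this
    have h2 : ∀ i, i ≠ j → c i = c' i := by
      intro i hi
      have := congrFun h i
      simpa [Function.update_of_ne hi] using this
    have h3 : c = c' := by
      funext i
      by_cases hi : i = j
      · subst hi
        rw [hc, hc']
        exact h2 j' (Ne.symm hj)
      · exact h2 i hi
    rw [h1, h3]

open Classical in
/-- At least half of the samples are injective. -/
theorem vw_half {n w : ℕ} (hw : (n + 1) ^ 2 ≤ 2 ^ w) :
    2 * (Finset.univ.filter (fun c : Fin (n + 1) → Slot w => ¬ Function.Injective c)).card ≤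
      Fintype.card (Fin (n + 1) → Slot w) := by
  set N := Fintype.card (Fin (n + 1) → Slot w) with hN
  set M := Fintype.card (Slot w) with hM
  have hMw : M = 2 ^ w := by simp [hM, Slot]
  have hMpos : 0 < M := by rw [hMw]; positivity
  set P := (Finset.univ.filter (fun t : Fin (n + 1) × Fin (n + 1) => t.1 ≠ t.2)) with hP
  have hPc : P.card ≤ (n + 1) ^ 2 := by
    calc P.card ≤ (Finset.univ : Finset (Fin (n + 1) × Fin (n + 1))).card :=
          Finset.card_le_card (Finset.filter_subset _ _)
      _ = (n + 1) ^ 2 := by simp [sq]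
  have h1 : 2 * (Finset.univ.filter
      (fun c : Fin (n + 1) → Slot w => ¬ Function.Injective c)).card ≤
      ∑ t ∈ P, (Finset.univ.filter (fun c : Fin (n + 1) → Slot w => c t.1 = c t.2)).card := by
    have e : ∀ t : Fin (n + 1) × Fin (n + 1),
        (Finset.univ.filter (fun c : Fin (n + 1) → Slot w => c t.1 = c t.2)).card =
        ∑ c : Fin (n + 1) → Slot w, if c t.1 = c t.2 then 1 else 0 := by
      intro t
      rw [Finset.card_filter]
    simp only [e]
    rw [Finset.sum_comm, Finset.card_filter, Finset.mul_sum]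
    apply Finset.sum_le_sum
    intro c _
    by_cases hc : Function.Injective c
    · simp [hc]
    · simp only [hc, not_false_eq_true, if_true]
      unfold Function.Injective at hc
      push Not at hc
      obtain ⟨j, j', h1, h2⟩ := hc
      have hsub : ({(j, j'), (j', j)} : Finset (Fin (n + 1) × Fin (n + 1))) ⊆ P := by
        intro t ht
        simp only [Finset.mem_insert, Finset.mem_singleton] at ht
        rcases ht with rfl | rfl
        · simp [hP, h2]
        · simp [hP, Ne.symm h2]
      have hne : (j, j') ≠ (j', j) := fun h => h2 (Prod.mk.inj h).1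
      have hp := Finset.sum_pair (f := fun t : Fin (n + 1) × Fin (n + 1) =>
        if c t.1 = c t.2 then 1 else 0) hne
      have hq : (∑ t ∈ ({(j, j'), (j', j)} : Finset (Fin (n + 1) × Fin (n + 1))),
          if c t.1 = c t.2 then 1 else 0) = 2 := by
        rw [hp]
        simp [h1]
      rw [mul_one, ← hq]
      exact Finset.sum_le_sum_of_subset hsub
  have h2 : (∑ t ∈ P, (Finset.univ.filter
      (fun c : Fin (n + 1) → Slot w => c t.1 = c t.2)).card) * M ≤ M * N := by
    rw [Finset.sum_mul]
    calc ∑ t ∈ P, (Finset.univ.filter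
        (fun c : Fin (n + 1) → Slot w => c t.1 = c t.2)).card * M ≤ ∑ _t ∈ P, N := by
          apply Finset.sum_le_sum
          intro t ht
          exact vw_coll t.1 t.2 (by simpa [hP] using ht)
      _ = P.card * N := by simp
      _ ≤ M * N := by
          apply Nat.mul_le_mul_right
          rw [hMw]
          exact hPc.trans hw
  have h3 := Nat.mul_le_mul_right M h1
  have h4 : 2 * (Finset.univ.filter
      (fun c : Fin (n + 1) → Slot w => ¬ Function.Injective c)).card * M ≤ N * M :=
    h3.trans (by rw [mul_comm N M]; exact h2)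
  exact Nat.le_of_mul_le_mul_right h4 hMpos

/-- The coins as samples. -/
def vwCur (n k w L : ℕ) : (CG n k w L → Bool) ≃ (Fin (k + 1) × Fin L → Fin (n + 1) → Slot w) where
  toFun g := fun p j b => g (p.1, p.2, j, b)
  invFun h := fun c => h (c.1, c.2.1) c.2.2.1 c.2.2.2
  left_inv g := rfl
  right_inv h := rfl

open Classical in
/-- Failures in a given layer are rare. -/
theorem vw_layer {n k w L : ℕ} (hw : (n + 1) ^ 2 ≤ 2 ^ w) (i : Fin (k + 1)) :
    (Finset.univ.filter (fun g : CG n k w L → Bool => ∀ a : Fin L,
      ¬ Function.Injective (fun (j : Fin (n + 1)) (b : Fin w) => g (i, a, j, b)))).card * 2 ^ L ≤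
      Fintype.card (CG n k w L → Bool) := by
  set T : Fin (k + 1) × Fin L → Finset (Fin (n + 1) → Slot w) := fun p =>
    if p.1 = i then Finset.univ.filter (fun c => ¬ Function.Injective c) else Finset.univ with hT
  have h1 : (Finset.univ.filter (fun g : CG n k w L → Bool => ∀ a : Fin L,
      ¬ Function.Injective (fun (j : Fin (n + 1)) (b : Fin w) => g (i, a, j, b)))).card =
      (Fintype.piFinset T).card := by
    apply Finset.card_equiv (vwCur n k w L)
    intro g
    simp only [Finset.mem_filter, Finset.mem_univ, true_and, Fintype.mem_piFinset, hT]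
    constructor
    · rintro h ⟨i', a⟩
      by_cases hi : i' = i
      · subst hi
        simp only [if_true, Finset.mem_filter, Finset.mem_univ, true_and]
        exact h a
      · simp [hi]
    · intro h a
      have := h (i, a)
      simp only [if_true, Finset.mem_filter, Finset.mem_univ, true_and] at this
      exact this
  have h2 : (2 : ℕ) ^ L = ∏ p : Fin (k + 1) × Fin L, (if p.1 = i then 2 else 1) := by
    rw [Fintype.prod_prod_type, Finset.prod_eq_single i]
    · simp
    · intro b _ hb
      simp [hb]
    · simp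
  rw [h1, Fintype.card_piFinset, h2, ← Finset.prod_mul_distrib]
  rw [Fintype.card_congr (vwCur n k w L), Fintype.card_fun, ← Finset.card_univ (α := Fin (k + 1) × Fin L),
    ← Finset.prod_const]
  apply Finset.prod_le_prod'
  intro p _
  by_cases hi : p.1 = i
  · simp only [hT, hi, if_true]
    rw [mul_comm]
    exact vw_half hw
  · simp [hT, hi]

open Classical in
/-- Failures are rare. -/
theorem fails_card {n k w L : ℕ} (hw : (n + 1) ^ 2 ≤ 2 ^ w) :
    (Finset.univ.filter (fun g : CG n k w L → Bool => Fails g)).card * 2 ^ L ≤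
      (k + 1) * Fintype.card (CG n k w L → Bool) := by
  have h1 : (Finset.univ.filter (fun g : CG n k w L → Bool => Fails g)) ⊆
      Finset.univ.biUnion (fun i : Fin (k + 1) =>
        Finset.univ.filter (fun g : CG n k w L → Bool => ∀ a : Fin L,
          ¬ Function.Injective (fun (j : Fin (n + 1)) (b : Fin w) => g (i, a, j, b)))) := by
    intro g hg
    simp only [Finset.mem_filter, Finset.mem_univ, true_and] at hg
    obtain ⟨i, hi⟩ := hg
    simp only [Finset.mem_biUnion, Finset.mem_filter, Finset.mem_univ, true_and]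
    exact ⟨i, hi⟩
  calc (Finset.univ.filter (fun g : CG n k w L → Bool => Fails g)).card * 2 ^ L
      ≤ (∑ i : Fin (k + 1), (Finset.univ.filter (fun g : CG n k w L → Bool => ∀ a : Fin L,
          ¬ Function.Injective (fun (j : Fin (n + 1)) (b : Fin w) => g (i, a, j, b)))).card) *
          2 ^ L :=
        Nat.mul_le_mul_right _ ((Finset.card_le_card h1).trans Finset.card_biUnion_le)
    _ ≤ ∑ _i : Fin (k + 1), Fintype.card (CG n k w L → Bool) := by
        rw [Finset.sum_mul]
        exact Finset.sum_le_sum fun i _ => vw_layer hw i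
    _ = (k + 1) * Fintype.card (CG n k w L → Bool) := by simp

open Classical in
/-- The view of the adversary when the slots in use are given by `E` and the names by `x`. -/
noncomputable def view {n k w : ℕ} (E : Fin (k + 1) → Fin (n + 1) → Slot w)
    (a : Fin (k + 1) → Slot w → Bool) (x : Inp k (Fin (n + 1))) (z : Bool) :
    PK k w ⊕ CT k w → Bool :=
  Sum.elim
    (Sum.elim
      (fun p => decide (∃ j, E p.1.castSucc (x.1 p.1.castSucc j) = p.2.1 ∧
        E p.1.succ (x.1 p.1.succ j) = p.2.2))
      (fun u => decide (E 0 (x.1 0 0) = u)))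
    (Sum.elim
      (fun p => if h : ∃ v, E p.1 v = p.2 then x.2 p.1 h.choose
        else if (p.1 : ℕ) < k then false else a p.1 p.2)
      (fun _ => z))

/-- Pulling circuits back along a map. -/
theorem vw_pull {X Y : Type} {B : Set (X → Bool)} {B' : Set (Y → Bool)} {s : ℕ} (φ : Y → X)
    (hB : ∀ f ∈ B, (fun y => f (φ y)) ∈ B') : ∀ (d : ℕ) {f : X → Bool}, f ∈ AC B s d →
    (fun y => f (φ y)) ∈ AC B' s d
  | 0, f, hf => hB f hf
  | d + 1, f, hf => by
      obtain ⟨t, g, ht, hg, h⟩ := hf
      refine ⟨t, fun i y => g i (φ y), ht, fun i => vw_pull φ hB d (hg i), ?_⟩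
      rcases h with h | h
      · left
        intro y
        exact h (φ y)
      · right
        intro y
        exact h (φ y)

theorem vw_const {k : ℕ} {V : Type} (j : V) (b : Bool) :
    (fun _ : Inp k V => b) ∈ SDT k V j 1 :=
  ⟨fun _ _ => b, fun _ => Or.inl ⟨b, fun _ => rfl⟩, fun _ => rfl⟩

theorem vw_not {k : ℕ} {V : Type} (j : V) {f : Inp k V → Bool} (hf : f ∈ SDT k V j 1) :
    (fun x => !f x) ∈ SDT k V j 1 := by
  obtain ⟨D, hD, h⟩ := hf
  exact ⟨fun u x => !D u x, fun u => DT_not (hD u), fun x => by simp only [h]⟩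

theorem vw_qry {k : ℕ} {V : Type} (j : V) (q : Qry k V) (g : V ⊕ Bool → Bool)
    {f : Inp k V → Bool} (h : ∀ x, f x = g (ans x q)) : f ∈ SDT k V j 1 :=
  ⟨fun _ => f, fun _ => Or.inr ⟨q, fun a _ => g a, fun a => ⟨g a, fun _ => rfl⟩, h⟩,
    fun _ => rfl⟩

theorem vw_pos {n k w : ℕ} (E : Fin (k + 1) → Fin (n + 1) → Slot w)
    (hE : ∀ i, Function.Injective (E i)) (a : Fin (k + 1) → Slot w → Bool) (z : Bool)
    (p : PK k w ⊕ CT k w) :
    (fun x => view E a x z p) ∈ SDT k (Fin (n + 1)) 0 1 := by
  classical
  rcases p with (⟨i, u, v⟩ | u) | (⟨i, u⟩ | u)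
  · by_cases h : (∃ u', E i.castSucc u' = u) ∧ ∃ v', E i.succ v' = v
    · obtain ⟨⟨u', rfl⟩, v', rfl⟩ := h
      apply vw_qry 0 (Qry.out i u') (fun b => decide (b = Sum.inl v'))
      intro x
      rw [Bool.eq_iff_iff]
      constructor
      · intro hh
        obtain ⟨j, h1, h2⟩ := of_decide_eq_true hh
        apply decide_eq_true
        have h1' := hE _ h1
        have h2' := hE _ h2
        change Sum.inl (x.1 i.succ ((x.1 i.castSucc).symm u')) = Sum.inl v'
        rw [← h1', ← h2']
        simp
      · intro hh
        have h := of_decide_eq_true hh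
        apply decide_eq_true
        refine ⟨(x.1 i.castSucc).symm u', by simp, ?_⟩
        change Sum.inl (x.1 i.succ ((x.1 i.castSucc).symm u')) = Sum.inl v' at h
        change E i.succ (x.1 i.succ ((x.1 i.castSucc).symm u')) = E i.succ v'
        rw [Sum.inl.inj h]
    · have : (fun x : Inp k (Fin (n + 1)) => view E a x z (Sum.inl (Sum.inl (i, u, v)))) =
          fun _ => false := by
        funext x
        simp only [view, Sum.elim_inl]
        rw [decide_eq_false_iff_not]
        rintro ⟨j, h1, h2⟩
        exact h ⟨⟨_, h1⟩, ⟨_, h2⟩⟩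
      rw [this]
      exact vw_const 0 false
  · exact ⟨fun u' _ => decide (E 0 u' = u), fun u' => Or.inl ⟨_, fun _ => rfl⟩, fun x => rfl⟩
  · by_cases h : ∃ v, E i v = u
    · apply vw_qry 0 (Qry.lab i h.choose) (fun b => Sum.elim (fun _ => false) id b)
      intro x
      simp only [view, Sum.elim_inl, Sum.elim_inr]
      rw [dif_pos h]
      simp [ans]
    · have : (fun x : Inp k (Fin (n + 1)) => view E a x z (Sum.inr (Sum.inl (i, u)))) =
          fun _ => if (i : ℕ) < k then false else a i u := by
        funext x
        simp only [view, Sum.elim_inl, Sum.elim_inr]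
        rw [dif_neg h]
      rw [this]
      exact vw_const 0 _
  · exact vw_const 0 z

/-- A circuit evaluated on the view is a circuit over decision trees of depth one. -/
theorem view_AC {n k w s d : ℕ} (E : Fin (k + 1) → Fin (n + 1) → Slot w)
    (hE : ∀ i, Function.Injective (E i)) (a : Fin (k + 1) → Slot w → Bool) (z : Bool)
    (A : (PK k w ⊕ CT k w → Bool) → Bool) (hA : A ∈ AC (lits _) s d) :
    (fun x => A (view E a x z)) ∈ AC (SDT k (Fin (n + 1)) 0 1) s d := by
  apply vw_pull (fun x => view E a x z) _ d hA
  rintro f (⟨p, rfl⟩ | ⟨p, rfl⟩ | ⟨b, rfl⟩)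
  · exact vw_pos E hE a z p
  · exact vw_not 0 (vw_pos E hE a z p)
  · exact vw_const 0 b

end Pool.Agent.ACP
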